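import Pool.Agent.H67.SW.Def

/-! # SW.Avoid : the join is not contained in a join of cliques (about 250 lines)

`q = p + 2`. `C` on `Σ i, Fin (N i)`: vertices of different parts are adjacent, vertices `x ≠ y` of the part `i` are adjacent iff `x / (d i + 1) = y / (d i + 1)`; so inside a part adjacency generates an equivalence relation with classes (cliques) of at most `d i + 1` elements. Let `φ` be an injective map of the vertices of `G = apexJoin H M`
sending edges to edges. (a) For every `j : Fin p` there is a part `e_j` containing a vertex of `φ(Φ_j)` (`Φ_j` the `j`-th independent set) and no `φ` of a vertex of another factor. Otherwise: every part containing `φ(z)`, `z ∈ Φ_j`, contains some `φ(y)`, `y` of another factor, so adjacent to all vertices of `Φ_j`: the vertices of `Φ_j` in this part lie in the clique of `φ(y)`,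
at most `d i ≤ a - 1 < m` of them; so `|Φ_j| ≤ q (m - 1) < q m ≤ M j`. (b) The `e_j` are different, and no `e_j` contains the image of the hub or of a vertex of `H`. So these images lie in the at most `q - p = 2` other parts. Let `i` be the part of `φ(hub)`. `A` = vertices of `H` in the part `i`: they are adjacent to the hub, so in its clique: `|A| ≤ d i`. If all
vertices of `H` are in `A`: `m ≤ d i < a ≤ m`: contradiction. Otherwise the others are in one part `j ≠ i`; `g x` = number of the clique of `φ x` (`x.2.val / (d j + 1)`): adjacent vertices outside `A` have the same `g` and every value is taken at most `d j + 1` times. So `Sep H (d i) (d j)`, contradiction. -/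

namespace H67.SW

open SimpleGraph Pool.Agent.H62.Decomp H67.SG

private lemma sig_ext {q : ℕ} {N : Fin q → ℕ} {x y : Σ i : Fin q, Fin (N i)} (h1 : x.1 = y.1)
    (h2 : x.2.val = y.2.val) : x = y := by
  obtain ⟨i, a⟩ := x
  obtain ⟨j, b⟩ := y
  dsimp only at h1 h2
  subst h1
  rw [Fin.ext h2]

/-- at most `d i + 1` vertices of a part lie in one clique -/
private lemma clq_card {ι : Type} {q : ℕ} {N : Fin q → ℕ} (d : Fin q → ℕ)
    (f : ι → Σ i : Fin q, Fin (N i)) (hf : Function.Injective f) (i : Fin q) (r : ℕ) (S : Finset ι)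
    (hS : ∀ x ∈ S, (f x).1 = i ∧ (f x).2.val / (d i + 1) = r) : S.card ≤ d i + 1 := by
  have h1 : S.card ≤ (Finset.Ico (r * (d i + 1)) ((r + 1) * (d i + 1))).card := by
    refine Finset.card_le_card_of_injOn (fun x => (f x).2.val) ?_ ?_
    · intro x hx
      have h2 := hS x hx
      simp only [Finset.coe_Ico, Set.mem_Ico]
      have h3 : 0 < d i + 1 := Nat.succ_pos _
      constructor
      · rw [← h2.2]
        exact Nat.div_mul_le_self _ _
      · have h4 := Nat.lt_mul_div_succ (f x).2.val h3
        rw [h2.2] at h4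
        calc (f x).2.val < (d i + 1) * (r + 1) := h4
          _ = (r + 1) * (d i + 1) := Nat.mul_comm _ _
    · intro x hx y hy hxy
      exact hf (sig_ext ((hS x hx).1.trans (hS y hy).1.symm) hxy)
  refine h1.trans ?_
  rw [Nat.card_Ico]
  have : (r + 1) * (d i + 1) = r * (d i + 1) + (d i + 1) := by ring
  omega

theorem join_avoid {m p a : ℕ} (H : SimpleGraph (Fin m)) (hB : Base H a) (M : Fin p → ℕ)
    (hM : ∀ j, (p + 2) * m ≤ M j) (d : Fin (p + 2) → ℕ) (hd : ∀ i, d i + 1 ≤ a)
    (hsep : ∀ i j, i ≠ j → ¬ Sep H (d i) (d j)) (N : Fin (p + 2) → ℕ)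
    (C : SimpleGraph (Σ i : Fin (p + 2), Fin (N i)))
    (hC : ∀ x y, C.Adj x y ↔ x.1 ≠ y.1 ∨
      (x ≠ y ∧ x.1 = y.1 ∧ x.2.val / (d x.1 + 1) = y.2.val / (d y.1 + 1))) :
    ¬ apexJoin H M ⊑ C := by
  classical
  rintro ⟨φ⟩
  obtain ⟨f, hf⟩ : ∃ f : Vx m p M → Σ i : Fin (p + 2), Fin (N i), f = fun x => φ x := ⟨_, rfl⟩
  have hinj : Function.Injective f := by
    rw [hf]
    exact φ.injective
  have hadj : ∀ x y, (apexJoin H M).Adj x y → C.Adj (f x) (f y) := by
    intro x y h
    rw [hf]
    exact φ.toHom.map_rel h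
  have hnum : ∀ x y i, (apexJoin H M).Adj x y → (f x).1 = i → (f y).1 = i →
      (f y).2.val / (d i + 1) = (f x).2.val / (d i + 1) := by
    intro x y i h h1 h2
    rcases (hC _ _).1 (hadj x y h) with h3 | ⟨_, _, h3⟩
    · exact absurd (h1.trans h2.symm) h3
    · have e1 : d (f x).1 = d i := congrArg d h1
      have e2 : d (f y).1 = d i := congrArg d h2
      rw [e1, e2] at h3
      exact h3.symm
  clear hf
  have ha1 : a ≤ m := by
    have := hB.le
    omega
  have ha0 : 1 ≤ a := hB.one
  -- (a)
  have ha : ∀ j : Fin p, ∃ e : Fin (p + 2), (∃ k : Fin (M j), (f (Sum.inr (Sum.inr ⟨j, k⟩))).1 = e) ∧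
      ∀ y, fac y ≠ j.val + 2 → (f y).1 ≠ e := by
    intro j
    by_contra hcon
    have hj : ∀ e : Fin (p + 2), (∃ k : Fin (M j), (f (Sum.inr (Sum.inr ⟨j, k⟩))).1 = e) →
        ∃ y, fac y ≠ j.val + 2 ∧ (f y).1 = e := by
      intro e he
      by_contra h
      apply hcon
      refine ⟨e, he, fun y hy hye => h ⟨y, hy, hye⟩⟩
    have hS : ∀ e : Fin (p + 2), (Finset.univ.filter
        (fun k : Fin (M j) => (f (Sum.inr (Sum.inr ⟨j, k⟩))).1 = e)).card ≤ d e := by
      intro e
      rcases Finset.eq_empty_or_nonempty (Finset.univ.filter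
        (fun k : Fin (M j) => (f (Sum.inr (Sum.inr ⟨j, k⟩))).1 = e)) with h0 | ⟨k0, hk0⟩
      · rw [h0]
        simp
      · obtain ⟨y, hy1, hy2⟩ := hj e ⟨k0, (Finset.mem_filter.1 hk0).2⟩
        have hzinj : Function.Injective
            (fun k : Fin (M j) => (Sum.inr (Sum.inr ⟨j, k⟩) : Vx m p M)) := by
          intro k k' h
          simpa using h
        have hfz : ∀ k : Fin (M j), fac (Sum.inr (Sum.inr ⟨j, k⟩) : Vx m p M) = j.val + 2 := fun k => rfl
        have h1 := clq_card d f hinj e ((f y).2.val / (d e + 1))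
          (insert y ((Finset.univ.filter
            (fun k : Fin (M j) => (f (Sum.inr (Sum.inr ⟨j, k⟩))).1 = e)).image
            (fun k : Fin (M j) => (Sum.inr (Sum.inr ⟨j, k⟩) : Vx m p M)))) (by
          intro x hx
          rcases Finset.mem_insert.1 hx with rfl | hx
          · exact ⟨hy2, rfl⟩
          · obtain ⟨k, hk, rfl⟩ := Finset.mem_image.1 hx
            have hk2 := (Finset.mem_filter.1 hk).2
            refine ⟨hk2, hnum _ _ e ?_ hy2 hk2⟩
            apply adj_of_fac
            rw [hfz k]
            exact hy1)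
        have hnot : y ∉ (Finset.univ.filter
            (fun k : Fin (M j) => (f (Sum.inr (Sum.inr ⟨j, k⟩))).1 = e)).image
            (fun k : Fin (M j) => (Sum.inr (Sum.inr ⟨j, k⟩) : Vx m p M)) := by
          intro h
          obtain ⟨k, _, hk⟩ := Finset.mem_image.1 h
          apply hy1
          rw [← hk]
          exact hfz k
        rw [Finset.card_insert_of_notMem hnot, Finset.card_image_of_injective _ hzinj] at h1
        omega
    have hsum : (Finset.univ : Finset (Fin (M j))).card = ∑ e : Fin (p + 2), (Finset.univ.filter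
        (fun k : Fin (M j) => (f (Sum.inr (Sum.inr ⟨j, k⟩))).1 = e)).card :=
      Finset.card_eq_sum_card_fiberwise (fun x _ => Finset.mem_univ _)
    have hle : ∑ e : Fin (p + 2), (Finset.univ.filter
        (fun k : Fin (M j) => (f (Sum.inr (Sum.inr ⟨j, k⟩))).1 = e)).card ≤
        ∑ _e : Fin (p + 2), (m - 1) := by
      refine Finset.sum_le_sum (fun e _ => (hS e).trans ?_)
      have := hd e
      omega
    rw [Finset.card_univ, Fintype.card_fin] at hsum
    rw [Finset.sum_const, Finset.card_univ, Fintype.card_fin, smul_eq_mul] at hle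
    have h2 := hM j
    have h3 : (p + 2) * (m - 1) < (p + 2) * m := by
      apply Nat.mul_lt_mul_of_pos_left <;> omega
    omega
  choose e he1 he2 using ha
  have heinj : Function.Injective e := by
    intro j j' h
    by_contra hne
    obtain ⟨k, hk⟩ := he1 j'
    refine he2 j (Sum.inr (Sum.inr ⟨j', k⟩)) ?_ (hk.trans h.symm)
    intro h1
    apply hne
    have h2 : j'.val + 2 = j.val + 2 := h1
    exact Fin.ext (by omega)
  -- (b)
  have hcomp : ((Finset.univ : Finset (Fin (p + 2))) \ Finset.univ.image e).card = 2 := by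
    rw [Finset.card_sdiff_of_subset (Finset.subset_univ _), Finset.card_image_of_injective _ heinj]
    simp
  have hout : ∀ y : Vx m p M, fac y < 2 →
      (f y).1 ∈ (Finset.univ : Finset (Fin (p + 2))) \ Finset.univ.image e := by
    intro y hy
    refine Finset.mem_sdiff.2 ⟨Finset.mem_univ _, fun h => ?_⟩
    obtain ⟨j, _, hj⟩ := Finset.mem_image.1 h
    exact he2 j y (by omega) hj.symm
  obtain ⟨i, hi⟩ : ∃ i, i = (f (hub m p M)).1 := ⟨_, rfl⟩
  have hi1 : i ∈ (Finset.univ : Finset (Fin (p + 2))) \ Finset.univ.image e := by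
    rw [hi]
    exact hout _ (by simp [hub, fac])
  obtain ⟨j0, hj0⟩ : ∃ j0, ((Finset.univ : Finset (Fin (p + 2))) \ Finset.univ.image e).erase i =
      {j0} := by
    apply Finset.card_eq_one.1
    rw [Finset.card_erase_of_mem hi1, hcomp]
  have hij : i ≠ j0 := by
    intro h
    have : j0 ∈ ((Finset.univ : Finset (Fin (p + 2))) \ Finset.univ.image e).erase i := by
      rw [hj0]
      exact Finset.mem_singleton_self _
    exact (Finset.mem_erase.1 this).1 h.symm
  have hpart : ∀ x : Fin m, (f (Sum.inr (Sum.inl x))).1 ≠ i → (f (Sum.inr (Sum.inl x))).1 = j0 := by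
    intro x hx
    have h1 : (f (Sum.inr (Sum.inl x))).1 ∈
        ((Finset.univ : Finset (Fin (p + 2))) \ Finset.univ.image e).erase i :=
      Finset.mem_erase.2 ⟨hx, hout _ (by simp [fac])⟩
    rw [hj0] at h1
    exact Finset.mem_singleton.1 h1
  have hxinj : Function.Injective (fun x : Fin m => (Sum.inr (Sum.inl x) : Vx m p M)) := by
    intro x y h
    simpa using h
  apply hsep i j0 hij
  refine ⟨Finset.univ.filter (fun x : Fin m => (f (Sum.inr (Sum.inl x))).1 = i),
    fun x => (f (Sum.inr (Sum.inl x))).2.val / (d j0 + 1), ?_, ?_, ?_⟩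
  · have h1 := clq_card d f hinj i ((f (hub m p M)).2.val / (d i + 1))
      (insert (hub m p M) ((Finset.univ.filter
        (fun x : Fin m => (f (Sum.inr (Sum.inl x))).1 = i)).image
        (fun x : Fin m => (Sum.inr (Sum.inl x) : Vx m p M)))) (by
      intro x hx
      rcases Finset.mem_insert.1 hx with rfl | hx
      · exact ⟨hi.symm, rfl⟩
      · obtain ⟨k, hk, rfl⟩ := Finset.mem_image.1 hx
        have hk2 := (Finset.mem_filter.1 hk).2
        refine ⟨hk2, hnum _ _ i ?_ hi.symm hk2⟩
        apply adj_of_fac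
        simp [hub, fac])
    have hnot : hub m p M ∉ (Finset.univ.filter
        (fun x : Fin m => (f (Sum.inr (Sum.inl x))).1 = i)).image
        (fun x : Fin m => (Sum.inr (Sum.inl x) : Vx m p M)) := by
      intro h
      obtain ⟨k, _, hk⟩ := Finset.mem_image.1 h
      simp [hub] at hk
    rw [Finset.card_insert_of_notMem hnot, Finset.card_image_of_injective _ hxinj] at h1
    omega
  · intro x y hx hy hxy
    have hx1 : (f (Sum.inr (Sum.inl x))).1 = j0 :=
      hpart x (fun h => hx (Finset.mem_filter.2 ⟨Finset.mem_univ _, h⟩))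
    have hy1 : (f (Sum.inr (Sum.inl y))).1 = j0 :=
      hpart y (fun h => hy (Finset.mem_filter.2 ⟨Finset.mem_univ _, h⟩))
    exact (hnum _ _ j0 (adj_inner.2 hxy) hx1 hy1).symm
  · intro r
    have h1 := clq_card d (fun x : Fin m => f (Sum.inr (Sum.inl x))) (hinj.comp hxinj) j0 r
      (Finset.univ.filter (fun x : Fin m =>
        x ∉ Finset.univ.filter (fun x : Fin m => (f (Sum.inr (Sum.inl x))).1 = i) ∧
        (f (Sum.inr (Sum.inl x))).2.val / (d j0 + 1) = r)) (by
      intro x hx
      have h2 := (Finset.mem_filter.1 hx).2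
      refine ⟨hpart x (fun h => h2.1 (Finset.mem_filter.2 ⟨Finset.mem_univ _, h⟩)), h2.2⟩)
    exact h1

end H67.SW
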