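import Pool.Agent.H67.SW.Def

/-! # SW.Away : disjoint paths away from a small set (about 180 lines)

(a) `path_from`: if all `x ∈ S` have at least `t` neighbours in `S` then for every `y ∈ S` there is an injective `y_0 = y, y_1, …, y_t` in `S` with `C.Adj y_u y_(u+1)`: choose the next vertex among the `≥ t` neighbours of `y_u` in `S`, at most `u < t` of them are used (`y_u` is not its own neighbour).
(b) near sets: for a set `N₀` put `N_(u+1) = (N_u ∩ S) ∪ {z ∈ S | z is adjacent to an element of N_u ∩ S}` (start with `N₀ ∩ S`); `|N_(u+1)| ≤ (ρ + 1) |N_u|`, so `|N_t| ≤ (ρ+1)^t |N₀|`. If a path as in (a) starts at `y ∈ S \ N_t` then it avoids `N₀`: if `y_u ∈ N₀` then `y_(u-1) ∈ N_1`, …, `y_0 ∈ N_u ⊆ N_t`.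
(c) Induction over the number `P` of paths: with `N₀ = B ∪ (vertices used so far)`, at most `b + P (t+1)` elements; `hn` gives `y ∈ S \ N_t`. New path: `Fin.snoc` or `Fin.cons` or a function on `Fin P` by cases. -/

namespace H67.SW

open SimpleGraph Pool.Agent.H62.Decomp H67.SG

private theorem path_from {W : Type} [Fintype W] (C : SimpleGraph W) (S : Finset W) (t : ℕ)
    (ht : ∀ x ∈ S, t ≤ dg C x S) (y : W) (hy : y ∈ S) :
    ∀ s, s ≤ t → ∃ f : ℕ → W, f 0 = y ∧ (∀ u, u ≤ s → f u ∈ S) ∧
      (∀ u v, u ≤ s → v ≤ s → f u = f v → u = v) ∧ ∀ u, u < s → C.Adj (f u) (f (u + 1)) := by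
  classical
  intro s
  induction s with
  | zero =>
    intro _
    refine ⟨fun _ => y, rfl, fun _ _ => hy, ?_, ?_⟩
    · intro u v hu hv _
      omega
    · intro u hu
      omega
  | succ s ih =>
    intro hs
    obtain ⟨f, f0, fS, fi, fa⟩ := ih (by omega)
    have h1 : t ≤ dg C (f s) S := ht _ (fS s le_rfl)
    have h2 : ∃ z ∈ S, C.Adj (f s) z ∧ ∀ u, u ≤ s → z ≠ f u := by
      by_contra hcon
      push Not at hcon
      have hsub : (S.filter (fun z => C.Adj (f s) z)) ⊆ (Finset.range s).image f := by
        intro z hz
        rw [Finset.mem_filter] at hz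
        obtain ⟨u, hu, hzu⟩ := hcon z hz.1 hz.2
        rw [Finset.mem_image]
        refine ⟨u, ?_, hzu.symm⟩
        rw [Finset.mem_range]
        rcases Nat.lt_or_ge u s with h | h
        · exact h
        · exfalso
          have : u = s := by omega
          subst this
          have h3 := hz.2
          rw [hzu] at h3
          exact h3.ne rfl
      have h4 := Finset.card_le_card hsub
      have h5 : ((Finset.range s).image f).card ≤ s := by
        refine Finset.card_image_le.trans ?_
        rw [Finset.card_range]
      have h6 : dg C (f s) S = (S.filter (fun z => C.Adj (f s) z)).card := by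
        unfold dg
        congr
      omega
    obtain ⟨z, zS, za, zn⟩ := h2
    refine ⟨fun u => if u = s + 1 then z else f u, ?_, ?_, ?_, ?_⟩
    · simp [f0]
    · intro u hu
      by_cases h : u = s + 1
      · simp [h, zS]
      · simp only [h, if_false]
        exact fS u (by omega)
    · intro u v hu hv huv
      by_cases h : u = s + 1
      · by_cases h' : v = s + 1
        · rw [h, h']
        · exfalso
          simp only [h, h', if_true, if_false] at huv
          exact zn v (by omega) huv
      · by_cases h' : v = s + 1
        · exfalso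
          simp only [h, h', if_true, if_false] at huv
          exact zn u (by omega) huv.symm
        · simp only [h, h', if_false] at huv
          exact fi u v (by omega) (by omega) huv
    · intro u hu
      by_cases h : u = s
      · subst h
        have h7 : ¬ (u = u + 1) := by omega
        simp only [h7, if_false, if_true]
        exact za
      · have h7 : ¬ (u = s + 1) := by omega
        have h8 : ¬ (u + 1 = s + 1) := by omega
        simp only [h7, h8, if_false]
        exact fa u (by omega)

open Classical in
private noncomputable def near {W : Type} (C : SimpleGraph W) (S N : Finset W) : ℕ → Finset W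
  | 0 => N ∩ S
  | u + 1 => near C S N u ∪ S.filter (fun z => ∃ x ∈ near C S N u, C.Adj x z)

private theorem near_sub {W : Type} (C : SimpleGraph W) (S N : Finset W) (u : ℕ) :
    near C S N u ⊆ S := by
  classical
  induction u with
  | zero =>
    intro z hz
    rw [near, Finset.mem_inter] at hz
    exact hz.2
  | succ u ih =>
    intro z hz
    rw [near, Finset.mem_union] at hz
    rcases hz with h | h
    · exact ih h
    · exact (Finset.mem_filter.mp h).1

private theorem near_mono {W : Type} (C : SimpleGraph W) (S N : Finset W) {u v : ℕ} (h : u ≤ v) :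
    near C S N u ⊆ near C S N v := by
  classical
  induction v with
  | zero =>
    have : u = 0 := by omega
    rw [this]
  | succ v ih =>
    rcases Nat.lt_or_ge u (v + 1) with h1 | h1
    · refine (ih (by omega)).trans ?_
      rw [near]
      exact Finset.subset_union_left
    · have : u = v + 1 := by omega
      rw [this]

private theorem near_card {W : Type} [Fintype W] (C : SimpleGraph W) (S N : Finset W) (ρ : ℕ)
    (hρ : ∀ x ∈ S, dg C x S ≤ ρ) (u : ℕ) : (near C S N u).card ≤ N.card * (ρ + 1) ^ u := by
  classical
  induction u with
  | zero =>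
    rw [near, pow_zero, mul_one]
    exact Finset.card_le_card Finset.inter_subset_left
  | succ u ih =>
    have h1 : (near C S N (u + 1)).card ≤ (near C S N u).card +
        (S.filter (fun z => ∃ x ∈ near C S N u, C.Adj x z)).card := by
      rw [near]
      exact Finset.card_union_le _ _
    have h2 : (S.filter (fun z => ∃ x ∈ near C S N u, C.Adj x z)) ⊆
        (near C S N u).biUnion (fun x => S.filter (fun z => C.Adj x z)) := by
      intro z hz
      rw [Finset.mem_filter] at hz
      obtain ⟨x, hx, hxz⟩ := hz.2
      rw [Finset.mem_biUnion]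
      exact ⟨x, hx, Finset.mem_filter.mpr ⟨hz.1, hxz⟩⟩
    have h3 : ((near C S N u).biUnion (fun x => S.filter (fun z => C.Adj x z))).card ≤
        (near C S N u).card * ρ := by
      refine Finset.card_biUnion_le_card_mul _ _ _ ?_
      intro x hx
      have h4 := hρ x (near_sub C S N u hx)
      unfold dg at h4
      convert h4
    have h5 := Finset.card_le_card h2
    calc (near C S N (u + 1)).card ≤ (near C S N u).card + (near C S N u).card * ρ := by omega
      _ = (near C S N u).card * (ρ + 1) := by ring
      _ ≤ N.card * (ρ + 1) ^ u * (ρ + 1) := Nat.mul_le_mul_right _ ih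
      _ = N.card * (ρ + 1) ^ (u + 1) := by ring

private theorem near_back {W : Type} (C : SimpleGraph W) (S N : Finset W) (t : ℕ) (f : ℕ → W)
    (fS : ∀ u, u ≤ t → f u ∈ S) (fa : ∀ u, u < t → C.Adj (f u) (f (u + 1)))
    (h0 : f 0 ∉ near C S N t) : ∀ u, u ≤ t → f u ∉ N := by
  classical
  intro u hu hN
  have key : ∀ j, j ≤ u → f (u - j) ∈ near C S N j := by
    intro j
    induction j with
    | zero =>
      intro _
      rw [near, Finset.mem_inter]
      exact ⟨hN, fS _ hu⟩
    | succ j ih =>
      intro hj
      have h1 := ih (by omega)
      rw [near, Finset.mem_union]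
      right
      rw [Finset.mem_filter]
      refine ⟨fS _ (by omega), f (u - j), h1, ?_⟩
      have h2 := fa (u - (j + 1)) (by omega)
      have h3 : u - (j + 1) + 1 = u - j := by omega
      rw [h3] at h2
      exact h2.symm
  have h4 := key u le_rfl
  rw [Nat.sub_self] at h4
  exact h0 (near_mono C S N hu h4)

theorem paths_away {W : Type} [Fintype W] (C : SimpleGraph W) (S : Finset W) (ρ t P b : ℕ)
    (hρ : ∀ x ∈ S, dg C x S ≤ ρ) (ht : ∀ x ∈ S, t ≤ dg C x S) (B : Finset W) (hB : B.card ≤ b)
    (hn : (b + P * (t + 1)) * (ρ + 1) ^ t < S.card) :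
    ∃ y : Fin P → Fin (t + 1) → W, (∀ r u, y r u ∈ S ∧ y r u ∉ B) ∧
      (∀ r u r' u', y r u = y r' u' → r = r' ∧ u = u') ∧
      ∀ r (u u' : Fin (t + 1)), u.val + 1 = u'.val → C.Adj (y r u) (y r u') := by
  classical
  induction P with
  | zero =>
    refine ⟨fun r => r.elim0, fun r => r.elim0, fun r => r.elim0, fun r => r.elim0⟩
  | succ P ih =>
    have hle : (b + P * (t + 1)) * (ρ + 1) ^ t ≤ (b + (P + 1) * (t + 1)) * (ρ + 1) ^ t := by
      apply Nat.mul_le_mul_right
      have : (P + 1) * (t + 1) = P * (t + 1) + (t + 1) := by ring
      omega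
    obtain ⟨y, yS, yi, ya⟩ := ih (by omega)
    set N : Finset W := B ∪ (Finset.univ : Finset (Fin P × Fin (t + 1))).image (fun z => y z.1 z.2) with hN
    have hNc : N.card ≤ b + P * (t + 1) := by
      have h1 : N.card ≤ B.card +
          ((Finset.univ : Finset (Fin P × Fin (t + 1))).image (fun z => y z.1 z.2)).card := by
        rw [hN]
        exact Finset.card_union_le _ _
      have h2 : ((Finset.univ : Finset (Fin P × Fin (t + 1))).image (fun z => y z.1 z.2)).card ≤
          P * (t + 1) := by
        refine Finset.card_image_le.trans ?_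
        rw [Finset.card_univ, Fintype.card_prod, Fintype.card_fin, Fintype.card_fin]
      omega
    have h3 : (near C S N t).card < S.card := by
      have h4 := near_card C S N ρ hρ t
      have h5 : N.card * (ρ + 1) ^ t ≤ (b + P * (t + 1)) * (ρ + 1) ^ t := Nat.mul_le_mul_right _ hNc
      omega
    obtain ⟨z, zS, zn⟩ := Finset.exists_mem_notMem_of_card_lt_card h3
    obtain ⟨f, f0, fS, fi, fa⟩ := path_from C S t ht z zS t le_rfl
    have fN : ∀ u, u ≤ t → f u ∉ N := near_back C S N t f fS fa (by rw [f0]; exact zn)
    refine ⟨fun r u => if h : r.val < P then y ⟨r.val, h⟩ u else f u.val, ?_, ?_, ?_⟩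
    · intro r u
      by_cases h : r.val < P
      · simp only [h, dif_pos]
        exact yS _ u
      · simp only [h, dif_neg, not_false_eq_true]
        refine ⟨fS _ (by have := u.isLt; omega), ?_⟩
        intro hb
        exact fN u.val (by have := u.isLt; omega) (by rw [hN]; exact Finset.mem_union_left _ hb)
    · intro r u r' u' he
      by_cases h : r.val < P
      · by_cases h' : r'.val < P
        · simp only [h, h', dif_pos] at he
          obtain ⟨h6, h7⟩ := yi _ _ _ _ he
          refine ⟨?_, h7⟩
          apply Fin.ext
          simpa using congrArg Fin.val h6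
        · exfalso
          simp only [h, h', dif_pos, dif_neg, not_false_eq_true] at he
          refine fN u'.val (by have := u'.isLt; omega) ?_
          rw [hN, ← he]
          exact Finset.mem_union_right _ (Finset.mem_image.mpr ⟨(⟨r.val, h⟩, u), Finset.mem_univ _, rfl⟩)
      · by_cases h' : r'.val < P
        · exfalso
          simp only [h, h', dif_pos, dif_neg, not_false_eq_true] at he
          refine fN u.val (by have := u.isLt; omega) ?_
          rw [hN, he]
          exact Finset.mem_union_right _ (Finset.mem_image.mpr ⟨(⟨r'.val, h'⟩, u'), Finset.mem_univ _, rfl⟩)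
        · simp only [h, h', dif_neg, not_false_eq_true] at he
          have h8 := fi u.val u'.val (by have := u.isLt; omega) (by have := u'.isLt; omega) he
          refine ⟨Fin.ext ?_, Fin.ext h8⟩
          have := r.isLt
          have := r'.isLt
          omega
    · intro r u u' huu
      by_cases h : r.val < P
      · simp only [h, dif_pos]
        exact ya _ u u' huu
      · simp only [h, dif_neg, not_false_eq_true]
        rw [← huu]
        exact fa u.val (by have := u'.isLt; omega)

end H67.SW
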