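import Pool.Agent.H67.SW.Def

/-! # SW.Blk : existence of block graphs (about 250 lines)

`clique_blocks`: `N = x D + y (D + 1)` with `y = N % D`, `x = N / D - y` (`x ≥ 0` because `N / D ≥ D > y`). Label of `v < y (D+1)`: `v / (D+1)`, of the other `v`: `y + (v - y (D+1)) / D`. Every block has `D` or `D + 1` elements (a block is an interval).
`regular_blocks`: blocks of two kinds: cliques with `D + 1` vertices and complete bipartite graphs `K_(D,D)` with `2 D` vertices. `N = x (D+1) + y (2 D)` is solvable in natural numbers for all large `N` with `N D` even: if `D` is even, `gcd (D+1, 2D) = 1`; if `D` is odd, `N` is even, `(D+1)/2` and `D` are coprime, and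
`N / 2 = x (D+1)/2 + y D`. Label of `v < x (D+1)`: `v / (D+1)`; of the others `x + (v - x (D+1)) / (2 D)`. Adjacency in the first blocks: same label and different; in the blocks of the second kind: same label and exactly one of the two positions `(v - x (D+1)) % (2 D)` is `< D`. All degrees are `D`; blocks have at most
`2 D + 1` elements. -/

namespace H67.SW

open SimpleGraph Pool.Agent.H62.Decomp H67.SG

private theorem blk_div_iff (a b c : ℕ) (hb : 0 < b) : a / b = c ↔ c * b ≤ a ∧ a < (c + 1) * b := by
  constructor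
  · rintro rfl
    exact ⟨Nat.div_mul_le_self a b, Nat.lt_mul_of_div_lt (Nat.lt_succ_self _) hb⟩
  · rintro ⟨h1, h2⟩
    exact Nat.div_eq_of_lt_le h1 h2

private theorem blk_card_interval {N : ℕ} (P : Fin N → Prop) [DecidablePred P] (lo hi : ℕ) (hhi : hi ≤ N)
    (h : ∀ u : Fin N, P u ↔ lo ≤ u.val ∧ u.val < hi) : (Finset.univ.filter P).card = hi - lo := by
  have h1 : (Finset.univ.filter P).map Fin.valEmbedding = Finset.Ico lo hi := by
    ext k
    simp only [Finset.mem_map, Finset.mem_filter, Finset.mem_univ, true_and, Fin.valEmbedding_apply,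
      Finset.mem_Ico]
    constructor
    · rintro ⟨u, hu, rfl⟩
      exact (h u).mp hu
    · intro hk
      exact ⟨⟨k, lt_of_lt_of_le hk.2 hhi⟩, (h _).mpr hk, rfl⟩
  rw [← Finset.card_map Fin.valEmbedding, h1, Nat.card_Ico]

/-- label of a point: `x` blocks of size `p` followed by blocks of size `q` -/
private def blkLab (x p q v : ℕ) : ℕ := if v < x * p then v / p else x + (v - x * p) / q

private theorem blk_lab_low {x p q : ℕ} (hp : 0 < p) (v u : ℕ) (hv : v < x * p) :
    blkLab x p q u = blkLab x p q v ↔ v / p * p ≤ u ∧ u < v / p * p + p := by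
  have h1 : v / p < x := Nat.div_lt_of_lt_mul (by rwa [Nat.mul_comm] at hv)
  have h2 : (v / p + 1) * p ≤ x * p := Nat.mul_le_mul_right p h1
  have h3 : (v / p + 1) * p = v / p * p + p := by ring
  unfold blkLab
  rw [if_pos hv]
  by_cases hu : u < x * p
  · rw [if_pos hu, blk_div_iff u p (v / p) hp, h3]
  · rw [if_neg hu]
    constructor
    · intro h
      have h6 : x ≤ x + (u - x * p) / q := Nat.le_add_right _ _
      rw [h] at h6
      exact absurd h1 (not_lt.mpr h6)
    · rintro ⟨h4, h5⟩
      omega

private theorem blk_lab_high {x p q : ℕ} (hp : 0 < p) (hq : 0 < q) (v u : ℕ) (hv : ¬ v < x * p) :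
    blkLab x p q u = blkLab x p q v ↔
      x * p + (v - x * p) / q * q ≤ u ∧ u < x * p + (v - x * p) / q * q + q := by
  have h3 : ((v - x * p) / q + 1) * q = (v - x * p) / q * q + q := by ring
  unfold blkLab
  rw [if_neg hv]
  by_cases hu : u < x * p
  · rw [if_pos hu]
    have h1 : u / p < x := Nat.div_lt_of_lt_mul (by rwa [Nat.mul_comm] at hu)
    constructor
    · intro h
      have h6 : x ≤ x + (v - x * p) / q := Nat.le_add_right _ _
      rw [← h] at h6
      exact absurd h1 (not_lt.mpr h6)
    · rintro ⟨h4, h5⟩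
      omega
  · rw [if_neg hu, Nat.add_left_cancel_iff, blk_div_iff (u - x * p) q _ hq, h3]
    omega

private theorem blk_high_bound {x p q y N v : ℕ} (hq : 0 < q) (hN : N = x * p + y * q) (hv : ¬ v < x * p)
    (hvN : v < N) : x * p + (v - x * p) / q * q + q ≤ N := by
  have h1 : (v - x * p) / q < y := by
    apply Nat.div_lt_of_lt_mul
    rw [Nat.mul_comm q y]
    omega
  have h2 : ((v - x * p) / q + 1) * q ≤ y * q := Nat.mul_le_mul_right q h1
  have h3 : ((v - x * p) / q + 1) * q = (v - x * p) / q * q + q := by ring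
  omega

private theorem blk_low_bound {x p q y N v : ℕ} (hN : N = x * p + y * q) (hv : v < x * p) :
    v / p * p + p ≤ N := by
  have h1 : v / p < x := Nat.div_lt_of_lt_mul (by rwa [Nat.mul_comm] at hv)
  have h2 : (v / p + 1) * p ≤ x * p := Nat.mul_le_mul_right p h1
  have h3 : (v / p + 1) * p = v / p * p + p := by ring
  omega

private theorem blk_size {x p q y N : ℕ} (hp : 0 < p) (hq : 0 < q) (hN : N = x * p + y * q) (v : Fin N) :
    (v.val < x * p → blk (fun u : Fin N => blkLab x p q u.val) v = p) ∧
      (¬ v.val < x * p → blk (fun u : Fin N => blkLab x p q u.val) v = q) := by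
  classical
  constructor
  · intro hv
    unfold blk
    rw [blk_card_interval _ _ _ (blk_low_bound (q := q) (y := y) hN hv)
      (fun u => blk_lab_low (q := q) hp v.val u.val hv)]
    omega
  · intro hv
    unfold blk
    rw [blk_card_interval _ _ _ (blk_high_bound (y := y) hq hN hv v.isLt)
      (fun u => blk_lab_high hp hq v.val u.val hv)]
    omega

theorem clique_blocks (D N : ℕ) (hD : 1 ≤ D) (hN : D * D ≤ N) :
    ∃ b : Fin N → ℕ, ∀ x, D ≤ blk b x ∧ blk b x ≤ D + 1 := by
  have h1 : N % D < D := Nat.mod_lt _ hD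
  have h2 : D ≤ N / D := (Nat.le_div_iff_mul_le hD).mpr hN
  have h3 : D * (N / D) + N % D = N := Nat.div_add_mod N D
  have h4 : N = (N % D) * (D + 1) + (N / D - N % D) * D := by
    have h5 : (N / D - N % D) * D + (N % D) * D = D * (N / D) := by
      rw [← Nat.add_mul, Nat.sub_add_cancel (by omega), Nat.mul_comm]
    have h6 : (N % D) * (D + 1) = (N % D) * D + N % D := by ring
    omega
  refine ⟨fun u => blkLab (N % D) (D + 1) D u.val, fun x => ?_⟩
  have h7 := blk_size (p := D + 1) (q := D) (Nat.succ_pos _) hD h4 x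
  by_cases hx : x.val < (N % D) * (D + 1)
  · rw [h7.1 hx]
    omega
  · rw [h7.2 hx]
    omega

/-- adjacency of the regular graph -/
private def blkAdj (x D u v : ℕ) : Prop :=
  u ≠ v ∧ blkLab x (D + 1) (2 * D) u = blkLab x (D + 1) (2 * D) v ∧
    (u < x * (D + 1) ∨ ((u - x * (D + 1)) % (2 * D) < D ↔ ¬ (v - x * (D + 1)) % (2 * D) < D))

private theorem blk_adj_symm (x D u v : ℕ) (hD : 1 ≤ D) (h : blkAdj x D u v) : blkAdj x D v u := by
  obtain ⟨h1, h2, h3⟩ := h
  refine ⟨h1.symm, h2.symm, ?_⟩
  rcases h3 with h3 | h3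
  · left
    have h4 := (blk_lab_low (p := D + 1) (q := 2 * D) (Nat.succ_pos D) u v h3).mp h2.symm
    have h5 : u / (D + 1) < x := Nat.div_lt_of_lt_mul (by rwa [Nat.mul_comm] at h3)
    have h6 : (u / (D + 1) + 1) * (D + 1) ≤ x * (D + 1) := Nat.mul_le_mul_right _ h5
    have h7 : (u / (D + 1) + 1) * (D + 1) = u / (D + 1) * (D + 1) + (D + 1) := by ring
    omega
  · right
    tauto

private theorem blk_solve (D N : ℕ) (hD : 1 ≤ D) (hN : 2 * D * (D + 1) ≤ N) (hev : Even (N * D)) :
    ∃ x y, N = x * (D + 1) + y * (2 * D) := by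
  have hpos : 0 < 2 * D := by omega
  have key : ∃ x, x < 2 * D ∧ x * (D + 1) ≡ N [MOD 2 * D] := by
    rcases Nat.even_mul.mp hev with h | h
    · refine ⟨N % (2 * D), Nat.mod_lt _ hpos, ?_⟩
      have h1 : N % (2 * D) * (D + 1) ≡ N * (D + 1) [MOD 2 * D] := (Nat.mod_modEq N (2 * D)).mul_right _
      refine h1.trans ?_
      obtain ⟨k, rfl⟩ := h
      have h2 : (k + k) * (D + 1) = (k + k) + 2 * D * k := by ring
      rw [h2]
      exact (Nat.modEq_iff_dvd' (by omega)).mpr ⟨k, by omega⟩ |>.symm
    · refine ⟨(N * (D + 1)) % (2 * D), Nat.mod_lt _ hpos, ?_⟩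
      have h1 : (N * (D + 1)) % (2 * D) * (D + 1) ≡ N * (D + 1) * (D + 1) [MOD 2 * D] :=
        (Nat.mod_modEq _ (2 * D)).mul_right _
      refine h1.trans ?_
      obtain ⟨k, rfl⟩ := h
      have h2 : N * (k + k + 1) * (k + k + 1) = N + 2 * (k + k) * (N * (k + 1)) := by ring
      rw [h2]
      refine ((Nat.modEq_iff_dvd' (Nat.le_add_right _ _)).mpr ?_).symm
      rw [Nat.add_sub_cancel_left]
      exact dvd_mul_right _ _
  obtain ⟨x, hx, hmod⟩ := key
  have h1 : x * (D + 1) ≤ N := by
    have : x * (D + 1) ≤ 2 * D * (D + 1) := Nat.mul_le_mul_right _ hx.le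
    omega
  obtain ⟨y, hy⟩ := (Nat.modEq_iff_dvd' h1).mp hmod
  refine ⟨x, y, ?_⟩
  have h2 : y * (2 * D) = 2 * D * y := Nat.mul_comm _ _
  omega

theorem regular_blocks (D : ℕ) (hD : 1 ≤ D) : ∃ N₀ : ℕ, ∀ N : ℕ, N₀ ≤ N → Even (N * D) →
    ∃ (F : SimpleGraph (Fin N)) (b : Fin N → ℕ), (∀ x, deg F x = D) ∧ (∀ x y, F.Adj x y → b x = b y) ∧
      ∀ x, blk b x ≤ 2 * D + 1 := by
  classical
  refine ⟨2 * D * (D + 1), fun N hN hev => ?_⟩
  obtain ⟨x, y, hxy⟩ := blk_solve D N hD hN hev
  let F : SimpleGraph (Fin N) :=
    { Adj := fun u v => blkAdj x D u.val v.val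
      symm := ⟨fun u v h => blk_adj_symm x D u.val v.val hD h⟩
      loopless := ⟨fun u h => h.1 rfl⟩ }
  have hsize := fun v : Fin N => blk_size (p := D + 1) (q := 2 * D) (Nat.succ_pos _) (by omega) hxy v
  refine ⟨F, fun u => blkLab x (D + 1) (2 * D) u.val, ?_, ?_, ?_⟩
  · intro v
    unfold deg dg
    by_cases hv : v.val < x * (D + 1)
    · have h1 : (Finset.univ.filter (fun u : Fin N => F.Adj v u)) =
          (Finset.univ.filter (fun u : Fin N => blkLab x (D + 1) (2 * D) u.val =
            blkLab x (D + 1) (2 * D) v.val)).erase v := by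
        ext u
        simp only [Finset.mem_filter, Finset.mem_univ, true_and, Finset.mem_erase]
        constructor
        · rintro ⟨h1, h2, h3⟩
          exact ⟨fun h => h1 (by rw [h]), h2.symm⟩
        · rintro ⟨h1, h2⟩
          exact ⟨fun h => h1 (Fin.ext h.symm), h2.symm, Or.inl hv⟩
      have h2 := (hsize v).1 hv
      unfold blk at h2
      have h3 : (Finset.univ.filter (fun u : Fin N => F.Adj v u)).card = D := by
        rw [h1, Finset.card_erase_of_mem (by simp), h2]
        omega
      convert h3
    · have hpos : 0 < 2 * D := by omega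
      have hb := blk_high_bound (y := y) hpos hxy hv v.isLt
      have hmem := fun u : Fin N => blk_lab_high (x := x) (p := D + 1) (q := 2 * D) (Nat.succ_pos _) hpos
        v.val u.val hv
      have hvm : (v.val - x * (D + 1)) / (2 * D) * (2 * D) + (v.val - x * (D + 1)) % (2 * D) =
          v.val - x * (D + 1) := Nat.div_add_mod' _ _
      -- position of a vertex of the block
      have hpos' : ∀ u : Fin N, blkLab x (D + 1) (2 * D) u.val = blkLab x (D + 1) (2 * D) v.val →
          (u.val - x * (D + 1)) % (2 * D) =
            u.val - (x * (D + 1) + (v.val - x * (D + 1)) / (2 * D) * (2 * D)) := by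
        intro u hu
        obtain ⟨h1, h2⟩ := (hmem u).mp hu
        have h3 : (u.val - x * (D + 1)) / (2 * D) = (v.val - x * (D + 1)) / (2 * D) := by
          rw [blk_div_iff _ _ _ hpos]
          have h4 : ((v.val - x * (D + 1)) / (2 * D) + 1) * (2 * D) =
            (v.val - x * (D + 1)) / (2 * D) * (2 * D) + 2 * D := by ring
          omega
        have h5 : (u.val - x * (D + 1)) / (2 * D) * (2 * D) + (u.val - x * (D + 1)) % (2 * D) =
          u.val - x * (D + 1) := Nat.div_add_mod' _ _
        rw [h3] at h5
        omega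
      have hvpos := hpos' v rfl
      generalize hlo : x * (D + 1) + (v.val - x * (D + 1)) / (2 * D) * (2 * D) = lo at hb hmem hpos' hvpos
      by_cases hr : (v.val - x * (D + 1)) % (2 * D) < D
      · have h3 : (Finset.univ.filter (fun u : Fin N => F.Adj v u)).card = (lo + 2 * D) - (lo + D) := by
          apply blk_card_interval _ _ _ hb
          intro u
          constructor
          · rintro ⟨h1, h2, h3⟩
            have h4 := (hmem u).mp h2.symm
            have h5 := hpos' u h2.symm
            rcases h3 with h3 | h3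
            · exact absurd h3 hv
            · have h6 := h3.mp hr
              omega
          · rintro ⟨h1, h2⟩
            have h4 : blkLab x (D + 1) (2 * D) u.val = blkLab x (D + 1) (2 * D) v.val :=
              (hmem u).mpr (by omega)
            have h5 := hpos' u h4
            refine ⟨?_, h4.symm, Or.inr ⟨fun _ => by omega, fun _ => hr⟩⟩
            intro h
            omega
        have h4 : (Finset.univ.filter (fun u : Fin N => F.Adj v u)).card = D := by
          rw [h3]
          omega
        convert h4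
      · have h3 : (Finset.univ.filter (fun u : Fin N => F.Adj v u)).card = (lo + D) - lo := by
          apply blk_card_interval _ _ _ (by omega)
          intro u
          constructor
          · rintro ⟨h1, h2, h3⟩
            have h4 := (hmem u).mp h2.symm
            have h5 := hpos' u h2.symm
            rcases h3 with h3 | h3
            · exact absurd h3 hv
            · by_cases h6 : (u.val - x * (D + 1)) % (2 * D) < D
              · omega
              · exact absurd (h3.mpr h6) hr
          · rintro ⟨h1, h2⟩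
            have h4 : blkLab x (D + 1) (2 * D) u.val = blkLab x (D + 1) (2 * D) v.val :=
              (hmem u).mpr (by omega)
            have h5 := hpos' u h4
            refine ⟨?_, h4.symm, Or.inr ⟨fun h => absurd h hr, fun h => absurd ?_ h⟩⟩
            · intro h
              omega
            · omega
        have h4 : (Finset.univ.filter (fun u : Fin N => F.Adj v u)).card = D := by
          rw [h3]
          omega
        convert h4
  · intro u v h
    exact h.2.1
  · intro v
    by_cases hv : v.val < x * (D + 1)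
    · rw [(hsize v).1 hv]
      omega
    · rw [(hsize v).2 hv]
      omega

end H67.SW
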