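import Pool.Agent.H67.SW.Def

/-! # SW.Col : colourings of the join (about 120 lines)

`G = apexJoin H M`. A colouring with `Fin (p + 3)`: the hub gets `0`, the vertices of `X` (colour class of `H` with `a` elements, `hB.col`) get `1`, the other
vertices of `H` get `2`, the vertices `(j, _)` get `j + 3`. It is proper (`hB.col` for edges inside `H`). The neighbours of the hub with colour `1` are the `a` vertices of `X`.
`G` contains a clique with `p + 3` vertices: hub, the two ends of an edge of `H` (there is an edge: otherwise `∅` is a vertex cover, `hB.cov`, `hB.one`), and one vertex of every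
independent set (`1 ≤ M j`); so `G` is not `(p+2)`-colourable (`IsClique.card_le_of_coloring` or directly: an injective map `Fin (p+3) → Fin (p+2)`), and the chromatic number is `p + 3`. Without the hub the colours
`1, …, p + 2` suffice. -/

namespace H67.SW

open SimpleGraph Pool.Agent.H62.Decomp H67.SG

open Classical in
/-- the colouring of the join: hub `0`, `X` `1`, the rest of `H` `2`, the `j`-th independent set `j + 3` -/
private noncomputable def cl {m p : ℕ} {M : Fin p → ℕ} (X : Finset (Fin m)) : Vx m p M → ℕ
  | Sum.inl _ => 0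
  | Sum.inr (Sum.inl x) => if x ∈ X then 1 else 2
  | Sum.inr (Sum.inr z) => z.1.val + 3

private theorem cl_lt {m p : ℕ} {M : Fin p → ℕ} (X : Finset (Fin m)) (v : Vx m p M) :
    cl X v < p + 3 := by
  rcases v with _ | x | z
  · simp [cl]
  · simp only [cl]
    split_ifs
    · omega
    · omega
  · simp only [cl]
    have := z.1.isLt
    omega

private theorem cl_ne {m p : ℕ} {M : Fin p → ℕ} {H : SimpleGraph (Fin m)} {X : Finset (Fin m)}
    (hX : ∀ x y, H.Adj x y → (x ∈ X ↔ y ∉ X)) {v w : Vx m p M} (h : (apexJoin H M).Adj v w) :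
    cl X v ≠ cl X w := by
  rcases h with h | ⟨a, b, rfl, rfl, h⟩
  · intro h'
    apply h
    rcases v with _ | x | z
    · rcases w with _ | y | z'
      · rfl
      · simp only [cl] at h'
        split_ifs at h'
      · simp only [cl] at h'
        omega
    · rcases w with _ | y | z'
      · simp only [cl] at h'
        split_ifs at h'
      · rfl
      · simp only [cl] at h'
        split_ifs at h'
        · omega
        · omega
    · rcases w with _ | y | z'
      · simp only [cl] at h'
        omega
      · simp only [cl] at h'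
        split_ifs at h'
        · omega
        · omega
      · simp only [cl] at h'
        simp only [fac]
        omega
  · have h1 := hX a b h
    simp only [cl]
    by_cases ha : a ∈ X
    · have hb : b ∉ X := h1.1 ha
      rw [if_pos ha, if_neg hb]
      omega
    · have hb : b ∈ X := by
        by_contra hb
        exact ha (h1.2 hb)
      rw [if_neg ha, if_pos hb]
      omega

theorem aj_col {m p a : ℕ} (H : SimpleGraph (Fin m)) (hB : Base H a) (M : Fin p → ℕ) :
    ∃ f : (apexJoin H M).Coloring (Fin (p + 3)), (∀ x, f x = f (hub m p M) → x = hub m p M) ∧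
      ∃ i, i ≠ f (hub m p M) ∧ {x | (apexJoin H M).Adj (hub m p M) x ∧ f x = i}.ncard ≤ a := by
  classical
  obtain ⟨X, hXc, hX⟩ := hB.col
  have hval : ∀ v : Vx m p M, ∀ w : Vx m p M, (⟨cl X v, cl_lt X v⟩ : Fin (p + 3)) = ⟨cl X w, cl_lt X w⟩ →
      cl X v = cl X w := fun v w h => congrArg Fin.val h
  refine ⟨Coloring.mk (fun v => (⟨cl X v, cl_lt X v⟩ : Fin (p + 3)))
    (fun {v w} h h' => cl_ne hX h (hval v w h')), ?_, ⟨1, by omega⟩, ?_, ?_⟩
  · intro v hv
    have h1 : cl X v = cl X (hub m p M) := hval v _ hv
    rcases v with u | x | z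
    · rfl
    · simp only [cl, hub] at h1
      split_ifs at h1
    · simp only [cl, hub] at h1
      omega
  · intro h
    have h1 : (1 : ℕ) = cl X (hub m p M) := congrArg Fin.val h
    simp only [cl, hub] at h1
    omega
  · have hsub : {x : Vx m p M | (apexJoin H M).Adj (hub m p M) x ∧
        (⟨cl X x, cl_lt X x⟩ : Fin (p + 3)) = ⟨1, by omega⟩} ⊆
        (fun x : Fin m => (Sum.inr (Sum.inl x) : Vx m p M)) '' (X : Set (Fin m)) := by
      rintro v ⟨-, hv⟩
      have h1 : cl X v = 1 := congrArg Fin.val hv
      rcases v with u | x | z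
      · simp [cl] at h1
      · simp only [cl] at h1
        split_ifs at h1 with hx
        · exact ⟨x, hx, rfl⟩
        · omega
      · simp only [cl] at h1
        omega
    calc _ ≤ ((fun x : Fin m => (Sum.inr (Sum.inl x) : Vx m p M)) '' (X : Set (Fin m))).ncard :=
          Set.ncard_le_ncard hsub (Set.Finite.image _ X.finite_toSet)
      _ ≤ (X : Set (Fin m)).ncard := Set.ncard_image_le X.finite_toSet
      _ = a := by rw [Set.ncard_coe_finset, hXc]

theorem aj_not_col {m p a : ℕ} (H : SimpleGraph (Fin m)) (hB : Base H a) (M : Fin p → ℕ)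
    (hM : ∀ j, 1 ≤ M j) : ¬ (apexJoin H M).Colorable (p + 2) := by
  classical
  rintro ⟨C⟩
  have hedge : ∃ x y, H.Adj x y := by
    by_contra hne
    push Not at hne
    have h1 := hB.cov ∅ (fun x y h => absurd h (hne x y))
    have h2 := hB.one
    simp at h1
    omega
  obtain ⟨x, y, hxy⟩ := hedge
  let g : Unit ⊕ (Bool ⊕ Fin p) → Vx m p M := fun s =>
    match s with
    | Sum.inl _ => Sum.inl ()
    | Sum.inr (Sum.inl b) => Sum.inr (Sum.inl (if b then x else y))
    | Sum.inr (Sum.inr j) => Sum.inr (Sum.inr ⟨j, ⟨0, hM j⟩⟩)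
  have hadj : ∀ s t, s ≠ t → (apexJoin H M).Adj (g s) (g t) := by
    intro s t hst
    rcases s with u | b | j
    · rcases t with u' | b' | j'
      · exact absurd rfl hst
      · exact adj_of_fac (by simp [g, fac])
      · exact adj_of_fac (by simp [g, fac])
    · rcases t with u' | b' | j'
      · exact adj_of_fac (by simp [g, fac])
      · refine adj_inner.2 ?_
        rcases b with _ | _
        · rcases b' with _ | _
          · exact absurd rfl hst
          · simpa using hxy.symm
        · rcases b' with _ | _
          · simpa using hxy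
          · exact absurd rfl hst
      · exact adj_of_fac (by simp [g, fac])
    · rcases t with u' | b' | j'
      · exact adj_of_fac (by simp [g, fac])
      · exact adj_of_fac (by simp [g, fac])
      · refine adj_sigma.2 ?_
        intro h
        exact hst (by rw [show j = j' from h])
  have hinj : Function.Injective (fun s => C (g s)) := by
    intro s t hst
    by_contra hne
    exact C.valid (hadj s t hne) hst
  have h1 := Fintype.card_le_of_injective _ hinj
  simp only [Fintype.card_sum, Fintype.card_unit, Fintype.card_bool, Fintype.card_fin] at h1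
  omega

theorem aj_chrom {m p a : ℕ} (H : SimpleGraph (Fin m)) (hB : Base H a) (M : Fin p → ℕ)
    (hM : ∀ j, 1 ≤ M j) : (apexJoin H M).chromaticNumber = (p + 3 : ℕ) := by
  obtain ⟨f, -⟩ := aj_col H hB M
  have h1 : (apexJoin H M).Colorable (p + 3) := ⟨f⟩
  refine le_antisymm (chromaticNumber_le_iff_colorable.2 h1) ?_
  by_contra hlt
  have h2 : (apexJoin H M).chromaticNumber < (p + 3 : ℕ) := not_le.1 hlt
  have h3 : (apexJoin H M).chromaticNumber ≤ (p + 2 : ℕ) := by
    have h4 : ((p + 3 : ℕ) : ℕ∞) = ((p + 2 : ℕ) : ℕ∞) + 1 := by push_cast; ring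
    rw [h4] at h2
    exact Order.le_of_lt_add_one h2
  exact aj_not_col H hB M hM (chromaticNumber_le_iff_colorable.1 h3)

theorem aj_sing {m p a : ℕ} (H : SimpleGraph (Fin m)) (hB : Base H a) (M : Fin p → ℕ) :
    ((apexJoin H M).induce {x | x ≠ hub m p M}).Colorable (p + 2) := by
  classical
  obtain ⟨X, hXc, hX⟩ := hB.col
  have hpos : ∀ v : Vx m p M, v ≠ hub m p M → 1 ≤ cl X v := by
    intro v hv
    rcases v with u | x | z
    · exact absurd rfl hv
    · simp only [cl]
      split_ifs
      · omega
      · omega
    · simp only [cl]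
      omega
  refine ⟨Coloring.mk (fun v => (⟨cl X v.1 - 1, ?_⟩ : Fin (p + 2))) ?_⟩
  · have h1 := cl_lt X v.1
    have h2 := hpos v.1 v.2
    omega
  · intro v w h h'
    have h1 : cl X v.1 - 1 = cl X w.1 - 1 := congrArg Fin.val h'
    have h2 := hpos v.1 v.2
    have h3 := hpos w.1 w.2
    have h4 : (apexJoin H M).Adj v.1 w.1 := h
    exact cl_ne hX h4 (by omega)

end H67.SW
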