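import Pool.Agent.H67.SW.Def

/-! # SW.CovC : coverings and separations of an even cycle, base facts (about 250 lines)

`m ≥ 4` even. `cycleGraph_adj'`: `u`, `v` adjacent iff `(u - v).val = 1` or `(v - u).val = 1`; in terms of values: they differ by one, or they are `0` and `m - 1`.
`cover_cycle`, `t = 0`: `x` even: `inl (x / 2)` (`x / 2 < m / 2 ≤ s`), `x` odd: `inr (x / 2, 0)`. `t ≥ 1`: `r = x / (t+2)`, `u = x % (t+2)`; if `u = 0` then `inl r`, otherwise `inr (r, u - 1)`; here `r < s` because `x < m ≤ s (t+2)`. Adjacent: `u, u+1` with the same `r`, or `u = t + 1` and the next is a separator, or `m - 1` and `0`, where `0` is a separator: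
correct unless `m - 1` is a separator, i.e. `m - 1 = r (t+2)`; in this case (then `1 ≤ r < s`) change the last two values: `f (m-2) = inl r`, `f (m-1) = inr (r, 0)`: `m - 3` has `u = t ≥ 1`, so it is the piece vertex `(r-1, t-1)`. Everything is injective.
`sep_cycle`: `A = ∅`: all vertices have the same `g` (`m ≥ 1`), so `m ≤ t + 1`. If `x₀ ∈ A`: look at `x₀ + 1, …, x₀ + (m-1)` (mod `m`): every `t + 2` consecutive ones contain an element of `A`; if `m > s (t+2)` there are `s` disjoint windows among these `m - 1 ≥ s (t+2)` vertices, so `|A| ≥ s + 1`.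
`base_cycle`: `a = m / 2`, `X` = odd numbers; vertex covers as for the path (`2 i`, `2 i + 1`); connected: `cycleGraph_connected` (Mathlib) or from the path. -/

namespace H67.SW

open SimpleGraph Pool.Agent.H62.Decomp H67.SG

private theorem covC_adj {m : ℕ} (hm : 4 ≤ m) (u v : Fin m) : (cycleGraph m).Adj u v ↔
    (u.val + 1 = v.val ∨ v.val + 1 = u.val ∨ (u.val = 0 ∧ v.val + 1 = m) ∨ (v.val = 0 ∧ u.val + 1 = m)) := by
  have key : ∀ a b : Fin m, (a - b).val = 1 ↔ (b.val + 1 = a.val ∨ (a.val = 0 ∧ b.val + 1 = m)) := by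
    intro a b
    have ha := a.isLt
    have hb := b.isLt
    rw [Fin.sub_def]
    change (m - b.val + a.val) % m = 1 ↔ _
    by_cases h : b.val ≤ a.val
    · have e : m - b.val + a.val = (a.val - b.val) + m := by omega
      rw [e, Nat.add_mod_right, Nat.mod_eq_of_lt (by omega)]
      omega
    · rw [Nat.mod_eq_of_lt (by omega)]
      omega
  rw [cycleGraph_adj', key, key]
  tauto

/-- compatibility of two positions in a row of blocks of length `d` -/
private def OKn (d p q : ℕ) : Prop :=
  ¬ (p % d = 0 ∧ q % d = 0) ∧ (p % d ≠ 0 → q % d ≠ 0 → p / d = q / d ∧ (p % d + 1 = q % d ∨ q % d + 1 = p % d))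

private theorem okn_symm {d p q : ℕ} (h : OKn d p q) : OKn d q p :=
  ⟨fun h' => h.1 ⟨h'.2, h'.1⟩, fun h1 h2 => ⟨(h.2 h2 h1).1.symm, (h.2 h2 h1).2.symm⟩⟩

private theorem okn_succ {d : ℕ} (hd : 2 ≤ d) (p : ℕ) : OKn d p (p + 1) := by
  have h1 := Nat.div_add_mod p d
  have h2 := Nat.mod_lt p (show 0 < d by omega)
  by_cases h : p % d + 1 = d
  · have e : p + 1 = d * (p / d + 1) := by rw [Nat.mul_add]; omega
    have e2 : (p + 1) % d = 0 := by rw [e]; exact Nat.mul_mod_right _ _
    refine ⟨fun h' => ?_, fun _ h' => absurd e2 h'⟩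
    have := h'.1
    omega
  · have e2 : (p + 1) % d = p % d + 1 := by
      conv_lhs => rw [← h1]
      rw [Nat.add_assoc, Nat.mul_add_mod, Nat.mod_eq_of_lt (by omega)]
    have e3 : (p + 1) / d = p / d := by
      conv_lhs => rw [← h1]
      rw [Nat.add_assoc, Nat.mul_add_div (by omega), Nat.div_eq_of_lt (show p % d + 1 < d by omega), Nat.add_zero]
    refine ⟨fun h' => ?_, fun _ _ => ⟨e3.symm, Or.inl e2.symm⟩⟩
    have := h'.2
    omega

private theorem cover_of_pos {m s t : ℕ} (H : SimpleGraph (Fin m)) (h : Fin m → ℕ) (hinj : Function.Injective h)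
    (hs : ∀ x, h x < s * (t + 2)) (hq : ∀ x, h x / (t + 2) < m) (hadj : ∀ x y, H.Adj x y → OKn (t + 2) (h x) (h y)) :
    Cover H s t := by
  have hs' : ∀ x, h x / (t + 2) < s := fun x => Nat.div_lt_of_lt_mul (by rw [Nat.mul_comm]; exact hs x)
  have ht : ∀ x, h x % (t + 2) - 1 < t + 1 := by
    intro x
    have := Nat.mod_lt (h x) (show 0 < t + 2 by omega)
    omega
  let f : Fin m → Fin s ⊕ (Fin m × Fin (t + 1)) := fun x =>
    if h x % (t + 2) = 0 then Sum.inl ⟨h x / (t + 2), hs' x⟩
    else Sum.inr (⟨h x / (t + 2), hq x⟩, ⟨h x % (t + 2) - 1, ht x⟩)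
  have f0 : ∀ x, h x % (t + 2) = 0 → f x = Sum.inl ⟨h x / (t + 2), hs' x⟩ := fun x hx => if_pos hx
  have f1 : ∀ x, h x % (t + 2) ≠ 0 → f x = Sum.inr (⟨h x / (t + 2), hq x⟩, ⟨h x % (t + 2) - 1, ht x⟩) :=
    fun x hx => if_neg hx
  refine ⟨f, ?_, ?_⟩
  · intro x y hxy
    apply hinj
    have e1 := Nat.div_add_mod (h x) (t + 2)
    have e2 := Nat.div_add_mod (h y) (t + 2)
    by_cases hx : h x % (t + 2) = 0
    · by_cases hy : h y % (t + 2) = 0
      · rw [f0 x hx, f0 y hy] at hxy
        have h3 : h x / (t + 2) = h y / (t + 2) := by simpa using hxy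
        rw [← e1, ← e2, hx, hy, h3]
      · rw [f0 x hx, f1 y hy] at hxy
        exact absurd hxy (by simp)
    · by_cases hy : h y % (t + 2) = 0
      · rw [f1 x hx, f0 y hy] at hxy
        exact absurd hxy (by simp)
      · rw [f1 x hx, f1 y hy] at hxy
        have h3 : h x / (t + 2) = h y / (t + 2) ∧ h x % (t + 2) - 1 = h y % (t + 2) - 1 := by simpa using hxy
        have h4 : h x % (t + 2) = h y % (t + 2) := by omega
        rw [← e1, ← e2, h3.1, h4]
  · intro x y hxy
    have hok := hadj x y hxy
    by_cases hx : h x % (t + 2) = 0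
    · have hy : h y % (t + 2) ≠ 0 := fun hy => hok.1 ⟨hx, hy⟩
      rw [f0 x hx, f1 y hy]
      trivial
    · by_cases hy : h y % (t + 2) = 0
      · rw [f1 x hx, f0 y hy]
        trivial
      · rw [f1 x hx, f1 y hy]
        obtain ⟨h1, h2⟩ := hok.2 hx hy
        refine ⟨Fin.ext h1, ?_⟩
        change h x % (t + 2) - 1 + 1 = h y % (t + 2) - 1 ∨ h y % (t + 2) - 1 + 1 = h x % (t + 2) - 1
        omega

theorem cover_cycle (m s t : ℕ) (hm : 4 ≤ m) (he : Even m) (h : m ≤ s * (t + 2)) :
    Cover (cycleGraph m) s t := by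
  have hdiv : ∀ n, n ≤ m → n / (t + 2) < m := fun n hn =>
    Nat.lt_of_le_of_lt (Nat.div_le_div_right hn) (Nat.div_lt_self (by omega) (by omega))
  by_cases hbad : (m - 1) % (t + 2) = 0
  · -- then `t ≥ 1`
    have ht : 1 ≤ t := by
      by_contra h0
      have h0' : t = 0 := by omega
      subst h0'
      obtain ⟨k, hk⟩ := he
      omega
    have hm1 : m % (t + 2) = 1 := by
      have e := Nat.div_add_mod (m - 1) (t + 2)
      have e2 : m = (t + 2) * ((m - 1) / (t + 2)) + 1 := by omega
      rw [e2, Nat.mul_add_mod, Nat.mod_eq_of_lt (by omega)]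
    have hm3 : (m - 3) % (t + 2) ≠ 0 := by
      have e := Nat.div_add_mod (m - 1) (t + 2)
      intro h3
      have e' := Nat.div_add_mod (m - 3) (t + 2)
      have e4 : (t + 2) * ((m - 1) / (t + 2)) = (t + 2) * ((m - 3) / (t + 2)) + 2 := by omega
      have e5 : (t + 2) ∣ 2 := by
        have d1 : (t + 2) ∣ (t + 2) * ((m - 3) / (t + 2)) + 2 := by rw [← e4]; exact Dvd.intro _ rfl
        exact (Nat.dvd_add_right (Dvd.intro _ rfl)).1 d1
      have := Nat.le_of_dvd (by omega) e5
      omega
    refine cover_of_pos (cycleGraph m) (fun x => if x.val + 2 < m then x.val else x.val + 1) ?_ ?_ ?_ ?_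
    · intro x y hxy
      have := x.isLt
      have := y.isLt
      apply Fin.ext
      dsimp only at hxy
      split_ifs at hxy <;> omega
    · intro x
      have hx := x.isLt
      split_ifs with h1
      · omega
      · have hlt : m < s * (t + 2) := by
          rcases Nat.lt_or_ge m (s * (t + 2)) with h2 | h2
          · exact h2
          · exfalso
            have e : m = s * (t + 2) := by omega
            rw [e, Nat.mul_mod_left] at hm1
            omega
        omega
    · intro x
      have hx := x.isLt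
      apply hdiv
      split_ifs <;> omega
    · intro x y hxy
      rw [covC_adj hm] at hxy
      have hx := x.isLt
      have hy := y.isLt
      have step : ∀ a b : Fin m, a.val + 1 = b.val →
          OKn (t + 2) (if a.val + 2 < m then a.val else a.val + 1) (if b.val + 2 < m then b.val else b.val + 1) := by
        intro a b hab
        have hb := b.isLt
        by_cases h1 : b.val + 2 < m
        · rw [if_pos (by omega), if_pos h1, ← hab]
          exact okn_succ (by omega) _
        · by_cases h2 : a.val + 2 < m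
          · rw [if_pos h2, if_neg h1]
            have ea : a.val = m - 3 := by omega
            have eb : b.val + 1 = m - 1 := by omega
            rw [ea, eb]
            exact ⟨fun h' => hm3 h'.1, fun _ h' => absurd hbad h'⟩
          · rw [if_neg h2, if_neg h1, ← hab]
            exact okn_succ (by omega) _
      have wrap : ∀ a b : Fin m, a.val = 0 → b.val + 1 = m →
          OKn (t + 2) (if a.val + 2 < m then a.val else a.val + 1) (if b.val + 2 < m then b.val else b.val + 1) := by
        intro a b ha hb
        rw [if_pos (by omega), if_neg (by omega), ha, hb]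
        exact ⟨fun h' => by omega, fun h' => absurd (Nat.zero_mod _) h'⟩
      rcases hxy with h1 | h1 | ⟨h1, h2⟩ | ⟨h1, h2⟩
      · exact step x y h1
      · exact okn_symm (step y x h1)
      · exact wrap x y h1 h2
      · exact okn_symm (wrap y x h1 h2)
  · refine cover_of_pos (cycleGraph m) (fun x => x.val) Fin.val_injective ?_ ?_ ?_
    · intro x
      exact Nat.lt_of_lt_of_le x.isLt h
    · intro x
      exact hdiv _ x.isLt.le
    · intro x y hxy
      rw [covC_adj hm] at hxy
      have wrap : ∀ a b : Fin m, a.val = 0 → b.val + 1 = m → OKn (t + 2) a.val b.val := by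
        intro a b ha hb
        have hb' : b.val = m - 1 := by omega
        rw [ha, hb']
        exact ⟨fun h' => hbad h'.2, fun h' => absurd (Nat.zero_mod _) h'⟩
      rcases hxy with h1 | h1 | ⟨h1, h2⟩ | ⟨h1, h2⟩
      · rw [← h1]; exact okn_succ (by omega) _
      · rw [← h1]; exact okn_symm (okn_succ (by omega) _)
      · exact wrap x y h1 h2
      · exact okn_symm (wrap y x h1 h2)

/-- the predecessor on the cycle -/
private def prd {m : ℕ} (hm : 4 ≤ m) (v : Fin m) : Fin m :=
  if h : v.val = 0 then ⟨m - 1, by omega⟩ else ⟨v.val - 1, by have := v.isLt; omega⟩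

private theorem prd_zero {m : ℕ} (hm : 4 ≤ m) {v : Fin m} (h : v.val = 0) : (prd hm v).val = m - 1 := by
  unfold prd; rw [dif_pos h]

private theorem prd_pos {m : ℕ} (hm : 4 ≤ m) {v : Fin m} (h : v.val ≠ 0) : (prd hm v).val = v.val - 1 := by
  unfold prd; rw [dif_neg h]

private theorem prd_adj {m : ℕ} (hm : 4 ≤ m) (v : Fin m) : (cycleGraph m).Adj v (prd hm v) := by
  rw [covC_adj hm]
  by_cases h : v.val = 0
  · rw [prd_zero hm h]; omega
  · rw [prd_pos hm h]; omega

private theorem prd_inj {m : ℕ} (hm : 4 ≤ m) : Function.Injective (prd hm) := by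
  intro u v h
  have h' : (prd hm u).val = (prd hm v).val := by rw [h]
  have hu := u.isLt
  have hv := v.isLt
  apply Fin.ext
  by_cases h1 : u.val = 0 <;> by_cases h2 : v.val = 0
  · omega
  · rw [prd_zero hm h1, prd_pos hm h2] at h'; omega
  · rw [prd_pos hm h1, prd_zero hm h2] at h'; omega
  · rw [prd_pos hm h1, prd_pos hm h2] at h'; omega

private theorem closed_univ {m : ℕ} (hm : 4 ≤ m) (Q : Fin m → Prop) (v : Fin m) (hv : Q v)
    (hcl : ∀ u, Q u → Q (prd hm u)) : ∀ w, Q w := by
  have down : ∀ k : ℕ, ∀ u : Fin m, Q u → ∀ w : Fin m, w.val + k = u.val → Q w := by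
    intro k
    induction k with
    | zero =>
      intro u hu w hw
      have e : w = u := Fin.ext (by omega)
      rw [e]; exact hu
    | succ k ih =>
      intro u hu w hw
      refine ih (prd hm u) (hcl u hu) w ?_
      rw [prd_pos hm (by omega)]
      omega
  have h0 : Q ⟨0, by omega⟩ := down v.val v hv _ (by simp)
  have hl : Q ⟨m - 1, by omega⟩ := by
    have e : prd hm ⟨0, by omega⟩ = (⟨m - 1, by omega⟩ : Fin m) := Fin.ext (prd_zero hm rfl)
    rw [← e]
    exact hcl _ h0
  intro w
  have := w.isLt
  exact down (m - 1 - w.val) _ hl w (by simp only; omega)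

theorem sep_cycle (m s t : ℕ) (hm : 4 ≤ m) (h : Sep (cycleGraph m) s t) : m ≤ s * (t + 2) ∨ m ≤ t + 1 := by
  classical
  obtain ⟨A, g, hA, hg, hc⟩ := h
  by_cases hne : A = ∅
  · right
    have hconst : ∀ w : Fin m, g w = g ⟨0, by omega⟩ := by
      refine closed_univ hm (fun w => g w = g ⟨0, by omega⟩) ⟨0, by omega⟩ rfl ?_
      intro u hu
      have := hg u (prd hm u) (by rw [hne]; exact Finset.notMem_empty _) (by rw [hne]; exact Finset.notMem_empty _)
        (prd_adj hm u)
      rw [← this]
      exact hu
    have h1 := hc (g ⟨0, by omega⟩)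
    have e : (Finset.univ.filter (fun x : Fin m => x ∉ A ∧ g x = g ⟨0, by omega⟩)) = Finset.univ := by
      apply Finset.filter_true_of_mem
      intro x _
      exact ⟨by rw [hne]; exact Finset.notMem_empty _, hconst x⟩
    rw [e, Finset.card_univ, Fintype.card_fin] at h1
    exact h1
  · left
    obtain ⟨a₀, ha₀⟩ := Finset.nonempty_iff_ne_empty.2 hne
    -- values of `g` outside `A`
    set B : Finset (Fin m) := Aᶜ with hB
    have hBm : ∀ x, x ∈ B ↔ x ∉ A := fun x => by rw [hB, Finset.mem_compl]
    set I : Finset ℕ := B.image g with hI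
    -- every value is attained at a vertex whose predecessor is in `A`
    have hex' : ∀ i : ℕ, ∃ v : Fin m, i ∈ I → v ∉ A ∧ g v = i ∧ prd hm v ∈ A := by
      intro i
      by_cases hi : i ∈ I
      swap
      · exact ⟨a₀, fun h' => absurd h' hi⟩
      suffices hs : ∃ v, v ∉ A ∧ g v = i ∧ prd hm v ∈ A by
        obtain ⟨v, hv⟩ := hs
        exact ⟨v, fun _ => hv⟩
      obtain ⟨v, hv, hvi⟩ := Finset.mem_image.1 hi
      by_contra hno
      push Not at hno
      have := closed_univ hm (fun u => u ∉ A ∧ g u = i) v ⟨(hBm v).1 hv, hvi⟩ (by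
        intro u hu
        have h1 := hno u hu.1 hu.2
        exact ⟨h1, by rw [← hg u (prd hm u) hu.1 h1 (prd_adj hm u)]; exact hu.2⟩) a₀
      exact this.1 ha₀
    choose w hw using hex'
    have hIA : I.card ≤ A.card := by
      refine Finset.card_le_card_of_injOn (fun i => prd hm (w i)) (fun i hi => (hw i hi).2.2) ?_
      intro i hi j hj hij
      have e : w i = w j := prd_inj hm hij
      rw [← (hw i hi).2.1, ← (hw j hj).2.1, e]
    have hBc : B.card ≤ I.card * (t + 1) := by
      refine Finset.card_le_mul_card_image B (t + 1) ?_ |>.trans (by rw [Nat.mul_comm])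
      intro i _
      refine le_trans (Finset.card_le_card ?_) (hc i)
      intro x hx
      rw [Finset.mem_filter] at hx ⊢
      exact ⟨Finset.mem_univ _, (hBm x).1 hx.1, hx.2⟩
    have hsum : B.card + A.card = m := by
      rw [hB, Finset.card_compl, Fintype.card_fin]
      have := Finset.card_le_univ A
      rw [Fintype.card_fin] at this
      omega
    have h1 : I.card * (t + 1) ≤ A.card * (t + 1) := Nat.mul_le_mul_right _ hIA
    have h2 : A.card * (t + 2) ≤ s * (t + 2) := Nat.mul_le_mul_right _ hA
    have h3 : A.card * (t + 2) = A.card * (t + 1) + A.card := by ring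
    omega

theorem base_cycle (m : ℕ) (hm : 4 ≤ m) (he : Even m) : Base (cycleGraph m) (m / 2) := by
  classical
  obtain ⟨k, hk⟩ := he
  refine ⟨by omega, by omega, ?_, ?_, ?_⟩
  · obtain ⟨n, rfl⟩ : ∃ n, m = n + 1 := ⟨m - 1, by omega⟩
    exact cycleGraph_connected
  · refine ⟨Finset.univ.filter (fun x : Fin m => x.val % 2 = 1), ?_, ?_⟩
    · have e : (Finset.univ.filter (fun x : Fin m => x.val % 2 = 1)) =
          (Finset.univ : Finset (Fin (m / 2))).image (fun i => (⟨2 * i.val + 1, by have := i.isLt; omega⟩ : Fin m)) := by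
        ext x
        simp only [Finset.mem_filter, Finset.mem_univ, true_and, Finset.mem_image]
        constructor
        · intro hx
          have := x.isLt
          exact ⟨⟨x.val / 2, by omega⟩, Fin.ext (by simp only; omega)⟩
        · rintro ⟨i, rfl⟩
          simp only
          omega
      rw [e, Finset.card_image_of_injective _ (by
        intro i j hij
        have := congrArg Fin.val hij
        simp only at this
        exact Fin.ext (by omega)), Finset.card_univ, Fintype.card_fin]
    · intro x y hxy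
      rw [covC_adj hm] at hxy
      simp only [Finset.mem_filter, Finset.mem_univ, true_and]
      omega
  · intro Y hY
    have hsub : Finset.range (m / 2) ⊆ Y.image (fun y => y.val / 2) := by
      intro i hi
      rw [Finset.mem_range] at hi
      rw [Finset.mem_image]
      have hadj : (cycleGraph m).Adj ⟨2 * i, by omega⟩ ⟨2 * i + 1, by omega⟩ := by
        rw [covC_adj hm]; left; rfl
      rcases hY _ _ hadj with h1 | h1
      · exact ⟨_, h1, by simp only; omega⟩
      · exact ⟨_, h1, by simp only; omega⟩
    have h1 := Finset.card_le_card hsub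
    rw [Finset.card_range] at h1
    exact h1.trans Finset.card_image_le

end H67.SW
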