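import Pool.Agent.H67.SW.Def

/-! # SW.CovP : coverings and separations of a path, base facts (about 200 lines)

`pathGraph_adj`: `u`, `v` adjacent iff `u.val + 1 = v.val` or `v.val + 1 = u.val`.
`cover_path`: for `x : Fin m` let `r = x / (t+2)`, `u = x % (t+2)`: if `u ≤ t` then `f x = inr (r, u)`, if `u = t + 1` then `f x = inl r`; here `r < m`, and if `u = t + 1` then `r (t+2) + t + 1 ≤ m - 1 < (s+1)(t+2) - 1`, so `r < s`. Consecutive numbers: same `r` and `u`, `u + 1`, or `u = t + 1` and the next has `u = 0`.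
`sep_path`: every `t + 2` consecutive vertices contain an element of `A` (otherwise they all have the same value of `g`: `t + 2` vertices with one value). If `m ≥ (s+1)(t+2)` then the `s + 1` windows `[r (t+2), (r+1)(t+2))`, `r ≤ s`, give `s + 1` different elements of `A`.
`base_path`: `a = m / 2`, `X` = odd numbers `< m` (there are `m / 2`); vertex covers: for `i < m / 2` one of `2 i`, `2 i + 1` lies in `Y`, an injection of `Fin (m/2)` into `Y`; connected: `pathGraph_connected` (Mathlib, `Fin (n+1)`) or directly. -/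

namespace H67.SW

open SimpleGraph Pool.Agent.H62.Decomp H67.SG

private lemma cp_adj {m : ℕ} {x y : Fin m} (h : (pathGraph m).Adj x y) :
    x.val + 1 = y.val ∨ y.val + 1 = x.val := by
  simpa using pathGraph_adj.mp h

private noncomputable def cpf (m s t : ℕ) (h : m + 1 ≤ (s + 1) * (t + 2)) (x : Fin m) :
    Fin s ⊕ (Fin m × Fin (t + 1)) :=
  if hu : x.val % (t + 2) < t + 1 then
    Sum.inr (⟨x.val / (t + 2), lt_of_le_of_lt (Nat.div_le_self _ _) x.isLt⟩, ⟨x.val % (t + 2), hu⟩)
  else Sum.inl ⟨x.val / (t + 2), by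
    have h1 : x.val % (t + 2) < t + 2 := Nat.mod_lt _ (by omega)
    have h2 : x.val % (t + 2) = t + 1 := by omega
    have h3 := Nat.div_add_mod x.val (t + 2)
    have h4 := x.isLt
    by_contra hc
    push Not at hc
    have h5 : (t + 2) * s ≤ (t + 2) * (x.val / (t + 2)) := Nat.mul_le_mul_left _ hc
    have h6 : (s + 1) * (t + 2) = (t + 2) * s + (t + 2) := by ring
    omega⟩

private lemma cp_mod_succ {x y t : ℕ} (h : x + 1 = y) :
    (x % (t + 2) < t + 1 ∧ y % (t + 2) = x % (t + 2) + 1 ∧ y / (t + 2) = x / (t + 2)) ∨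
      (x % (t + 2) = t + 1 ∧ y % (t + 2) = 0 ∧ y / (t + 2) = x / (t + 2) + 1) := by
  have h1 : x % (t + 2) < t + 2 := Nat.mod_lt _ (by omega)
  have h3 := Nat.div_add_mod x (t + 2)
  rcases Nat.lt_or_ge (x % (t + 2)) (t + 1) with h2 | h2
  · left
    have h4 : y = (x % (t + 2) + 1) + (t + 2) * (x / (t + 2)) := by omega
    refine ⟨h2, ?_, ?_⟩
    · rw [h4, Nat.add_mul_mod_self_left]
      exact Nat.mod_eq_of_lt (by omega)
    · rw [h4, Nat.add_mul_div_left _ _ (by omega : 0 < t + 2)]
      rw [Nat.div_eq_of_lt (by omega : x % (t + 2) + 1 < t + 2), Nat.zero_add]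
  · right
    have h5 : x % (t + 2) = t + 1 := by omega
    have h4 : y = 0 + (t + 2) * (x / (t + 2) + 1) := by
      have : (t + 2) * (x / (t + 2) + 1) = (t + 2) * (x / (t + 2)) + (t + 2) := by ring
      omega
    refine ⟨h5, ?_, ?_⟩
    · rw [h4, Nat.add_mul_mod_self_left]
      exact Nat.mod_eq_of_lt (by omega)
    · rw [h4, Nat.add_mul_div_left _ _ (by omega : 0 < t + 2)]
      simp

private lemma cpf_ok (m s t : ℕ) (h : m + 1 ≤ (s + 1) * (t + 2)) (x y : Fin m)
    (hxy : x.val + 1 = y.val) : CovOK (cpf m s t h x) (cpf m s t h y) ∧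
      CovOK (cpf m s t h y) (cpf m s t h x) := by
  rcases cp_mod_succ (t := t) hxy with ⟨h1, h2, h3⟩ | ⟨h1, h2, h3⟩
  · by_cases hy : y.val % (t + 2) < t + 1
    · simp only [cpf, h1, hy, dite_true, CovOK]
      refine ⟨⟨Fin.ext h3.symm, Or.inl h2.symm⟩, ⟨Fin.ext h3, Or.inr h2.symm⟩⟩
    · simp only [cpf, h1, hy, dite_true, dite_false, CovOK]
      exact ⟨trivial, trivial⟩
  · have hx : ¬ x.val % (t + 2) < t + 1 := by omega
    have hy : y.val % (t + 2) < t + 1 := by omega
    simp only [cpf, hx, hy, dite_true, dite_false, CovOK]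
    exact ⟨trivial, trivial⟩

theorem cover_path (m s t : ℕ) (h : m + 1 ≤ (s + 1) * (t + 2)) : Cover (pathGraph m) s t := by
  refine ⟨cpf m s t h, ?_, ?_⟩
  · intro x y hxy
    have hx := Nat.div_add_mod x.val (t + 2)
    have hy := Nat.div_add_mod y.val (t + 2)
    have hx1 : x.val % (t + 2) < t + 2 := Nat.mod_lt _ (by omega)
    have hy1 : y.val % (t + 2) < t + 2 := Nat.mod_lt _ (by omega)
    by_cases h1 : x.val % (t + 2) < t + 1
    · by_cases h2 : y.val % (t + 2) < t + 1
      · simp only [cpf, h1, h2, dite_true, Sum.inr.injEq, Prod.mk.injEq, Fin.mk.injEq] at hxy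
        apply Fin.ext
        rw [← hx, ← hy, hxy.1, hxy.2]
      · simp [cpf, h1, h2] at hxy
    · by_cases h2 : y.val % (t + 2) < t + 1
      · simp [cpf, h1, h2] at hxy
      · simp only [cpf, h1, h2, dite_false, Sum.inl.injEq, Fin.mk.injEq] at hxy
        have h3 : x.val % (t + 2) = t + 1 := by omega
        have h4 : y.val % (t + 2) = t + 1 := by omega
        apply Fin.ext
        rw [← hx, ← hy, hxy, h3, h4]
  · intro x y hxy
    rcases cp_adj hxy with h1 | h1
    · exact (cpf_ok m s t h x y h1).1
    · exact (cpf_ok m s t h y x h1).2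

private lemma cp_window (m s t : ℕ) (hm : (s + 1) * (t + 2) ≤ m) (A : Finset (Fin m)) (g : Fin m → ℕ)
    (hg : ∀ x y, x ∉ A → y ∉ A → (pathGraph m).Adj x y → g x = g y)
    (hc : ∀ i, (Finset.univ.filter (fun x => x ∉ A ∧ g x = i)).card ≤ t + 1)
    (r : Fin (s + 1)) : ∃ x ∈ A, x.val / (t + 2) = r.val := by
  classical
  by_contra hno
  push Not at hno
  have hr : (t + 2) * r.val + (t + 2) ≤ m := by
    have h1 : (t + 2) * r.val ≤ (t + 2) * s := Nat.mul_le_mul_left _ (by have := r.isLt; omega)
    have h2 : (s + 1) * (t + 2) = (t + 2) * s + (t + 2) := by ring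
    omega
  have hdiv : ∀ u, u < t + 2 → ((t + 2) * r.val + u) / (t + 2) = r.val := by
    intro u hu
    rw [Nat.add_comm, Nat.add_mul_div_left _ _ (by omega : 0 < t + 2), Nat.div_eq_of_lt hu, Nat.zero_add]
  have hnA : ∀ u (hu : u < t + 2), (⟨(t + 2) * r.val + u, by omega⟩ : Fin m) ∉ A := by
    intro u hu hA
    exact hno _ hA (hdiv u hu)
  have hconst : ∀ u (hu : u < t + 2), g ⟨(t + 2) * r.val + u, by omega⟩ =
      g ⟨(t + 2) * r.val + 0, by omega⟩ := by
    intro u
    induction u with
    | zero => intro hu; rfl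
    | succ u ih =>
      intro hu
      rw [← ih (by omega)]
      apply (hg _ _ (hnA u (by omega)) (hnA (u + 1) hu) ?_).symm
      rw [pathGraph_adj]
      left
      simp only [Fin.val_mk]
      omega
  have hcard := hc (g ⟨(t + 2) * r.val + 0, by omega⟩)
  have hinj : ((Finset.univ : Finset (Fin (t + 2))).card) ≤
      (Finset.univ.filter (fun x => x ∉ A ∧ g x = g ⟨(t + 2) * r.val + 0, by omega⟩)).card := by
    apply Finset.card_le_card_of_injOn (fun u : Fin (t + 2) => (⟨(t + 2) * r.val + u.val, by
      have := u.isLt; omega⟩ : Fin m))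
    · intro u _
      simp only [Finset.coe_filter, Finset.mem_univ, true_and, Set.mem_ofPred_eq]
      exact ⟨hnA u.val u.isLt, hconst u.val u.isLt⟩
    · intro u _ v _ huv
      simp only [Fin.mk.injEq] at huv
      apply Fin.ext
      omega
  rw [Finset.card_univ, Fintype.card_fin] at hinj
  omega

theorem sep_path (m s t : ℕ) (h : Sep (pathGraph m) s t) : m + 1 ≤ (s + 1) * (t + 2) := by
  classical
  obtain ⟨A, g, hA, hg, hc⟩ := h
  by_contra hlt
  have hm : (s + 1) * (t + 2) ≤ m := by omega
  have hc' : ∀ i, (Finset.univ.filter (fun x => x ∉ A ∧ g x = i)).card ≤ t + 1 := by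
    intro i
    have := hc i
    convert this
  choose a ha har using cp_window m s t hm A g hg hc'
  have : (Finset.univ : Finset (Fin (s + 1))).card ≤ A.card := by
    apply Finset.card_le_card_of_injOn a
    · intro r _
      exact ha r
    · intro r _ r' _ hrr
      apply Fin.ext
      rw [← har r, ← har r', hrr]
  rw [Finset.card_univ, Fintype.card_fin] at this
  omega

theorem base_path (m : ℕ) (hm : 2 ≤ m) : Base (pathGraph m) (m / 2) := by
  classical
  refine ⟨by omega, by omega, ?_, ?_, ?_⟩
  · obtain ⟨k, rfl⟩ : ∃ k, m = k + 1 := ⟨m - 1, by omega⟩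
    exact pathGraph_connected k
  · refine ⟨Finset.univ.image (fun i : Fin (m / 2) => (⟨2 * i.val + 1, by
      have := i.isLt; omega⟩ : Fin m)), ?_, ?_⟩
    · rw [Finset.card_image_of_injective, Finset.card_univ, Fintype.card_fin]
      intro i j hij
      simp only [Fin.mk.injEq] at hij
      apply Fin.ext
      omega
    · have key : ∀ x : Fin m, x ∈ Finset.univ.image (fun i : Fin (m / 2) => (⟨2 * i.val + 1, by
          have := i.isLt; omega⟩ : Fin m)) ↔ x.val % 2 = 1 := by
        intro x
        simp only [Finset.mem_image, Finset.mem_univ, true_and]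
        constructor
        · rintro ⟨i, rfl⟩
          simp only [Fin.val_mk]
          omega
        · intro hx
          have := x.isLt
          refine ⟨⟨x.val / 2, by omega⟩, ?_⟩
          apply Fin.ext
          simp only [Fin.val_mk]
          omega
      intro x y hxy
      rw [key, key]
      rcases cp_adj hxy with h | h <;> omega
  · intro Y hY
    have hch : ∀ i : Fin (m / 2), ∃ x ∈ Y, x.val / 2 = i.val := by
      intro i
      have hi := i.isLt
      rcases hY ⟨2 * i.val, by omega⟩ ⟨2 * i.val + 1, by omega⟩ (by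
        rw [pathGraph_adj]
        left
        rfl) with h | h
      · exact ⟨_, h, by simp only [Fin.val_mk]; omega⟩
      · exact ⟨_, h, by simp only [Fin.val_mk]; omega⟩
    choose a ha har using hch
    have : (Finset.univ : Finset (Fin (m / 2))).card ≤ Y.card := by
      apply Finset.card_le_card_of_injOn a
      · intro r _
        exact ha r
      · intro r _ r' _ hrr
        apply Fin.ext
        rw [← har r, ← har r', hrr]
    rwa [Finset.card_univ, Fintype.card_fin] at this

end H67.SW
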