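import Pool.Agent.H67.SG.Def

/-! # SW.Def : definitions for MP_33a63d_co, fans, wheels and their joins with independent sets -/

namespace H67.SW

open SimpleGraph Pool.Agent.H62.Decomp H67.SG

/-- vertices of the join of one vertex, a graph on `Fin m` and `p` independent sets -/
abbrev Vx (m p : ℕ) (M : Fin p → ℕ) : Type := Unit ⊕ (Fin m ⊕ (Σ j : Fin p, Fin (M j)))

/-- the number of the factor containing a vertex: hub `0`, vertices of `H` `1`, the `j`-th independent set
`j + 2` -/
def fac {m p : ℕ} {M : Fin p → ℕ} : Vx m p M → ℕ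
  | Sum.inl _ => 0
  | Sum.inr (Sum.inl _) => 1
  | Sum.inr (Sum.inr z) => z.1.val + 2

/-- the join of one vertex (the hub), the graph `H` and `p` independent sets with `M 0, …, M (p-1)` vertices:
vertices of different factors are adjacent, two vertices of `H` are adjacent as in `H` -/
def apexJoin {m p : ℕ} (H : SimpleGraph (Fin m)) (M : Fin p → ℕ) : SimpleGraph (Vx m p M) where
  Adj x y := fac x ≠ fac y ∨ ∃ a b, x = Sum.inr (Sum.inl a) ∧ y = Sum.inr (Sum.inl b) ∧ H.Adj a b
  symm := ⟨fun x y h => by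
    rcases h with h | ⟨a, b, rfl, rfl, h⟩
    · exact Or.inl h.symm
    · exact Or.inr ⟨b, a, rfl, rfl, h.symm⟩⟩
  loopless := ⟨fun x h => by
    rcases h with h | ⟨a, b, rfl, h1, h⟩
    · exact h rfl
    · have h2 : a = b := by simpa using h1
      exact h.ne h2⟩

/-- the hub -/
def hub (m p : ℕ) (M : Fin p → ℕ) : Vx m p M := Sum.inl ()

theorem adj_of_fac {m p : ℕ} {H : SimpleGraph (Fin m)} {M : Fin p → ℕ} {x y : Vx m p M}
    (h : fac x ≠ fac y) : (apexJoin H M).Adj x y := Or.inl h

theorem adj_inner {m p : ℕ} {H : SimpleGraph (Fin m)} {M : Fin p → ℕ} {a b : Fin m} :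
    (apexJoin H M).Adj (Sum.inr (Sum.inl a)) (Sum.inr (Sum.inl b)) ↔ H.Adj a b := by
  constructor
  · rintro (h | ⟨a', b', h1, h2, h⟩)
    · exact absurd rfl h
    · have h3 : a = a' := by simpa using h1
      have h4 : b = b' := by simpa using h2
      rw [h3, h4]
      exact h
  · intro h
    exact Or.inr ⟨a, b, rfl, rfl, h⟩

theorem adj_sigma {m p : ℕ} {H : SimpleGraph (Fin m)} {M : Fin p → ℕ} {z w : Σ j : Fin p, Fin (M j)} :
    (apexJoin H M).Adj (Sum.inr (Sum.inr z)) (Sum.inr (Sum.inr w)) ↔ z.1 ≠ w.1 := by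
  constructor
  · rintro (h | ⟨a', b', h1, h2, h⟩)
    · intro h'
      exact h (by simp [fac, h'])
    · simp at h1
  · intro h
    refine Or.inl ?_
    simp only [fac, ne_eq, Nat.add_right_cancel_iff]
    exact fun h' => h (Fin.ext h')

/-- the facts about `H` which are used: connected, one colour class with `a` vertices, every vertex cover has
at least `a` vertices -/
structure Base {m : ℕ} (H : SimpleGraph (Fin m)) (a : ℕ) : Prop where
  one : 1 ≤ a
  le : 2 * a ≤ m
  conn : H.Connected
  col : ∃ X : Finset (Fin m), X.card = a ∧ ∀ x y, H.Adj x y → (x ∈ X ↔ y ∉ X)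
  cov : ∀ Y : Finset (Fin m), (∀ x y, H.Adj x y → x ∈ Y ∨ y ∈ Y) → a ≤ Y.card

/-- compatibility of two values of a covering -/
def CovOK {m s t : ℕ} (x y : Fin s ⊕ (Fin m × Fin (t + 1))) : Prop :=
  match x, y with
  | Sum.inl _, Sum.inl _ => False
  | Sum.inr x, Sum.inr y => x.1 = y.1 ∧ (x.2.val + 1 = y.2.val ∨ y.2.val + 1 = x.2.val)
  | _, _ => True

/-- `H` can be divided into at most `s` pairwise non-adjacent separators and pieces, each piece being contained in a
path with `t + 1` vertices -/
def Cover {m : ℕ} (H : SimpleGraph (Fin m)) (s t : ℕ) : Prop :=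
  ∃ f : Fin m → Fin s ⊕ (Fin m × Fin (t + 1)), Function.Injective f ∧ ∀ x y, H.Adj x y → CovOK (f x) (f y)

open Classical in
/-- after deletion of at most `s` vertices of `H` the others can be divided into sets of at most `t + 1` vertices
without edges between different sets -/
def Sep {m : ℕ} (H : SimpleGraph (Fin m)) (s t : ℕ) : Prop :=
  ∃ (A : Finset (Fin m)) (g : Fin m → ℕ), A.card ≤ s ∧
    (∀ x y, x ∉ A → y ∉ A → H.Adj x y → g x = g y) ∧
    ∀ i, (Finset.univ.filter (fun x => x ∉ A ∧ g x = i)).card ≤ t + 1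

open Classical in
/-- size of the block with the label of `x` -/
noncomputable def blk {W : Type} [Fintype W] (b : W → ℕ) (x : W) : ℕ :=
  (Finset.univ.filter (fun y => b y = b x)).card

/-- the set `J` consists of pairwise non-adjacent vertices different from `c` and not adjacent to `c` -/
def Far {n : ℕ} (T : SimpleGraph (Fin n)) (c : Fin n) (J : Finset (Fin n)) : Prop :=
  (∀ z ∈ J, z ≠ c ∧ ¬ T.Adj c z) ∧ ∀ y ∈ J, ∀ z ∈ J, ¬ T.Adj y z

end H67.SW
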