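import Pool.Agent.H67.SW.Def
import Pool.Agent.H67.SG.Pack

/-! # SW.EmbAl : a near-star avoids a part only if all red degrees are large (about 150 lines)

`x₀ ∈ H` with `dg C x₀ H < d + J.card`; `R` = red neighbours of `x₀` in `H`, `|R| ≤ d - 1 + |J|`. Choose `H' ⊆ H` with `|H'| = n`, `x₀ ∈ H'` and `|R ∩ H'| ≤ |J|`: remove `min |R| (d-1)` elements of `R` and then further elements different from `x₀` until `n` are left (`|H| ≥ n - 1 + d`, `n ≥ 1`). Choose a bijection
`e : Fin n → H'` (injective map), `p = e⁻¹ x₀`, `C' = C.comap e`: all degrees `≤ ρ`, `deg C' p ≤ |J|`; `J' ⊆ J` with `|J'| = deg C' p`. `pack ρ` for `T`, `C'`, `c`, `p`, `J'`: `c` has maximal degree: for `x ≠ c` one has `deg x + deg c ≤ n` (`deg_add_deg`), so `deg x < K ≤ deg c` when `n ≥ 2 K`; the elements `z ∈ J'`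
are different from `c`, so `deg z < K` and `16 (ρ+1) deg z ≤ n` for `n ≥ 16 (ρ+1) K`. The permutation `φ` gives `x ↦ e (φ x)`, an embedding of `T` in `Cᶜ` (compare `emb_red` in `SG/Emb.lean`, private; copy what is useful). -/

namespace H67.SW

open SimpleGraph Pool.Agent.H62.Decomp H67.SG

/-- positions: an injective map of `Fin n` into `H` through a given vertex -/
private theorem far_pos {n : ℕ} (hn : 1 ≤ n) {W : Type} (H : Finset W) (hH : n ≤ H.card) {x0 : W}
    (hx0 : x0 ∈ H) : ∃ (e : Fin n → W) (p : Fin n), Function.Injective e ∧ (∀ i, e i ∈ H) ∧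
      e p = x0 := by
  classical
  have hcard : n - 1 ≤ (H.erase x0).card := by
    rw [Finset.card_erase_of_mem hx0]
    omega
  obtain ⟨H', hH', hc⟩ := Finset.exists_subset_card_eq hcard
  have hx : x0 ∉ H' := fun h => (Finset.mem_erase.1 (hH' h)).1 rfl
  have hc' : (insert x0 H').card = n := by
    rw [Finset.card_insert_of_notMem hx, hc]
    omega
  let e := (Finset.equivFinOfCardEq hc').symm
  refine ⟨fun i => (e i).1, e.symm ⟨x0, Finset.mem_insert_self _ _⟩, ?_, ?_, ?_⟩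
  · intro i j hij
    exact e.injective (Subtype.ext hij)
  · intro i
    rcases Finset.mem_insert.1 (e i).2 with h | h
    · change (e i).1 ∈ H
      rw [h]
      exact hx0
    · exact (Finset.mem_erase.1 (hH' h)).2
  · simp

private theorem far_deg {n : ℕ} {W : Type} (C : SimpleGraph W) (H : Finset W) (e : Fin n → W)
    (he : Function.Injective e) (heH : ∀ i, e i ∈ H) (a : Fin n) :
    deg (C.comap e) a ≤ dg C (e a) H := by
  classical
  unfold deg dg
  refine Finset.card_le_card_of_injOn e ?_ (fun i _ j _ h => he h)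
  intro y hy
  rw [Finset.mem_coe, Finset.mem_filter] at hy
  rw [Finset.mem_coe, Finset.mem_filter]
  exact ⟨heH y, hy.2⟩

/-- remove at most `d - 1` red neighbours of `x0` -/
private theorem far_sub {W : Type} (C : SimpleGraph W) (H : Finset W) (x0 : W) (hx0 : x0 ∈ H)
    (n d k : ℕ) (hd : 1 ≤ d) (hH : n + d ≤ H.card + 1) (hk : dg C x0 H < d + k) :
    ∃ H2 ⊆ H, x0 ∈ H2 ∧ n ≤ H2.card ∧ dg C x0 H2 ≤ k := by
  classical
  obtain ⟨R, hR, hRm⟩ : ∃ R : Finset W, R.card = dg C x0 H ∧ ∀ y, y ∈ R ↔ y ∈ H ∧ C.Adj x0 y := by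
    refine ⟨H.filter (fun y => C.Adj x0 y), ?_, fun y => by simp⟩
    unfold dg
    congr
  obtain ⟨R', hR', hc⟩ := Finset.exists_subset_card_eq (Nat.min_le_left R.card (d - 1))
  have hR'H : R' ⊆ H := fun y hy => ((hRm y).1 (hR' hy)).1
  refine ⟨H \ R', Finset.sdiff_subset, ?_, ?_, ?_⟩
  · refine Finset.mem_sdiff.2 ⟨hx0, fun h => ?_⟩
    exact C.irrefl ((hRm x0).1 (hR' h)).2
  · rw [Finset.card_sdiff_of_subset hR'H]
    have := Nat.min_le_right R.card (d - 1)
    omega
  · have h1 : dg C x0 (H \ R') ≤ (R \ R').card := by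
      unfold dg
      apply Finset.card_le_card
      intro y hy
      rw [Finset.mem_filter, Finset.mem_sdiff] at hy
      exact Finset.mem_sdiff.2 ⟨(hRm y).2 ⟨hy.1.1, hy.2⟩, hy.1.2⟩
    rw [Finset.card_sdiff_of_subset hR'] at h1
    omega

theorem emb_far (ρ K : ℕ) : ∃ n₀ : ℕ, ∀ n : ℕ, n₀ ≤ n → ∀ T : SimpleGraph (Fin n), T.IsTree →
    ∀ c : Fin n, n < deg T c + K → ∀ J : Finset (Fin n), Far T c J →
    ∀ (W : Type) (C : SimpleGraph W) (H : Finset W) (d : ℕ), 1 ≤ d → n + d ≤ H.card + 1 →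
      (∀ x ∈ H, dg C x H ≤ ρ) → (∃ x ∈ H, dg C x H < d + J.card) → T ⊑ Cᶜ := by
  obtain ⟨n1, hpack⟩ := pack ρ
  refine ⟨n1 + 2 * K + 16 * (ρ + 1) * K + 1, ?_⟩
  intro n hn T hT c hc J hJ W C H d hd hH hρ ⟨x0, hx0, hx0d⟩
  obtain ⟨H2, hH2, hx2, hn2, hd2⟩ := far_sub C H x0 hx0 n d J.card hd hH hx0d
  obtain ⟨e, p, he, heH, hp⟩ := far_pos (by omega) H2 hn2 hx2
  have hdp := far_deg C H2 e he heH p
  rw [hp] at hdp
  have hsmall : ∀ x, x ≠ c → deg T x < K := by
    intro x hx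
    have := deg_add_deg T hT x c hx
    omega
  obtain ⟨J', hJ', hJc⟩ := Finset.exists_subset_card_eq (hdp.trans hd2)
  obtain ⟨φ, hφ⟩ := hpack n (by omega) T (C.comap e) hT
    (fun a => (far_deg C H2 e he heH a).trans ((dg_mono C _ hH2).trans (hρ _ (hH2 (heH a)))))
    c (by
      intro x
      by_cases hx : x = c
      · rw [hx]
      · have := hsmall x hx
        omega) p J' (fun z hz => hJ.1 z (hJ' hz))
    (fun y hy z hz => hJ.2 y (hJ' hy) z (hJ' hz)) (by
      intro z hz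
      have h1 := hsmall z (hJ.1 z (hJ' hz)).1
      have h2 : 16 * (ρ + 1) * deg T z ≤ 16 * (ρ + 1) * K := Nat.mul_le_mul_left _ h1.le
      omega) hJc
  refine contained_of_map (fun x => e (φ x)) (he.comp φ.injective) ?_
  intro x y hxy
  rw [SimpleGraph.compl_adj]
  refine ⟨fun h => ?_, hφ x y hxy⟩
  exact hxy.ne (φ.injective (he h))

end H67.SW
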