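import Pool.Agent.H67.SW.Col
import Pool.Agent.H67.SG.StarMem

/-! # SW.Mem : a vertex of degree at least a, or a copy of H, gives a member of B(G) (about 120 lines)

`k = p + 3 = χ(G)` (`aj_chrom`). First alternative: `star_member` with the colouring of `aj_col`. Second: the colouring of the proof of `aj_col` (hub, `X`, `H \ X`, independent sets; it is surjective since `χ(G) = p + 3`, or because all classes are nonempty) and the two
classes of `H`: the graph induced by `{x | f x = 1 ∨ f x = 2}` is `H` (the vertices are exactly the `Sum.inr (Sum.inl a)`), so it is contained in `F`. For `aj_mem` one needs the colouring itself: restate it (copy of the proof of `aj_col`), or: take ANY colouring `f` of `G` with `Fin (p+3)`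
(surjective): the hub, the `p` independent sets need `p + 1` colours not used on `H`, so `H` has at most `2` colours, exactly two (it has an edge), and a colour used on `H` is used nowhere else. The colouring has to be transported from `Fin (p+3)` to `Fin G.chromaticNumber.toNat` (see `star_member` for how). -/

namespace H67.SW

open SimpleGraph Pool.Agent.H62.Decomp H67.SG

private theorem mem_of_col {V : Type} [Fintype V] (G : SimpleGraph V) (k : ℕ)
    (hk : G.chromaticNumber = k) (f : G.Coloring (Fin k)) (i j : Fin k) (hij : i ≠ j)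
    {W : Type} (C : SimpleGraph W) (h : G.induce {x | f x = i ∨ f x = j} ⊑ C) :
    ContainsMember G C := by
  classical
  have hk' : G.chromaticNumber.toNat = k := by rw [hk]; rfl
  subst hk'
  have hsurj : Function.Surjective f := by
    have h2 := (card_le_chromaticNumber_iff_forall_surjective (G := G)
      (α := Fin G.chromaticNumber.toNat)).mp
    exact h2 (by rw [Fintype.card_fin, ← hk]) f
  exact ⟨f, i, j, hsurj, hij, h⟩

/-- the colour of a vertex, as a natural number -/
private def colN {m p : ℕ} {M : Fin p → ℕ} (X : Finset (Fin m)) : Vx m p M → ℕ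
  | Sum.inl _ => 0
  | Sum.inr (Sum.inl a) => if a ∈ X then 1 else 2
  | Sum.inr (Sum.inr z) => z.1.val + 3

private theorem colN_lt {m p : ℕ} {M : Fin p → ℕ} (X : Finset (Fin m)) (x : Vx m p M) :
    colN X x < p + 3 := by
  rcases x with x | x | z
  · simp [colN]
  · simp only [colN]
    split_ifs <;> omega
  · have := z.1.isLt
    simp only [colN]
    omega

private theorem colN_inner {m p : ℕ} {M : Fin p → ℕ} (X : Finset (Fin m)) (x : Vx m p M)
    (h : colN X x = 1 ∨ colN X x = 2) : ∃ a, x = Sum.inr (Sum.inl a) := by
  rcases x with x | x | z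
  · simp [colN] at h
  · exact ⟨x, rfl⟩
  · simp only [colN] at h
    omega

private theorem colN_ne {m p : ℕ} (H : SimpleGraph (Fin m)) (M : Fin p → ℕ) (X : Finset (Fin m))
    (hX : ∀ x y, H.Adj x y → (x ∈ X ↔ y ∉ X)) {x y : Vx m p M} (h : (apexJoin H M).Adj x y) :
    colN X x ≠ colN X y := by
  rcases h with h | ⟨a, b, rfl, rfl, h⟩
  · intro he
    apply h
    rcases x with x | x | z <;> rcases y with y | y | w <;> simp only [colN, fac] at he ⊢ <;>
      first
        | omega
        | (split_ifs at he <;> omega)
  · have h1 := hX a b h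
    simp only [colN]
    by_cases ha : a ∈ X
    · have hb := h1.1 ha
      simp [ha, hb]
    · have hb : b ∈ X := by
        by_contra hb
        exact ha (h1.2 hb)
      simp [ha, hb]

theorem aj_mem {m p a : ℕ} (H : SimpleGraph (Fin m)) (hB : Base H a) (M : Fin p → ℕ) (hM : ∀ j, 1 ≤ M j)
    {W : Type} [Fintype W] (F : SimpleGraph W) (hW : Fintype.card (Vx m p M) ≤ Fintype.card W)
    (h : (∃ x, a ≤ deg F x) ∨ H ⊑ F) : ContainsMember (apexJoin H M) F := by
  classical
  rcases h with ⟨x₀, hx₀⟩ | h
  · obtain ⟨f, hf, i, hi, hN⟩ := aj_col H hB M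
    exact star_member (apexJoin H M) (p + 3) (aj_chrom H hB M hM) f (hub m p M) hf i hi F x₀
      (hN.trans hx₀) hW
  · obtain ⟨X, -, hX⟩ := hB.col
    let f : (apexJoin H M).Coloring (Fin (p + 3)) :=
      Coloring.mk (fun x => (⟨colN X x, colN_lt X x⟩ : Fin (p + 3)))
        (fun {x y} hxy he => colN_ne H M X hX hxy (congrArg Fin.val he))
    have hfv : ∀ x, ((f x : Fin (p + 3)) : ℕ) = colN X x := fun x => rfl
    refine mem_of_col (apexJoin H M) (p + 3) (aj_chrom H hB M hM) f ⟨1, by omega⟩ ⟨2, by omega⟩
      (by simp) F ?_
    refine IsContained.trans ?_ h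
    have hin : ∀ x : {x | f x = ⟨1, by omega⟩ ∨ f x = ⟨2, by omega⟩}, ∃ a, x.1 = Sum.inr (Sum.inl a) := by
      intro x
      refine colN_inner X x.1 ?_
      rcases x.2 with hx | hx
      · left
        rw [← hfv, hx]
      · right
        rw [← hfv, hx]
    choose g hg using hin
    refine contained_of_map g ?_ ?_
    · intro x y hxy
      apply Subtype.ext
      rw [hg x, hg y, hxy]
    · intro x y hxy
      have h1 : (apexJoin H M).Adj x.1 y.1 := hxy
      rw [hg x, hg y] at h1
      exact adj_inner.1 h1

end H67.SW
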