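import Pool.Agent.H67.SW.Part
import Pool.Agent.H67.SW.Mem
import Pool.Agent.H67.SG.Ram
import Pool.Agent.H67.SG.Join
import Pool.Agent.H67.SG.GMin

/-! # SW.Eq : class Ramsey number and partRamsey of the join (about 150 lines)

`G = apexJoin H M`, `d = p + 1`. `aj_low`: `lt_part` and `aj_part`. `aj_ge`: `aj_low` for the empty graph `⊥` on `Fin (n-1)` (`n ≥ 1`, `T` has a vertex): degrees `0 < a`, `H ⋢ ⊥` (`H` has an edge since `∅` is not a vertex cover), `T ⋢` anything on `n - 1` vertices.
`aj_eq`: for `N ≥ card V` and a graph `C` on `Fin N`: `ContainsMember G C → ContainsPart G (p+1) C` (general fact: `s` = union of the two classes, the other vertices are coloured by the other `k - 2 = p + 1` colours; it is proved as a private lemma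
`iff_mem_part` in `SG/Iff.lean`, copy it), `ContainsPart G (p+1) C → ContainsMember G C` by `aj_part` and `aj_mem`. Both numbers are `≥ n ≥ card V` (`class_lower`, `aj_ge`), and the sets of `N ≥ card V` in the two definitions agree, so the infima are equal (`part_spec`/`class_le`, `class_spec`/`part_le`).
`aj_class_le`: `class_le` with `N = n - 1 + a`: a graph `C` on `Fin N`: if some degree is `≥ a` then `aj_mem` (`N ≥ card V` because `n ≥ card V`, `a ≥ 1`); otherwise every vertex has at least `N - 1 - (a - 1) = n - 1` neighbours in `Cᶜ`: `greedy_min`. -/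

namespace H67.SW

open SimpleGraph Pool.Agent.H62.Decomp H67.SG

private theorem iff_mem_part {V : Type} [Fintype V] (G : SimpleGraph V) (k : ℕ)
    (hk : G.chromaticNumber = k) {W : Type} (C : SimpleGraph W) (h : ContainsMember G C) : ContainsPart G (k - 2) C := by
  classical
  obtain ⟨c, i, j, -, hij, hC⟩ := h
  refine ⟨{x | c x = i ∨ c x = j}, ?_, hC⟩
  have c' : (G.induce {x | c x = i ∨ c x = j}ᶜ).Coloring {l : Fin G.chromaticNumber.toNat // l ≠ i ∧ l ≠ j} :=
    ⟨fun x => ⟨c x.1, fun h => x.2 (Or.inl h), fun h => x.2 (Or.inr h)⟩, fun {a b} hab h => by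
      exact c.valid (show G.Adj a.1 b.1 from hab) (congrArg (fun u : {l : Fin G.chromaticNumber.toNat // l ≠ i ∧ l ≠ j} => u.1) h)⟩
  have h1 := c'.colorable
  have h2 : Fintype.card {l : Fin G.chromaticNumber.toNat // l ≠ i ∧ l ≠ j} = k - 2 := by
    have h3 : (Finset.univ.filter fun l : Fin G.chromaticNumber.toNat => l ≠ i ∧ l ≠ j) = (Finset.univ.erase i).erase j := by
      ext l
      simp only [Finset.mem_filter, Finset.mem_univ, true_and, Finset.mem_erase, and_true]
      exact and_comm
    rw [Fintype.card_subtype, h3, Finset.card_erase_of_mem, Finset.card_erase_of_mem (Finset.mem_univ _), Finset.card_univ,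
      Fintype.card_fin, hk, ENat.toNat_natCast]
    · omega
    · exact Finset.mem_erase.2 ⟨hij.symm, Finset.mem_univ _⟩
  rw [h2] at h1
  exact h1

private theorem eq_edge {m a : ℕ} (H : SimpleGraph (Fin m)) (hB : Base H a) : ∃ x y, H.Adj x y := by
  by_contra h
  have h1 := hB.cov ∅ fun x y hxy => absurd ⟨x, y, hxy⟩ h
  have h2 := hB.one
  rw [Finset.card_empty] at h1
  omega

private theorem eq_deg_bot {W : Type} [Fintype W] (F : SimpleGraph W) (hF : ∀ x y, ¬ F.Adj x y) (x : W) :
    deg F x = 0 := by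
  classical
  unfold deg dg
  refine Nat.eq_zero_of_not_pos fun h => ?_
  obtain ⟨y, hy⟩ := Finset.card_pos.1 h
  exact hF x y (Finset.mem_filter.1 hy).2

theorem aj_low {m p a : ℕ} (H : SimpleGraph (Fin m)) (hB : Base H a) (M : Fin p → ℕ) (hM : ∀ j, a ≤ M j)
    {n N : ℕ} (T : SimpleGraph (Fin n)) (F : SimpleGraph (Fin N)) (h1 : ∀ x, deg F x < a) (h2 : ¬ H ⊑ F)
    (h3 : ¬ T ⊑ Fᶜ) : N < partRamsey (apexJoin H M) (p + 1) T := by
  have h := lt_part (apexJoin H M) (p + 1) T F (fun h => (aj_part H hB M hM F h).elim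
    (fun h4 => h4.elim fun x hx => absurd (h1 x) (not_lt.2 hx)) h2) h3
  rwa [Fintype.card_fin] at h

theorem aj_ge {m p a : ℕ} (H : SimpleGraph (Fin m)) (hB : Base H a) (M : Fin p → ℕ) (hM : ∀ j, a ≤ M j)
    {n : ℕ} (T : SimpleGraph (Fin n)) (hT : T.IsTree) : n ≤ partRamsey (apexJoin H M) (p + 1) T := by
  have h := aj_low (N := n - 1) H hB M hM T (⊥ : SimpleGraph (Fin (n - 1)))
    (fun x => by
      rw [eq_deg_bot _ (fun _ _ h => h) x]
      exact hB.one)
    (by
      rintro ⟨φ⟩
      obtain ⟨x, y, hxy⟩ := eq_edge H hB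
      exact φ.toHom.map_adj hxy)
    (by
      rintro ⟨φ⟩
      have h7 := Fintype.card_le_of_injective φ φ.injective
      rw [Fintype.card_fin, Fintype.card_fin] at h7
      obtain ⟨v⟩ := hT.connected.nonempty
      have := v.2
      omega)
  omega

theorem aj_eq {m p a : ℕ} (H : SimpleGraph (Fin m)) (hB : Base H a) (M : Fin p → ℕ) (hM : ∀ j, a ≤ M j)
    {n : ℕ} (T : SimpleGraph (Fin n)) (hT : T.IsTree) (hn : Fintype.card (Vx m p M) ≤ n) :
    classRamsey (apexJoin H M) T = partRamsey (apexJoin H M) (p + 1) T := by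
  have hM1 : ∀ j, 1 ≤ M j := fun j => hB.one.trans (hM j)
  have hk := aj_chrom H hB M hM1
  have hlow := aj_ge H hB M hM T hT
  have hk2 : 2 ≤ (apexJoin H M).chromaticNumber.toNat := by
    rw [hk, ENat.toNat_natCast]
    omega
  apply le_antisymm
  · refine class_le (apexJoin H M) T _ fun C => ?_
    rcases part_spec (apexJoin H M) (p + 1) T C (by rw [Fintype.card_fin]) with h | h
    · refine Or.inl (aj_mem H hB M hM1 C ?_ (aj_part H hB M hM C h))
      rw [Fintype.card_fin]
      exact hn.trans hlow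
    · exact Or.inr h
  · refine part_le (apexJoin H M) (p + 1) T _ fun C => ?_
    rcases class_spec (apexJoin H M) hk2 T C (by rw [Fintype.card_fin]) with h | h
    · have h1 := iff_mem_part (apexJoin H M) (p + 3) hk C h
      have h2 : p + 3 - 2 = p + 1 := by omega
      rw [h2] at h1
      exact Or.inl h1
    · exact Or.inr h

theorem aj_class_le {m p a : ℕ} (H : SimpleGraph (Fin m)) (hB : Base H a) (M : Fin p → ℕ)
    (hM : ∀ j, 1 ≤ M j) {n : ℕ} (T : SimpleGraph (Fin n)) (hT : T.IsTree)
    (hn : Fintype.card (Vx m p M) ≤ n) : classRamsey (apexJoin H M) T ≤ n - 1 + a := by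
  classical
  have ha := hB.one
  refine class_le (apexJoin H M) T (n - 1 + a) fun C => ?_
  by_cases hd : ∃ x₀, a ≤ deg C x₀
  · refine Or.inl (aj_mem H hB M hM C ?_ (Or.inl hd))
    rw [Fintype.card_fin]
    omega
  · right
    refine greedy_min T hT Cᶜ Finset.univ ⟨⟨0, by omega⟩, Finset.mem_univ _⟩ fun x _ => ?_
    have h3 : deg C x < a := not_le.1 fun h' => hd ⟨x, h'⟩
    unfold deg at h3
    have h4 := dg_compl_of_mem C x Finset.univ (Finset.mem_univ _)
    have h5 := dg_add_nd C x Finset.univ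
    rw [Finset.card_univ, Fintype.card_fin] at h5
    omega

end H67.SW
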