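import Pool.Agent.H67.SW.Avoid
import Pool.Agent.H67.SW.Eq

/-! # SW.Fails : the formula fails if the cliques are better (about 150 lines)

`G = apexJoin H M`, `k = p + 3`, `q = p + 2`. Suppose the formula holds for all `n ≥ n₀`. Let `P = Π_i (d i + 1)` and `n = 2 + t P` with `t` so large that `n ≥ n₀`, `n ≥ card V`. `T` = star on `Fin n` (`SimpleGraph.starGraph`, `isTree_starGraph`), `deg = n - 1` at the centre. `C` on `Σ i, Fin (n - 1 + d i)` as in `join_avoid`. It has `q (n-1) + Σ d i` vertices. No `G` (`join_avoid`).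
No blue `T`: `n - 1 + d i = t P + (d i + 1)` is divisible by `d i + 1`, so all cliques are full, every vertex has exactly `(n - 1 + d i) - (d i + 1) = n - 2` blue neighbours (in its own part), but the image of the centre of the star needs `n - 1`. So `lt_ramsey`: `q (n-1) + Σ d i < ramsey G T = (k-2)(n-1) + classRamsey G T ≤ (q-1)(n-1) + (n - 1 + a)` (`aj_class_le`), hence
`Σ d i < a`, contradiction to `hsum`. (`(apexJoin H M).chromaticNumber.toNat = p + 3` by `aj_chrom`.) -/

namespace H67.SW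

open SimpleGraph Pool.Agent.H62.Decomp H67.SG

/-- the blue star does not occur: all cliques inside a part are full -/
private theorem fails_star {q : ℕ} (d : Fin q → ℕ) (n : ℕ)
    (hdvd : ∀ i, (d i + 1) ∣ (n - 1 + d i)) (C : SimpleGraph (Σ i : Fin q, Fin (n - 1 + d i)))
    (hC : ∀ x y, C.Adj x y ↔ x.1 ≠ y.1 ∨
      (x ≠ y ∧ x.1 = y.1 ∧ x.2.val / (d x.1 + 1) = y.2.val / (d y.1 + 1))) (r : Fin n) :
    ¬ SimpleGraph.starGraph r ⊑ Cᶜ := by
  classical
  rintro ⟨φ⟩
  set i := (φ r).1 with hi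
  obtain ⟨t, ht⟩ := hdvd i
  set b := (φ r).2.val / (d i + 1) with hb
  have hD : 0 < d i + 1 := Nat.succ_pos _
  have hbt : b < t := by
    rw [hb]
    refine (Nat.div_lt_iff_lt_mul hD).2 ?_
    have h1 := (φ r).2.isLt
    rw [mul_comm, ← ht]
    exact h1
  -- the block of the centre
  have hlt : ∀ s : Fin (d i + 1), b * (d i + 1) + s.val < n - 1 + d i := by
    intro s
    have h1 := s.isLt
    have h2 : (b + 1) * (d i + 1) ≤ t * (d i + 1) := Nat.mul_le_mul_right _ hbt
    rw [ht, mul_comm (d i + 1) t]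
    have h3 : (b + 1) * (d i + 1) = b * (d i + 1) + (d i + 1) := by ring
    omega
  let A : Finset (Fin (n - 1 + d i)) := Finset.univ.filter (fun z => z.val / (d i + 1) = b)
  have hA : d i + 1 ≤ A.card := by
    have h1 : (Finset.univ.image (fun s : Fin (d i + 1) =>
        (⟨b * (d i + 1) + s.val, hlt s⟩ : Fin (n - 1 + d i)))).card = d i + 1 := by
      rw [Finset.card_image_of_injective, Finset.card_univ, Fintype.card_fin]
      intro s s' h
      have h2 : b * (d i + 1) + s.val = b * (d i + 1) + s'.val := congrArg Fin.val h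
      exact Fin.ext (by omega)
    rw [← h1]
    refine Finset.card_le_card fun z hz => ?_
    obtain ⟨s, -, rfl⟩ := Finset.mem_image.1 hz
    refine Finset.mem_filter.2 ⟨Finset.mem_univ _, ?_⟩
    show (b * (d i + 1) + s.val) / (d i + 1) = b
    rw [mul_comm, Nat.mul_add_div hD, Nat.div_eq_of_lt s.isLt, add_zero]
  -- the other vertices
  let B : Finset (Σ i : Fin q, Fin (n - 1 + d i)) := Aᶜ.map ⟨fun z => ⟨i, z⟩, fun z z' h => by
    simpa using h⟩
  have hB : B.card + (d i + 1) ≤ n - 1 + d i := by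
    rw [Finset.card_map, Finset.card_compl, Fintype.card_fin]
    have h1 : A.card ≤ n - 1 + d i := by
      have := Finset.card_le_univ A
      rwa [Fintype.card_fin] at this
    omega
  have hsub : (Finset.univ.erase r).image φ ⊆ B := by
    intro z hz
    obtain ⟨y, hy, rfl⟩ := Finset.mem_image.1 hz
    have hy1 : y ≠ r := (Finset.mem_erase.1 hy).1
    have h1 : (Cᶜ).Adj (φ r) (φ y) :=
      φ.toHom.map_adj (SimpleGraph.starGraph_center_adj (Ne.symm hy1))
    rw [SimpleGraph.compl_adj, hC] at h1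
    obtain ⟨h2, h3⟩ := h1
    have h4 : (φ r).1 = (φ y).1 := by
      by_contra h
      exact h3 (Or.inl h)
    have h5 : (φ y).2.val / (d (φ y).1 + 1) ≠ b := by
      intro h
      exact h3 (Or.inr ⟨h2, h4, h.symm⟩)
    rcases hw : φ y with ⟨j, w⟩
    rw [hw] at h4 h5
    have h6 : j = i := h4.symm
    subst h6
    refine Finset.mem_map.2 ⟨w, ?_, rfl⟩
    rw [Finset.mem_compl]
    intro h7
    exact h5 (Finset.mem_filter.1 h7).2
  have h1 := Finset.card_le_card hsub
  have h2 : ((Finset.univ.erase r).image φ).card = n - 1 := by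
    have hinj : Function.Injective (⇑φ) := fun x y h => φ.injective h
    rw [Finset.card_image_of_injective _ hinj,
      Finset.card_erase_of_mem (Finset.mem_univ _), Finset.card_univ, Fintype.card_fin]
  omega

theorem fails {m p a : ℕ} (H : SimpleGraph (Fin m)) (hB : Base H a) (M : Fin p → ℕ)
    (hM : ∀ j, (p + 2) * m ≤ M j) (d : Fin (p + 2) → ℕ) (hd : ∀ i, d i + 1 ≤ a)
    (hsep : ∀ i j, i ≠ j → ¬ Sep H (d i) (d j)) (hsum : a ≤ ∑ i, d i) :
    ¬ SatisfiesFormula (apexJoin H M) := by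
  rintro ⟨n₀, h⟩
  have hm : 1 ≤ m := by
    have h1 := hB.one
    have h2 := hB.le
    omega
  have hM1 : ∀ j, 1 ≤ M j := fun j => le_trans (Nat.mul_pos (by omega) hm) (hM j)
  set P : ℕ := ∏ i, (d i + 1) with hP
  have hP0 : 1 ≤ P := Finset.prod_pos fun i _ => Nat.succ_pos _
  set t : ℕ := n₀ + Fintype.card (Vx m p M) with ht
  set n : ℕ := 2 + t * P with hn
  have htP : t ≤ t * P := Nat.le_mul_of_pos_right _ hP0
  have hnn : n₀ ≤ n := by omega
  have hnV : Fintype.card (Vx m p M) ≤ n := by omega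
  have hdvd : ∀ i, (d i + 1) ∣ (n - 1 + d i) := by
    intro i
    have h1 : n - 1 + d i = t * P + (d i + 1) := by omega
    rw [h1]
    refine dvd_add (Dvd.dvd.mul_left ?_ _) dvd_rfl
    exact Finset.dvd_prod_of_mem _ (Finset.mem_univ i)
  let C : SimpleGraph (Σ i : Fin (p + 2), Fin (n - 1 + d i)) :=
    { Adj := fun x y => x.1 ≠ y.1 ∨
        (x ≠ y ∧ x.1 = y.1 ∧ x.2.val / (d x.1 + 1) = y.2.val / (d y.1 + 1))
      symm := ⟨fun x y h => by
        rcases h with h | ⟨h1, h2, h3⟩
        · exact Or.inl h.symm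
        · exact Or.inr ⟨h1.symm, h2.symm, h3.symm⟩⟩
      loopless := ⟨fun x h => by
        rcases h with h | ⟨h1, h2, h3⟩
        · exact h rfl
        · exact h1 rfl⟩ }
  have hC : ∀ x y, C.Adj x y ↔ x.1 ≠ y.1 ∨
      (x ≠ y ∧ x.1 = y.1 ∧ x.2.val / (d x.1 + 1) = y.2.val / (d y.1 + 1)) := fun x y => Iff.rfl
  let r : Fin n := ⟨0, by omega⟩
  have hT := SimpleGraph.isTree_starGraph r
  have h1 := h n hnn (SimpleGraph.starGraph r) hT
  have h2 := lt_ramsey (apexJoin H M) (SimpleGraph.starGraph r) C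
    (join_avoid H hB M hM d hd hsep _ C hC) (fails_star d n hdvd C hC r)
  have h3 : Fintype.card (Σ i : Fin (p + 2), Fin (n - 1 + d i)) = (p + 2) * (n - 1) + ∑ i, d i := by
    rw [Fintype.card_sigma]
    simp only [Fintype.card_fin]
    rw [Finset.sum_add_distrib, Finset.sum_const, Finset.card_univ, Fintype.card_fin, smul_eq_mul]
  have h4 := aj_class_le H hB M hM1 (SimpleGraph.starGraph r) hT hnV
  have h5 : (apexJoin H M).chromaticNumber.toNat = p + 3 := by
    rw [aj_chrom H hB M hM1, ENat.toNat_natCast]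
  rw [h5] at h1
  have h6 : p + 3 - 2 = p + 1 := by omega
  rw [h6] at h1
  rw [h3, h1] at h2
  have h7 : (p + 2) * (n - 1) = (p + 1) * (n - 1) + (n - 1) := by ring
  omega

end H67.SW
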