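import Pool.Agent.H67.SG.Realize

/-! # SW.InnerS : if v has at most s neighbours in another class, red degrees inside the parts are less than s (about 150 lines)

The same proof as `SG/TwoNb.lean` (theorem `inner_le_one`, the case `s = 2`; copy and adapt). Suppose some `x₀` has at least `s` red neighbours in `part c (c x₀)`. Colouring `f` with singleton class `{v}` and a class `i ≠ f v` containing at most `s` neighbours of `v`. Labels: the `q` colours
`≠ f v` correspond by a bijection `β` to `Fin q`, `β i = c x₀`; `lam u = β (f u)` for `u ≠ v`, `lam v = c x₀`. `X` = `{v}` together with the at most `s` vertices `x` with `G.Adj v x`, `f x = i`; `ψ v = x₀`, `ψ` maps these injectively to red neighbours of `x₀` in the part. `realize`: inside `X` the only edges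
are `v x`; `hz`: `z ∉ X` adjacent to `u` with `lam z = lam u`: if `u = v` then `f z = i` and `z` is a neighbour of `v`, so `z ∈ X`; if `z, u ≠ v` then `f z = f u`, impossible. So `G ⊑ C`. -/

namespace H67.SW

open SimpleGraph Pool.Agent.H62.Decomp H67.SG

theorem inner_lt_star {V : Type} [Fintype V] (G : SimpleGraph V) (q : ℕ) (v : V)
    (f : G.Coloring (Fin (q + 1))) (hf : ∀ x, f x = f v → x = v) (i : Fin (q + 1)) (hi : i ≠ f v) (s : ℕ)
    (h2 : {x | G.Adj v x ∧ f x = i}.ncard ≤ s) {W : Type} [Fintype W] (C : SimpleGraph W) (n g : ℕ)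
    (c : W → Fin q) (hsz : ∀ j, n ≤ (part c j).card + g)
    (hcr : ∀ x j, j ≠ c x → nd C x (part c j) ≤ g)
    (hn : (Fintype.card V + 1) * g + Fintype.card V + 1 ≤ n) (hG : ¬ G ⊑ C) (x : W) :
    dg C x (part c (c x)) < s := by
  classical
  by_contra hcon
  have hlt : s ≤ dg C x (part c (c x)) := by omega
  unfold dg at hlt
  set Y : Finset W := (part c (c x)).filter (fun y => C.Adj x y) with hY
  have hYs : s ≤ Y.card := by
    convert hlt using 2
  have hYadj : ∀ y ∈ Y, C.Adj x y := by
    intro y hy
    rw [hY, Finset.mem_filter] at hy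
    exact hy.2
  have hYc : ∀ y ∈ Y, c y = c x := by
    intro y hy
    rw [hY, Finset.mem_filter] at hy
    have := hy.1
    unfold part at this
    exact (Finset.mem_filter.mp this).2
  -- the at most `s` neighbours of `v` with colour `i`
  set N : Finset V := Finset.univ.filter (fun u => G.Adj v u ∧ f u = i) with hN
  have hNcard : N.card ≤ s := by
    have h : ({u | G.Adj v u ∧ f u = i} : Set V) = (N : Set V) := by
      ext u; simp [hN]
    rw [h, Set.ncard_coe_finset] at h2
    exact h2
  have hNmem : ∀ u, u ∈ N ↔ G.Adj v u ∧ f u = i := by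
    intro u; simp [hN]
  have hvN : v ∉ N := fun h => G.loopless.irrefl v ((hNmem v).1 h).1
  have hemb : Nonempty (↥N ↪ ↥Y) := by
    apply Function.Embedding.nonempty_of_card_le
    rw [Fintype.card_coe, Fintype.card_coe]
    exact hNcard.trans hYs
  obtain ⟨e⟩ := hemb
  have headj : ∀ u : ↥N, C.Adj x (e u : W) := fun u => hYadj _ (e u).2
  have hec : ∀ u : ↥N, c (e u : W) = c x := fun u => hYc _ (e u).2
  -- the labels
  let β₀ : {y : Fin (q + 1) // y ≠ f v} ≃ Fin q := (finSuccAboveEquiv (f v)).symm
  let β : {y : Fin (q + 1) // y ≠ f v} ≃ Fin q := β₀.trans (Equiv.swap (β₀ ⟨i, hi⟩) (c x))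
  have hβi : β ⟨i, hi⟩ = c x := by
    simp only [β, Equiv.trans_apply, Equiv.swap_apply_left]
  let lam : V → Fin q := fun u => if h : f u ≠ f v then β ⟨f u, h⟩ else c x
  have hfne : ∀ u, u ≠ v → f u ≠ f v := fun u hu h => hu (hf u h)
  have hlamv : lam v = c x := by simp [lam]
  have hlam : ∀ u (hu : u ≠ v), lam u = β ⟨f u, hfne u hu⟩ := by
    intro u hu
    simp only [lam]
    rw [dif_pos (hfne u hu)]
  have hlami : ∀ u, u ≠ v → (lam u = c x ↔ f u = i) := by
    intro u hu
    rw [hlam u hu, ← hβi, β.injective.eq_iff, Subtype.mk.injEq]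
  have hlaminj : ∀ u w, u ≠ v → w ≠ v → lam u = lam w → f u = f w := by
    intro u w hu hw h
    rw [hlam u hu, hlam w hw, β.injective.eq_iff, Subtype.mk.injEq] at h
    exact h
  -- the partial embedding
  let ψ : V → W := fun u => if h : u ∈ N then (e ⟨u, h⟩ : W) else x
  have hψv : ψ v = x := by
    simp only [ψ]
    rw [dif_neg hvN]
  have hψN : ∀ u (hu : u ∈ N), ψ u = (e ⟨u, hu⟩ : W) := by
    intro u hu
    simp only [ψ]
    rw [dif_pos hu]
  apply hG
  refine realize G C q n g c hsz hcr hn lam (insert v N) ψ ?_ ?_ ?_ ?_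
  · intro a ha b hb hab
    rw [Finset.mem_coe, Finset.mem_insert] at ha hb
    rcases ha with rfl | ha
    · rcases hb with rfl | hb
      · rfl
      · exfalso
        rw [hψv, hψN b hb] at hab
        have := headj ⟨b, hb⟩
        rw [← hab] at this
        exact C.loopless.irrefl _ this
    · rcases hb with rfl | hb
      · exfalso
        rw [hψv, hψN a ha] at hab
        have := headj ⟨a, ha⟩
        rw [hab] at this
        exact C.loopless.irrefl _ this
      · rw [hψN a ha, hψN b hb] at hab
        have := e.injective (Subtype.ext hab)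
        exact congrArg Subtype.val this
  · intro u hu
    rw [Finset.mem_insert] at hu
    rcases hu with rfl | hu
    · rw [hψv, hlamv]
    · rw [hψN u hu, hec]
      have huv : u ≠ v := fun h => hvN (h ▸ hu)
      exact ((hlami u huv).2 ((hNmem u).1 hu).2).symm
  · intro a ha b hb hab
    rw [Finset.mem_insert] at ha hb
    rcases ha with rfl | ha
    · rcases hb with rfl | hb
      · exact absurd hab (G.loopless.irrefl _)
      · rw [hψv, hψN b hb]; exact headj ⟨b, hb⟩
    · rcases hb with rfl | hb
      · rw [hψv, hψN a ha]; exact (headj ⟨a, ha⟩).symm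
      · exfalso
        have h1 := ((hNmem a).1 ha).2
        have h2' := ((hNmem b).1 hb).2
        exact f.valid hab (h1.trans h2'.symm)
  · intro z hz u hzu hl
    rw [Finset.mem_insert, not_or] at hz
    by_cases huv : u = v
    · subst huv
      rw [hlamv] at hl
      exact hz.2 ((hNmem z).2 ⟨hzu.symm, (hlami z hz.1).1 hl⟩)
    · exact f.valid hzu (hlaminj z u hz.1 huv hl)

end H67.SW
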