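import Pool.Agent.H67.SW.Def
import Pool.Agent.H67.SG.GMin

/-! # SW.Misc : blocks, stars, parity (about 180 lines)

`block_free`: a copy `φ` of `H` in `F`: `b ∘ φ` is constant on edges, `H` is connected, so `b ∘ φ` is constant, and the `m` vertices lie in one block: `m ≤ blk b x`.
`clique_low`: let `φ` be a copy of `T` in `Fᶜ`, `x = φ c`, `Q` = the block of `x` without `x`, `|Q| ≥ e`. The image of `φ` has `n` elements (so `n ≤ N`), so it misses `N - n` vertices, and `J = {z | φ z ∈ Q}` has at least `e - (N - n) ≥ α + 1` elements. Elements of `J` are `≠ c`, not adjacent to `c` (an edge would give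
`Fᶜ.Adj x (φ z)`, but `x`, `φ z` are different with the same label, so `F.Adj`), and pairwise not adjacent. So `Far T c J` and `|J| ≤ α`: contradiction.
`star_low`: a copy `φ` of `T` in `Fᶜ`: `φ c` has at least `deg T c = n - 1` neighbours in `Fᶜ`, but at most `N - 1 - e < n - 1`.
`parity_vertex`: otherwise all `dg C x S = d` for `x ∈ S`, and `Σ_(x ∈ S) dg C x S = |S| d` is odd, but it is the number of ordered adjacent pairs in `S`, which is even (apply `sum_degrees_eq_twice_card_edges` to the induced graph, or pair `(x,y)` with `(y,x)`, e.g. `Finset.card_involution`-like lemma). -/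

namespace H67.SW

open SimpleGraph Pool.Agent.H62.Decomp H67.SG

private theorem map_of_contained {U W : Type} {T : SimpleGraph U} {F : SimpleGraph W} (h : T ⊑ F) :
    ∃ f : U → W, Function.Injective f ∧ ∀ x y, T.Adj x y → F.Adj (f x) (f y) := by
  obtain ⟨φ⟩ := h
  exact ⟨fun z => φ z, fun a b hab => φ.injective hab, fun x y hxy => φ.toHom.map_adj hxy⟩

theorem block_free {m : ℕ} (H : SimpleGraph (Fin m)) (hH : H.Connected) {W : Type} [Fintype W]
    (F : SimpleGraph W) (b : W → ℕ) (hF : ∀ x y, F.Adj x y → b x = b y) (hb : ∀ x, blk b x < m) :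
    ¬ H ⊑ F := by
  classical
  intro hcont
  obtain ⟨φ, hinj, hmap⟩ := map_of_contained hcont
  obtain ⟨r⟩ := hH.nonempty
  have hc : ∀ x y, b (φ x) = b (φ y) := by
    intro x y
    obtain ⟨w⟩ := hH.preconnected x y
    induction w with
    | nil => rfl
    | cons h _ ih => exact (hF _ _ (hmap _ _ h)).trans ih
  have h1 := hb (φ r)
  unfold blk at h1
  have h2 : (Finset.univ.image φ) ⊆
      Finset.univ.filter (fun y => b y = b (φ r)) := by
    intro y hy
    rw [Finset.mem_image] at hy
    obtain ⟨z, _, rfl⟩ := hy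
    rw [Finset.mem_filter]
    exact ⟨Finset.mem_univ _, hc z r⟩
  have h3 := Finset.card_le_card h2
  rw [Finset.card_image_of_injective _ hinj, Finset.card_univ, Fintype.card_fin] at h3
  exact absurd h3 (not_le.mpr h1)

theorem clique_low {n N e α : ℕ} (T : SimpleGraph (Fin n)) (c : Fin n)
    (hα : ∀ J : Finset (Fin n), Far T c J → J.card ≤ α) (b : Fin N → ℕ) (F : SimpleGraph (Fin N))
    (hF : ∀ x y, F.Adj x y ↔ x ≠ y ∧ b x = b y) (hb : ∀ x, e + 1 ≤ blk b x)
    (hN : N + α + 1 ≤ n + e) : ¬ T ⊑ Fᶜ := by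
  classical
  intro hcont
  obtain ⟨φ, hinj, hmap⟩ := map_of_contained hcont
  have hadj : ∀ y z, T.Adj y z → φ y ≠ φ z ∧ ¬ b (φ y) = b (φ z) := by
    intro y z h
    have h1 : Fᶜ.Adj (φ y) (φ z) := hmap _ _ h
    rw [SimpleGraph.compl_adj] at h1
    refine ⟨h1.1, fun h2 => h1.2 ?_⟩
    rw [hF]
    exact ⟨h1.1, h2⟩
  set x := φ c with hx
  set Q : Finset (Fin N) := (Finset.univ.filter (fun y => b y = b x)).erase x with hQ
  have hQc : e ≤ Q.card := by
    have h1 := hb x
    unfold blk at h1
    rw [hQ, Finset.card_erase_of_mem (by rw [Finset.mem_filter]; exact ⟨Finset.mem_univ _, rfl⟩)]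
    omega
  set I : Finset (Fin N) := Finset.univ.image φ with hI
  have hIc : I.card = n := by
    rw [hI, Finset.card_image_of_injective _ hinj, Finset.card_univ, Fintype.card_fin]
  set J : Finset (Fin n) := Finset.univ.filter (fun z => φ z ∈ Q) with hJ
  have hJc : (Q ∩ I).card ≤ J.card := by
    have h1 : Q ∩ I ⊆ J.image φ := by
      intro y hy
      rw [Finset.mem_inter, hI, Finset.mem_image] at hy
      obtain ⟨h2, z, _, h3⟩ := hy
      rw [Finset.mem_image]
      refine ⟨z, ?_, h3⟩
      rw [hJ, Finset.mem_filter]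
      refine ⟨Finset.mem_univ _, ?_⟩
      have h4 : φ z = y := h3
      rw [h4]
      exact h2
    exact (Finset.card_le_card h1).trans Finset.card_image_le
  have hun : (Q ∪ I).card ≤ N := by
    have h1 := Finset.card_le_univ (Q ∪ I)
    rwa [Fintype.card_fin] at h1
  have hui := Finset.card_union_add_card_inter Q I
  have hfar : Far T c J := by
    refine ⟨?_, ?_⟩
    · intro z hz
      rw [hJ, Finset.mem_filter, hQ, Finset.mem_erase, Finset.mem_filter] at hz
      obtain ⟨_, h1, _, h2⟩ := hz
      refine ⟨?_, ?_⟩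
      · intro h3
        apply h1
        rw [h3]
      · intro h3
        exact (hadj c z h3).2 h2.symm
    · intro y hy z hz h3
      rw [hJ, Finset.mem_filter, hQ, Finset.mem_erase, Finset.mem_filter] at hy hz
      exact (hadj y z h3).2 (hy.2.2.2.trans hz.2.2.2.symm)
  have h5 := hα J hfar
  omega

theorem star_low {n N e : ℕ} (T : SimpleGraph (Fin n)) (c : Fin n) (hc : deg T c = n - 1)
    (F : SimpleGraph (Fin N)) (hF : ∀ x, e ≤ deg F x) (hN : N < n + e) : ¬ T ⊑ Fᶜ := by
  classical
  intro hcont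
  obtain ⟨φ, hinj, hmap⟩ := map_of_contained hcont
  have h1 : deg T c ≤ dg Fᶜ (φ c) Finset.univ := by
    unfold deg dg
    have h2 : (Finset.univ.filter (fun y => T.Adj c y)).image φ ⊆
        Finset.univ.filter (fun y => Fᶜ.Adj (φ c) y) := by
      intro y hy
      rw [Finset.mem_image] at hy
      obtain ⟨z, hz, rfl⟩ := hy
      rw [Finset.mem_filter] at hz ⊢
      exact ⟨Finset.mem_univ _, hmap _ _ hz.2⟩
    have h3 := Finset.card_le_card h2
    rw [Finset.card_image_of_injective _ hinj] at h3
    convert h3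
  have h4 := dg_compl_of_mem F (φ c) Finset.univ (Finset.mem_univ _)
  have h5 := dg_add_nd F (φ c) Finset.univ
  rw [Finset.card_univ, Fintype.card_fin] at h5
  have h6 : e ≤ dg F (φ c) Finset.univ := hF (φ c)
  have h7 : 0 < n := lt_of_le_of_lt (Nat.zero_le _) c.isLt
  omega

private theorem even_pairs {W : Type} [Fintype W] (C : SimpleGraph W) (S : Finset W) :
    Even (∑ x ∈ S, dg C x S) := by
  classical
  have h1 : ∑ x ∈ S, dg C x S = ((S ×ˢ S).filter (fun p => C.Adj p.1 p.2)).card := by
    rw [Finset.card_filter, Finset.sum_product]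
    refine Finset.sum_congr rfl fun x _ => ?_
    unfold dg
    rw [Finset.card_filter]
  rw [h1, ← ZMod.natCast_eq_zero_iff_even]
  have h2 : ∑ p ∈ (S ×ˢ S).filter (fun p => C.Adj p.1 p.2), (1 : ZMod 2) = 0 := by
    refine Finset.sum_involution (fun p _ => (p.2, p.1)) ?_ ?_ ?_ ?_
    · intro p _
      decide
    · intro p hp _ h3
      rw [Finset.mem_filter] at hp
      have h4 : p.2 = p.1 := congrArg Prod.fst h3
      exact C.loopless.irrefl p.1 (by have h5 := hp.2; rwa [h4] at h5)
    · intro p hp
      rw [Finset.mem_filter, Finset.mem_product] at hp ⊢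
      exact ⟨⟨hp.1.2, hp.1.1⟩, hp.2.symm⟩
    · intro p _
      rfl
  rw [Finset.sum_const, nsmul_eq_mul, mul_one] at h2
  exact h2

theorem parity_vertex {W : Type} [Fintype W] (C : SimpleGraph W) (S : Finset W) (d : ℕ)
    (hS : Odd S.card) (hd : Odd d) (h : ∀ x ∈ S, d ≤ dg C x S) : ∃ x ∈ S, d + 1 ≤ dg C x S := by
  by_contra hcon
  push Not at hcon
  have h1 : ∑ x ∈ S, dg C x S = S.card * d := by
    rw [Finset.sum_congr rfl (fun x hx => by
      have h2 := hcon x hx
      have h3 := h x hx
      show dg C x S = d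
      omega), Finset.sum_const, smul_eq_mul]
  have h2 := even_pairs C S
  rw [h1] at h2
  exact absurd (hS.mul hd) (Nat.not_odd_iff_even.mpr h2)

end H67.SW
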