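import Pool.Agent.H67.SW.Eq
import Pool.Agent.H67.SW.Misc
import Pool.Agent.H67.SW.Blk

/-! # SW.Low : lower bounds for the class Ramsey number (about 100 lines)

`D = a - 1`, `R = partRamsey (apexJoin H M) (p+1) T`. `low_clique`: if `a ≤ α + 2` it is `aj_ge`. Otherwise `D ≥ α + 2 ≥ 2`; `N = n - 1 + (D - 1 - α)`; `clique_blocks D N` (`N ≥ n - 1 ≥ D²` for `n` large) gives labels `b`; `F` = same label and different. Degrees: `blk b x - 1 ≤ D < a`. `H ⋢ F`: `block_free`, blocks have at most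
`D + 1 = a < 2 a ≤ m` vertices (`hB.le`). `T ⋢ Fᶜ`: `clique_low` with `e = D - 1`: `N + α + 1 = n - 1 + D = n + e`. `aj_low`: `N < R`, i.e. `n + a ≤ R + α + 2`.
`low_star`: `N = n - 1 + D`; `D = 0`: `aj_ge`. `D ≥ 1`: `regular_blocks D` (`N D` even) gives `F`, `b`: degrees `D < a`, blocks at most `2 D + 1 < 2 a ≤ m`: `block_free`. `star_low` with `e = D`: `N = n - 1 + D < n + D`. `aj_low`: `N < R`. -/

namespace H67.SW

open SimpleGraph Pool.Agent.H62.Decomp H67.SG

theorem low_deg_blk {N : ℕ} (b : Fin N → ℕ) (F : SimpleGraph (Fin N))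
    (hF : ∀ x y, F.Adj x y ↔ x ≠ y ∧ b x = b y) (x : Fin N) : deg F x + 1 = blk b x := by
  classical
  have h : Finset.univ.filter (fun y => b y = b x) =
      insert x (Finset.univ.filter (fun y => F.Adj x y)) := by
    ext y
    simp only [Finset.mem_filter, Finset.mem_univ, true_and, Finset.mem_insert]
    rw [hF]
    constructor
    · intro hy
      by_cases hxy : y = x
      · exact Or.inl hxy
      · exact Or.inr ⟨fun h' => hxy h'.symm, hy.symm⟩
    · rintro (rfl | ⟨-, h⟩)
      · rfl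
      · exact h.symm
  have h2 : x ∉ Finset.univ.filter (fun y => F.Adj x y) := by
    simp
  have h3 : blk b x = (Finset.univ.filter (fun y => b y = b x)).card := by
    unfold blk
    congr
  have h4 : deg F x = (Finset.univ.filter (fun y => F.Adj x y)).card := by
    unfold deg dg
    congr
  rw [h3, h4, h, Finset.card_insert_of_notMem h2]

theorem low_clique {m p a : ℕ} (H : SimpleGraph (Fin m)) (hB : Base H a) (M : Fin p → ℕ)
    (hM : ∀ j, a ≤ M j) : ∃ n₀ : ℕ, ∀ n : ℕ, n₀ ≤ n → ∀ T : SimpleGraph (Fin n), T.IsTree →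
    ∀ (c : Fin n) (α : ℕ), (∀ J : Finset (Fin n), Far T c J → J.card ≤ α) →
      n + a ≤ partRamsey (apexJoin H M) (p + 1) T + α + 2 := by
  refine ⟨a * a + 1, fun n hn T hT c α hα => ?_⟩
  have h1 := hB.one
  have h2 := hB.le
  by_cases ha : a ≤ α + 2
  · have := aj_ge H hB M hM T hT
    omega
  · push Not at ha
    obtain ⟨D, rfl⟩ : ∃ D, a = D + 1 := ⟨a - 1, by omega⟩
    have hD : D * D ≤ (D + 1) * (D + 1) := by nlinarith
    obtain ⟨b, hb⟩ := clique_blocks D (n - 1 + (D - 1 - α)) (by omega) (by omega)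
    let F : SimpleGraph (Fin (n - 1 + (D - 1 - α))) :=
      { Adj := fun x y => x ≠ y ∧ b x = b y
        symm := ⟨fun x y h => ⟨h.1.symm, h.2.symm⟩⟩
        loopless := ⟨fun x h => h.1 rfl⟩ }
    have hF : ∀ x y, F.Adj x y ↔ x ≠ y ∧ b x = b y := fun x y => Iff.rfl
    have hdeg : ∀ x, deg F x < D + 1 := by
      intro x
      have h3 := low_deg_blk b F hF x
      have h4 := (hb x).2
      omega
    have hfree : ¬ H ⊑ F := by
      refine block_free H hB.conn F b (fun x y h => h.2) (fun x => ?_)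
      have h4 := (hb x).2
      omega
    have hT' : ¬ T ⊑ Fᶜ := by
      refine clique_low (e := D - 1) T c hα b F hF (fun x => ?_) (by omega)
      have h4 := (hb x).1
      omega
    have h5 := aj_low H hB M hM T F hdeg hfree hT'
    omega

theorem low_star {m p a : ℕ} (H : SimpleGraph (Fin m)) (hB : Base H a) (M : Fin p → ℕ)
    (hM : ∀ j, a ≤ M j) : ∃ n₀ : ℕ, ∀ n : ℕ, n₀ ≤ n → Even ((n - 1 + (a - 1)) * (a - 1)) →
    ∀ T : SimpleGraph (Fin n), T.IsTree → ∀ c : Fin n, deg T c = n - 1 →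
      n + a ≤ partRamsey (apexJoin H M) (p + 1) T + 1 := by
  have h1 := hB.one
  have h2 := hB.le
  by_cases ha : a = 1
  · subst ha
    refine ⟨1, fun n hn _ T hT c hc => ?_⟩
    have := aj_ge H hB M hM T hT
    omega
  · obtain ⟨N₀, hN₀⟩ := regular_blocks (a - 1) (by omega)
    refine ⟨N₀ + 1, fun n hn hev T hT c hc => ?_⟩
    obtain ⟨F, b, hF1, hF2, hF3⟩ := hN₀ (n - 1 + (a - 1)) (by omega) hev
    have hfree : ¬ H ⊑ F := by
      refine block_free H hB.conn F b hF2 (fun x => ?_)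
      have h4 := hF3 x
      omega
    have hT' : ¬ T ⊑ Fᶜ := by
      refine star_low (e := a - 1) T c hc F (fun x => ?_) (by omega)
      rw [hF1 x]
    have h5 := aj_low H hB M hM T F (fun x => by rw [hF1 x]; omega) hfree hT'
    omega

end H67.SW
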