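import Pool.Agent.H67.SW.Def

/-! # SW.NumC : numerical lemmas for even cycles (about 250 lines)

`num_cycle`: let `a = d i₁` be the largest value and `b = d i₂` the largest of the others, `a ≥ b ≥ 1`; `a (b+2) < m`. Claim `2 a + 2 (q-1) b + 2 ≤ m`: otherwise (both sides even) `2 a + 2 (q-1) b ≥ m ≥ a (b+2) + 1`, so `2 (q-1) b > a b`, `a ≤ 2 q - 3`, `b ≤ a ≤ 2 q - 3`, `m ≤ 2 a + 2 (q-1) b ≤ 2 q (2 q - 3) < 2 (q-1)(2q-1)`: contradiction to `hm`.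
So `Σ d ≤ a + (q-1) b ≤ m / 2 - 1`. Equality and `m / 2 - 1` odd: then all values except `d i₁` equal `b` and `m = 2 a + 2 (q-1) b + 2`; `a + (q-1) b` is odd. From `a (b+2) < m`: `a b ≤ 2 (q-1) b + 1`. If `q = 2`: `m = 2 a + 2 b + 2`; if `a` is odd: `(a+1)(b+2) = a b + 2 a + b + 2 ≥ m`; if `a` is even, `b` is odd and `(b+1)(a+2) = a b + 2 b + a + 2 ≥ m`.
If `q ≥ 3`: `m ≥ 2 (q-1)(2q-1)` gives `a + (q-1) b + 1 ≥ (q-1)(2q-1)`. First `b ≥ 2` (`b = 1`: `a ≤ 2 q - 1` and `2 q - 1 + q - 1 + 1 ≥ (q-1)(2q-1)` is false for `q ≥ 3`), so `a ≤ 2 q - 2`, hence `(q-1) b ≥ (q-1)(2q-1) - (2q-1) = (q-2)(2q-1)`, and `b ≥ 2 q - 3` (`(q-1)(2q-4) < (q-2)(2q-1)` as `2q² - 6q + 4 < 2q² - 5q + 2` iff `q > 2`).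
So `(a,b)` is one of `(2q-3, 2q-3)`, `(2q-2, 2q-3)`, `(2q-2, 2q-2)`. First: `m = 2 q (2q-3) + 2 = (2q-2)(2q-1) = (a+1)(b+2)`, `a` odd: done with `i = i₁`, `j = i₂`. Second: `b` odd, `m = 2 (2q-2) + 2 (q-1)(2q-3) + 2 = 4q² - 6q + 4 ≤ (2q-2) 2q = (b+1)(a+2)`: `i = i₂`, `j = i₁`. Third: `a + (q-1) b = q (2q-2)` is even: excluded.
`seq_cycle`: let `b` be the least natural number with `m ≤ 2 q b`; so `2 q (b-1) < m ≤ 2 q b`, `b ≥ 1`, and `b ≤ 2 q - 3` because `m ≤ 2 q (2q-3)` (`m < 4q² - 6q + 2`, `m` even). If `b (b+2) < m` take `(a, b) = (b, b)`. Otherwise `m ≤ b² + 2 b`; `b ≥ 2` (for `b = 1` it says `m ≤ 3`). `(b+3)(b-1) ≤ 2 q (b-1) < m` as `2 q ≥ b + 3`. `m` and `2 q (b-1)` are even, so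
`m ≥ 2 q (b-1) + 2`; if `m ≥ 2 q (b-1) + 4` then `b² + 2 b ≥ m ≥ (b+3)(b-1) + 4 = b² + 2 b + 1`: contradiction. So `m = 2 q (b-1) + 2`, take `(a, b) = (b, b-1)`: `b (b+1) < m` because `m ≥ (b+3)(b-1) + 2 = b² + 2 b - 1 > b² + b`, and `m = 2 b + 2 (q-1)(b-1)`: indeed `2 b + 2 (q-1)(b-1) = 2 q (b-1) + 2`. -/

namespace H67.SW

open SimpleGraph Pool.Agent.H62.Decomp H67.SG

private lemma nc_main (p n a b : ℕ) (hp : 1 ≤ p) (hm : 2 * p * (2 * p + 1) ≤ 2 * n) (_hb : 1 ≤ b)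
    (hab : b ≤ a) (h : a * (b + 2) < 2 * n) : a + p * b + 1 ≤ n := by
  by_contra hc
  have h1 : n ≤ a + p * b := by omega
  have h2 : a * b < 2 * p * b := by nlinarith
  have h3 : a < 2 * p := Nat.lt_of_mul_lt_mul_right h2
  have h4 : p * b ≤ p * (2 * p - 1) := Nat.mul_le_mul_left _ (by omega)
  obtain ⟨r, hr⟩ : ∃ r, p = r + 1 := ⟨p - 1, by omega⟩
  subst hr
  have h5 : 2 * (r + 1) - 1 = 2 * r + 1 := by omega
  rw [h5] at h4
  have h6 : a ≤ 2 * r + 1 := by omega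
  nlinarith

private lemma nc_eq (p n a b : ℕ) (hp : 1 ≤ p) (hm : 2 * p * (2 * p + 1) ≤ 2 * n) (hb : 1 ≤ b)
    (hab : b ≤ a) (h : a * (b + 2) < 2 * n) (he : a + p * b + 1 = n) (ho : (a + p * b) % 2 = 1) :
    (a % 2 = 1 ∧ 2 * n ≤ (a + 1) * (b + 2)) ∨ (b % 2 = 1 ∧ 2 * n ≤ (b + 1) * (a + 2)) := by
  rcases Nat.lt_or_ge p 2 with hp2 | hp2
  · have hp1 : p = 1 := by omega
    subst hp1
    rcases Nat.mod_two_eq_zero_or_one a with ha | ha
    · right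
      refine ⟨by omega, ?_⟩
      nlinarith
    · left
      refine ⟨ha, ?_⟩
      nlinarith
  · have h1 : a * b ≤ 2 * p * b + 1 := by nlinarith
    have hb2 : 2 ≤ b := by
      by_contra hb1
      have hb1' : b = 1 := by omega
      subst hb1'
      nlinarith
    have ha : a ≤ 2 * p := by
      by_contra hc
      have : 2 * p + 1 ≤ a := by omega
      nlinarith
    obtain ⟨r, rfl⟩ : ∃ r, p = r + 2 := ⟨p - 2, by omega⟩
    have hb3 : 2 * r + 3 ≤ b := by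
      by_contra hc
      have h5 : b ≤ 2 * r + 2 := by omega
      nlinarith
    have hb4 : b = 2 * r + 3 ∨ b = 2 * r + 4 := by omega
    have ha4 : a = 2 * r + 3 ∨ a = 2 * r + 4 := by omega
    rcases ha4 with ha5 | ha5
    · have hb5 : b = 2 * r + 3 := by omega
      left
      refine ⟨by omega, ?_⟩
      subst ha5
      subst hb5
      nlinarith
    · rcases hb4 with hb5 | hb5
      · right
        refine ⟨by omega, ?_⟩
        subst ha5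
        subst hb5
        nlinarith
      · exfalso
        subst ha5
        subst hb5
        have h6 : 2 * r + 4 + (r + 2) * (2 * r + 4) = 2 * ((r + 2) * (r + 3)) := by ring
        omega

theorem num_cycle (q m : ℕ) (hq : 2 ≤ q) (he : Even m) (hm : 2 * (q - 1) * (2 * q - 1) ≤ m)
    (d : Fin q → ℕ) (i₀ j₀ : Fin q) (hij : i₀ ≠ j₀) (hi : 1 ≤ d i₀) (hj : 1 ≤ d j₀)
    (h : ∀ i j, i ≠ j → 1 ≤ d i → 1 ≤ d j → d i * (d j + 2) < m) :
    ∑ i, d i + 1 ≤ m / 2 ∧ (Odd (m / 2 - 1) → ∑ i, d i + 1 = m / 2 →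
      ∃ i j, i ≠ j ∧ Odd (d i) ∧ 1 ≤ d j ∧ m ≤ (d i + 1) * (d j + 2)) := by
  classical
  obtain ⟨p, rfl⟩ : ∃ p, q = p + 1 := ⟨q - 1, by omega⟩
  obtain ⟨n, hn⟩ := he
  have hmn : m = 2 * n := by omega
  subst hmn
  have hm' : 2 * p * (2 * p + 1) ≤ 2 * n := by
    have h1 : p + 1 - 1 = p := by omega
    have h2 : 2 * (p + 1) - 1 = 2 * p + 1 := by omega
    rwa [h1, h2] at hm
  obtain ⟨i₁, -, hi₁⟩ := Finset.exists_max_image (Finset.univ : Finset (Fin (p + 1))) d ⟨i₀, Finset.mem_univ _⟩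
  have hne : (Finset.univ.erase i₁ : Finset (Fin (p + 1))).Nonempty := by
    by_cases hh : i₀ = i₁
    · exact ⟨j₀, Finset.mem_erase.mpr ⟨fun h' => hij (hh.trans h'.symm), Finset.mem_univ _⟩⟩
    · exact ⟨i₀, Finset.mem_erase.mpr ⟨hh, Finset.mem_univ _⟩⟩
  obtain ⟨i₂, hi₂m, hi₂⟩ := Finset.exists_max_image (Finset.univ.erase i₁ : Finset (Fin (p + 1))) d hne
  have hi₂ne : i₂ ≠ i₁ := (Finset.mem_erase.mp hi₂m).1
  have hb : 1 ≤ d i₂ := by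
    by_cases hh : i₀ = i₁
    · exact le_trans hj (hi₂ j₀ (Finset.mem_erase.mpr ⟨fun h' => hij (hh.trans h'.symm), Finset.mem_univ _⟩))
    · exact le_trans hi (hi₂ i₀ (Finset.mem_erase.mpr ⟨hh, Finset.mem_univ _⟩))
  have hab : d i₂ ≤ d i₁ := hi₁ i₂ (Finset.mem_univ _)
  have hsum : ∑ i, d i ≤ d i₁ + p * d i₂ := by
    rw [← Finset.add_sum_erase Finset.univ d (Finset.mem_univ i₁)]
    have h1 := Finset.sum_le_card_nsmul (Finset.univ.erase i₁) d (d i₂) hi₂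
    rw [Finset.card_erase_of_mem (Finset.mem_univ _), Finset.card_univ, Fintype.card_fin,
      Nat.add_sub_cancel, smul_eq_mul] at h1
    exact Nat.add_le_add_left h1 _
  have hlt : d i₁ * (d i₂ + 2) < 2 * n := h i₁ i₂ (Ne.symm hi₂ne) (le_trans hb hab) hb
  have hmain := nc_main p n (d i₁) (d i₂) (by omega) hm' hb hab hlt
  have hdiv : 2 * n / 2 = n := by omega
  rw [hdiv]
  refine ⟨by omega, ?_⟩
  intro hodd heq
  have he' : d i₁ + p * d i₂ + 1 = n := by omega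
  have ho : (d i₁ + p * d i₂) % 2 = 1 := by
    rw [Nat.odd_iff] at hodd
    omega
  rcases nc_eq p n (d i₁) (d i₂) (by omega) hm' hb hab hlt he' ho with ⟨h1, h2⟩ | ⟨h1, h2⟩
  · exact ⟨i₁, i₂, Ne.symm hi₂ne, Nat.odd_iff.mpr h1, hb, h2⟩
  · exact ⟨i₂, i₁, hi₂ne, Nat.odd_iff.mpr h1, le_trans hb hab, h2⟩

theorem seq_cycle (q m : ℕ) (hq : 2 ≤ q) (he : Even m) (hm : 4 ≤ m)
    (h : m < 2 * (q - 1) * (2 * q - 1)) :
    ∃ a b, 1 ≤ b ∧ b ≤ a ∧ a * (b + 2) < m ∧ m ≤ 2 * a + 2 * (q - 1) * b := by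
  obtain ⟨p, rfl⟩ : ∃ p, q = p + 1 := ⟨q - 1, by omega⟩
  obtain ⟨n, hn⟩ := he
  have hmn : m = 2 * n := by omega
  subst hmn
  have hp1 : p + 1 - 1 = p := by omega
  have hp2 : 2 * (p + 1) - 1 = 2 * p + 1 := by omega
  rw [hp1, hp2] at h
  rw [hp1]
  obtain ⟨c, hc1, hc2⟩ : ∃ c, (p + 1) * c < n ∧ n ≤ (p + 1) * (c + 1) := by
    refine ⟨(n - 1) / (p + 1), ?_, ?_⟩
    · have := Nat.mul_div_le (n - 1) (p + 1)
      omega
    · have h1 := Nat.div_add_mod (n - 1) (p + 1)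
      have h2 : (n - 1) % (p + 1) < p + 1 := Nat.mod_lt _ (by omega)
      have h3 : (p + 1) * ((n - 1) / (p + 1) + 1) = (p + 1) * ((n - 1) / (p + 1)) + (p + 1) := by ring
      omega
  have hc3 : c + 2 ≤ 2 * p := by
    by_contra hcc
    have h5 : 2 * p ≤ c + 1 := by omega
    nlinarith
  by_cases hcase : (c + 1) * (c + 3) < 2 * n
  · refine ⟨c + 1, c + 1, by omega, le_refl _, ?_, ?_⟩
    · simpa [Nat.add_assoc] using hcase
    · nlinarith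
  · have hcase' : 2 * n ≤ (c + 1) * (c + 3) := by omega
    have hcpos : 1 ≤ c := by
      by_contra hc0
      have : c = 0 := by omega
      subst this
      omega
    have h6 : n = (p + 1) * c + 1 := by
      by_contra hne
      have h7 : (p + 1) * c + 2 ≤ n := by omega
      nlinarith
    refine ⟨c + 1, c, hcpos, by omega, ?_, ?_⟩
    · nlinarith
    · nlinarith

end H67.SW
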