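import Pool.Agent.H67.SW.Def

/-! # SW.NumP : numerical lemma for paths (about 150 lines)

Let `a = d i₁` be the largest value and `b = d i₂` the largest value of the others (`i₂ ≠ i₁`); `b ≥ 1` because two values are positive. `(a+1)(b+2) ≤ m` (`h`), so `(b+1)(b+2) ≤ m` and `a + 1 ≤ m / (b+2)`. `Σ d ≤ a + (q-1) b ≤ m/(b+2) - 1 + (q-1) b ≤ m / 2 - 1` by `h0`. In the case of equality (`Σ d + 1 = m / 2`, `m / 2 - 1` odd): all values except `d i₁` are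
equal to `b`, and `a + 1 = m / (b+2)`, so `(a + 2)(b + 2) > m`. If `a` is odd take `i = i₁`, `j = i₂`. If `a` is even then `(q-1) b = (m/2 - 1) - a` is odd, so `b` is odd: take `i = i₂`, `j = i₁`: `(b + 2)(a + 2) > m`. -/

namespace H67.SW

open SimpleGraph Pool.Agent.H62.Decomp H67.SG

theorem num_path (q m : ℕ) (hq : 2 ≤ q)
    (h0 : ∀ b, 1 ≤ b → (b + 1) * (b + 2) ≤ m → m / (b + 2) + (q - 1) * b ≤ m / 2)
    (d : Fin q → ℕ) (i₀ j₀ : Fin q) (hij : i₀ ≠ j₀) (hi : 1 ≤ d i₀) (hj : 1 ≤ d j₀)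
    (h : ∀ i j, i ≠ j → 1 ≤ d i → 1 ≤ d j → (d i + 1) * (d j + 2) ≤ m) :
    ∑ i, d i + 1 ≤ m / 2 ∧ (Odd (m / 2 - 1) → ∑ i, d i + 1 = m / 2 →
      ∃ i j, i ≠ j ∧ Odd (d i) ∧ 1 ≤ d j ∧ m < (d i + 2) * (d j + 2)) := by
  classical
  obtain ⟨i₁, -, hmax⟩ := Finset.exists_max_image Finset.univ d ⟨i₀, Finset.mem_univ _⟩
  have hne : (Finset.univ.erase i₁ : Finset (Fin q)).Nonempty := by
    by_cases h1 : i₀ = i₁
    · exact ⟨j₀, Finset.mem_erase.2 ⟨fun h2 => hij (h1.trans h2.symm), Finset.mem_univ _⟩⟩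
    · exact ⟨i₀, Finset.mem_erase.2 ⟨h1, Finset.mem_univ _⟩⟩
  obtain ⟨i₂, hi₂, hmax2⟩ := Finset.exists_max_image (Finset.univ.erase i₁) d hne
  have hne2 : i₂ ≠ i₁ := (Finset.mem_erase.1 hi₂).1
  have ha : 1 ≤ d i₁ := hi.trans (hmax i₀ (Finset.mem_univ _))
  have hb : 1 ≤ d i₂ := by
    by_cases h1 : i₀ = i₁
    · exact hj.trans (hmax2 j₀ (Finset.mem_erase.2
        ⟨fun h2 => hij (h1.trans h2.symm), Finset.mem_univ _⟩))
    · exact hi.trans (hmax2 i₀ (Finset.mem_erase.2 ⟨h1, Finset.mem_univ _⟩))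
  have hab : d i₂ ≤ d i₁ := hmax i₂ (Finset.mem_univ _)
  have h1 := h i₁ i₂ hne2.symm ha hb
  have h2 : (d i₂ + 1) * (d i₂ + 2) ≤ m :=
    (Nat.mul_le_mul_right _ (Nat.add_le_add_right hab 1)).trans h1
  have h3 := h0 (d i₂) hb h2
  have h4 : d i₁ + 1 ≤ m / (d i₂ + 2) := (Nat.le_div_iff_mul_le (by omega)).2 h1
  have h5 : ∑ i, d i = ∑ i ∈ Finset.univ.erase i₁, d i + d i₁ :=
    (Finset.sum_erase_add _ _ (Finset.mem_univ i₁)).symm
  have h6 : ∑ i ∈ Finset.univ.erase i₁, d i ≤ (q - 1) * d i₂ := by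
    refine (Finset.sum_le_card_nsmul _ _ _ fun i hi => hmax2 i hi).trans (le_of_eq ?_)
    rw [Finset.card_erase_of_mem (Finset.mem_univ _), Finset.card_univ, Fintype.card_fin,
      smul_eq_mul]
  refine ⟨by omega, fun hodd heq => ?_⟩
  have h7 : m < (d i₁ + 2) * (d i₂ + 2) := by
    have h8 : m / (d i₂ + 2) < d i₁ + 2 := by omega
    exact (Nat.div_lt_iff_lt_mul (by omega)).1 h8
  rcases Nat.even_or_odd (d i₁) with he | ho
  · refine ⟨i₂, i₁, hne2, ?_, ha, by rw [mul_comm]; exact h7⟩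
    have h9 : (q - 1) * d i₂ + d i₁ = m / 2 - 1 := by omega
    have h10 : Odd ((q - 1) * d i₂) := by
      rw [← h9] at hodd
      exact (Nat.odd_add.1 hodd).2 he
    exact (Nat.odd_mul.1 h10).2
  · exact ⟨i₁, i₂, hne2.symm, ho, hb, h7⟩

end H67.SW
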