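import Pool.Agent.H67.SW.Up
import Pool.Agent.H67.SW.Fails
import Pool.Agent.H67.SW.CovP
import Pool.Agent.H67.SW.CovC
import Pool.Agent.H67.SW.NumP
import Pool.Agent.H67.SW.NumC

/-! # SW.Main : assembly -/

namespace H67.SW

open SimpleGraph Pool.Agent.H62.Decomp H67.SG

/-- the sum of a sequence with one value `a` and the others `b` -/
private theorem sum_seq (p a b : ℕ) :
    ∑ i : Fin (p + 2), (if i = 0 then a else b) = a + (p + 1) * b := by
  rw [Fin.sum_univ_succ]
  simp [Fin.succ_ne_zero]

/-- joins with an even cycle -/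
theorem cycle_iff (p m : ℕ) (hm : 4 ≤ m) (he : Even m) (M : Fin p → ℕ) (hM : ∀ j, (p + 2) * m ≤ M j) :
    SatisfiesFormula (apexJoin (cycleGraph m) M) ↔ 2 * (p + 1) * (2 * p + 3) ≤ m := by
  have hB := base_cycle m hm he
  have hM1 : ∀ j, m / 2 ≤ M j := fun j => by
    have h1 := hM j
    have h2 : m ≤ (p + 2) * m := Nat.le_mul_of_pos_left _ (by omega)
    omega
  constructor
  · intro hF
    by_contra hlt
    push Not at hlt
    obtain ⟨a, b, hb, hab, h1, h2⟩ := seq_cycle (p + 2) m (by omega) he hm (by
      have h3 : p + 2 - 1 = p + 1 := by omega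
      have h4 : 2 * (p + 2) - 1 = 2 * p + 3 := by omega
      rw [h3, h4]
      exact hlt)
    have h5 : p + 2 - 1 = p + 1 := by omega
    rw [h5] at h2
    have ha3 : a * 3 ≤ a * (b + 2) := Nat.mul_le_mul_left _ (by omega)
    have ha : a + 1 ≤ m / 2 := by omega
    refine fails (cycleGraph m) hB M hM (fun i => if i = 0 then a else b) ?_ ?_ ?_ hF
    · intro i
      split_ifs <;> omega
    · intro i j hij hS
      have h6 := sep_cycle m _ _ hm hS
      have hle : ∀ i : Fin (p + 2), (if i = 0 then a else b) ≤ a := by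
        intro i
        split_ifs <;> omega
      rcases h6 with h6 | h6
      · have h7 : (if i = 0 then a else b) * ((if j = 0 then a else b) + 2) ≤ a * (b + 2) := by
          by_cases hi : i = 0
          · have hj : j ≠ 0 := fun h => hij (hi.trans h.symm)
            rw [if_pos hi, if_neg hj]
          · rw [if_neg hi]
            by_cases hj : j = 0
            · rw [if_pos hj]
              nlinarith
            · rw [if_neg hj]
              exact Nat.mul_le_mul_right _ hab
        omega
      · have h7 := hle j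
        omega
    · rw [sum_seq]
      have h8 : 2 * (p + 1) * b = 2 * ((p + 1) * b) := by ring
      omega
  · intro hle
    refine holds (cycleGraph m) hB M hM1 ?_
    intro d hd ⟨i₀, j₀, hij, hi, hj⟩ hC
    have h := num_cycle (p + 2) m (by omega) he (by
      have h3 : p + 2 - 1 = p + 1 := by omega
      have h4 : 2 * (p + 2) - 1 = 2 * p + 3 := by omega
      rw [h3, h4]
      exact hle) d i₀ j₀ hij hi hj (by
      intro i j hij hi hj
      by_contra hcon
      push Not at hcon
      exact hC i j hij hi hj (cover_cycle m _ _ hm he hcon))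
    refine ⟨h.1, fun ho hs => ?_⟩
    obtain ⟨i, j, h1, h2, h3, h4⟩ := h.2 ho hs
    exact ⟨i, j, h1, h2, h3, cover_cycle m _ _ hm he h4⟩

/-- joins with a path -/
theorem path_iff (p m : ℕ) (hm : 2 ≤ m) (M : Fin p → ℕ) (hM : ∀ j, (p + 2) * m ≤ M j) :
    SatisfiesFormula (apexJoin (pathGraph m) M) ↔
      ∀ b, 1 ≤ b → (b + 1) * (b + 2) ≤ m → m / (b + 2) + (p + 1) * b ≤ m / 2 := by
  have hB := base_path m hm
  have hM1 : ∀ j, m / 2 ≤ M j := fun j => by
    have h1 := hM j
    have h2 : m ≤ (p + 2) * m := Nat.le_mul_of_pos_left _ (by omega)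
    omega
  constructor
  · intro hF b hb hbm
    by_contra hlt
    push Not at hlt
    have hq1 : b + 1 ≤ m / (b + 2) := (Nat.le_div_iff_mul_le (by omega)).2 hbm
    obtain ⟨a, ha⟩ : ∃ a, m / (b + 2) = a + 1 := ⟨m / (b + 2) - 1, by omega⟩
    have h1 : (a + 1) * (b + 2) ≤ m := by
      rw [← ha]
      exact Nat.div_mul_le_self m (b + 2)
    have hab : b ≤ a := by omega
    have ha3 : (a + 1) * 3 ≤ (a + 1) * (b + 2) := Nat.mul_le_mul_left _ (by omega)
    have ha2 : a + 1 ≤ m / 2 := by omega
    refine fails (pathGraph m) hB M hM (fun i => if i = 0 then a else b) ?_ ?_ ?_ hF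
    · intro i
      split_ifs <;> omega
    · intro i j hij hS
      have h6 := sep_path m _ _ hS
      have h7 : ((if i = 0 then a else b) + 1) * ((if j = 0 then a else b) + 2) ≤ (a + 1) * (b + 2) := by
        by_cases hi : i = 0
        · have hj : j ≠ 0 := fun h => hij (hi.trans h.symm)
          rw [if_pos hi, if_neg hj]
        · rw [if_neg hi]
          by_cases hj : j = 0
          · rw [if_pos hj]
            nlinarith
          · rw [if_neg hj]
            exact Nat.mul_le_mul_right _ (by omega)
      omega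
    · rw [sum_seq]
      omega
  · intro h0
    refine holds (pathGraph m) hB M hM1 ?_
    intro d hd ⟨i₀, j₀, hij, hi, hj⟩ hC
    have h := num_path (p + 2) m (by omega) (by
      have h3 : p + 2 - 1 = p + 1 := by omega
      rw [h3]
      exact h0) d i₀ j₀ hij hi hj (by
      intro i j hij hi hj
      by_contra hcon
      push Not at hcon
      exact hC i j hij hi hj (cover_path m _ _ hcon))
    refine ⟨h.1, fun ho hs => ?_⟩
    obtain ⟨i, j, h1, h2, h3, h4⟩ := h.2 ho hs
    exact ⟨i, j, h1, h2, h3, cover_path m _ _ h4⟩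

end H67.SW
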