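import Pool.Agent.H67.SW.Away
import Pool.Agent.H67.SG.Realize

/-! # SW.PairEmb : a covering of H gives a red copy of the join (about 200 lines)

Let `a_σ` (`σ : Fin s`) be different red neighbours of `x₀` in `part c i`, `Z = {x₀} ∪ {a_σ}` (at most `s + 1` vertices, all in the part `i`). `B` = the vertices of `part c j` which are not adjacent to some `z ∈ Z`: at most `(s+1) g` (`hcr`, `j ≠ i = c z`). `paths_away` with `S = part c j`, `P = m`, `b = (s+1) g`:
`y : Fin m → Fin (t+1) → W` (`|S| ≥ n - g`, `hn`). Let `f` be the covering. `realize` for `G = apexJoin H M`, `q = p + 2`: `X` = the hub and all vertices of `H`, `ψ hub = x₀`, `ψ (vertex v of H)` = `a_σ` if `f v = inl σ`, `y r u` if `f v = inr (r, u)`; labels: `lam hub = i`, `lam v = i` or `j` accordingly, and the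
`l`-th independent set gets the value at `l` of an injection of `Fin p` into the `p` elements of `Fin (p+2)` different from `i` and `j`. `ψ` is injective on `X` (`x₀` is not its own neighbour; different parts). `hX`: hub and `v`: `a_σ` is a neighbour of `x₀`, `y r u ∉ B`. Edge `v v'` of `H`: by `CovOK`: two separators: impossible; separator and piece: `y r u ∉ B`;
two pieces: same `r`, consecutive positions: `C.Adj`. `hz`: a vertex `z` of the `l`-th independent set is adjacent only to vertices with other labels. -/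

namespace H67.SW

open SimpleGraph Pool.Agent.H62.Decomp H67.SG

/-- the partial embedding -/
private def psi {m p s t : ℕ} {M : Fin p → ℕ} {W : Type} (x₀ : W) (a : Fin s → W)
    (y : Fin m → Fin (t + 1) → W) (f : Fin m → Fin s ⊕ (Fin m × Fin (t + 1))) : Vx m p M → W
  | Sum.inl _ => x₀
  | Sum.inr (Sum.inl v) => Sum.elim a (fun z => y z.1 z.2) (f v)
  | Sum.inr (Sum.inr _) => x₀

/-- the labels -/
private def lm {m p s t : ℕ} {M : Fin p → ℕ} (i j : Fin (p + 2)) (ι : Fin p → Fin (p + 2))
    (f : Fin m → Fin s ⊕ (Fin m × Fin (t + 1))) : Vx m p M → Fin (p + 2)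
  | Sum.inl _ => i
  | Sum.inr (Sum.inl v) => Sum.elim (fun _ => i) (fun _ => j) (f v)
  | Sum.inr (Sum.inr z) => ι z.1

private theorem inj_two {p : ℕ} (i j : Fin (p + 2)) (hij : i ≠ j) :
    ∃ ι : Fin p → Fin (p + 2), Function.Injective ι ∧ ∀ l, ι l ≠ i ∧ ι l ≠ j := by
  classical
  have hc : ((Finset.univ.erase i).erase j).card = p := by
    rw [Finset.card_erase_of_mem (Finset.mem_erase.2 ⟨hij.symm, Finset.mem_univ _⟩),
      Finset.card_erase_of_mem (Finset.mem_univ _), Finset.card_univ, Fintype.card_fin]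
    omega
  refine ⟨fun l => (((Finset.univ.erase i).erase j).equivFinOfCardEq hc).symm l, ?_, ?_⟩
  · intro l l' h
    exact (((Finset.univ.erase i).erase j).equivFinOfCardEq hc).symm.injective (Subtype.ext h)
  · intro l
    have h := ((((Finset.univ.erase i).erase j).equivFinOfCardEq hc).symm l).2
    rw [Finset.mem_erase, Finset.mem_erase] at h
    exact ⟨h.2.1, h.1⟩

theorem aj_embed {m p : ℕ} (H : SimpleGraph (Fin m)) (M : Fin p → ℕ) (s t : ℕ) (hc : Cover H s t)
    {W : Type} [Fintype W] (C : SimpleGraph W) (n g ρ : ℕ) (c : W → Fin (p + 2))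
    (hsz : ∀ j, n ≤ (part c j).card + g) (hcr : ∀ x j, j ≠ c x → nd C x (part c j) ≤ g)
    (hρ : ∀ x, dg C x (part c (c x)) ≤ ρ) (i j : Fin (p + 2)) (hij : i ≠ j) (x₀ : W) (hx₀ : c x₀ = i)
    (hs : s ≤ dg C x₀ (part c i)) (ht : ∀ y, c y = j → t ≤ dg C y (part c j))
    (hn : ((s + 1) * g + m * (t + 1)) * (ρ + 1) ^ t + g +
      (Fintype.card (Vx m p M) + 1) * g + Fintype.card (Vx m p M) + 1 ≤ n) : apexJoin H M ⊑ C := by
  classical
  obtain ⟨f, hfi, hfc⟩ := hc
  obtain ⟨ι, hιi, hιn⟩ := inj_two i j hij
  -- the separators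
  have hemb : Nonempty (Fin s ↪ ↥((part c i).filter (fun w => C.Adj x₀ w))) := by
    apply Function.Embedding.nonempty_of_card_le
    rw [Fintype.card_fin, Fintype.card_coe]
    unfold dg at hs
    exact hs
  obtain ⟨e⟩ := hemb
  have hmemp : ∀ (l : Fin (p + 2)) w, w ∈ part c l ↔ c w = l := by
    intro l w
    unfold part
    simp
  have hec : ∀ σ, c (e σ : W) = i := fun σ =>
    (hmemp i _).1 (Finset.mem_filter.1 (e σ).2).1
  have hea : ∀ σ, C.Adj x₀ (e σ : W) := fun σ => (Finset.mem_filter.1 (e σ).2).2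
  -- the forbidden set
  let Z : Finset W := insert x₀ (Finset.univ.image (fun σ => (e σ : W)))
  have hZi : ∀ z ∈ Z, c z = i := by
    intro z hz
    rcases Finset.mem_insert.1 hz with rfl | hz
    · exact hx₀
    · obtain ⟨σ, _, rfl⟩ := Finset.mem_image.1 hz
      exact hec σ
  have hZc : Z.card ≤ s + 1 := by
    refine (Finset.card_insert_le _ _).trans (Nat.add_le_add_right ?_ 1)
    refine Finset.card_image_le.trans ?_
    rw [Finset.card_univ, Fintype.card_fin]
  let B : Finset W := Z.biUnion (fun z => (part c j).filter (fun w => ¬ C.Adj z w))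
  have hB : B.card ≤ (s + 1) * g := by
    refine (Finset.card_biUnion_le_card_mul _ _ g fun z hz => ?_).trans (Nat.mul_le_mul_right g hZc)
    have h1 := hcr z j (by rw [hZi z hz]; exact hij.symm)
    unfold nd at h1
    exact h1
  have hcard := hsz j
  obtain ⟨y, hy1, hy2, hy3⟩ := paths_away C (part c j) ρ t m ((s + 1) * g)
    (fun x hx => by
      have h := hρ x
      rw [(hmemp j x).1 hx] at h
      exact h)
    (fun x hx => ht x ((hmemp j x).1 hx)) B hB (by omega)
  have hyc : ∀ r u, c (y r u) = j := fun r u => (hmemp j _).1 (hy1 r u).1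
  have hyZ : ∀ z ∈ Z, ∀ r u, C.Adj z (y r u) := by
    intro z hz r u
    by_contra hcon
    exact (hy1 r u).2 (Finset.mem_biUnion.2 ⟨z, hz, Finset.mem_filter.2 ⟨(hy1 r u).1, hcon⟩⟩)
  have hx₀Z : x₀ ∈ Z := Finset.mem_insert_self _ _
  have heZ : ∀ σ, (e σ : W) ∈ Z := fun σ =>
    Finset.mem_insert_of_mem (Finset.mem_image.2 ⟨σ, Finset.mem_univ _, rfl⟩)
  let a : Fin s → W := fun σ => (e σ : W)
  have hai : Function.Injective a := fun σ σ' h => e.injective (Subtype.ext h)
  -- values of the partial embedding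
  have hval : ∀ v : Fin m, c (Sum.elim a (fun z => y z.1 z.2) (f v)) =
      Sum.elim (fun _ => i) (fun _ => j) (f v) := by
    intro v
    rcases f v with σ | ⟨r, u⟩
    · exact hec σ
    · exact hyc r u
  have hhub : ∀ v : Fin m, C.Adj x₀ (Sum.elim a (fun z => y z.1 z.2) (f v)) := by
    intro v
    rcases f v with σ | ⟨r, u⟩
    · exact hea σ
    · exact hyZ x₀ hx₀Z r u
  have hinn : ∀ v v' : Fin m, Sum.elim a (fun z => y z.1 z.2) (f v) =
      Sum.elim a (fun z => y z.1 z.2) (f v') → v = v' := by
    intro v v' h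
    have hc1 := hval v
    have hc2 := hval v'
    rw [h] at hc1
    rw [hc1] at hc2
    apply hfi
    rcases hv : f v with σ | ⟨r, u⟩ <;> rcases hv' : f v' with σ' | ⟨r', u'⟩ <;>
      rw [hv, hv'] at h hc2 <;> simp only [Sum.elim_inl, Sum.elim_inr] at h hc2
    · rw [hai h]
    · exact absurd hc2 hij
    · exact absurd hc2 hij.symm
    · obtain ⟨h1, h2⟩ := hy2 r u r' u' h
      rw [h1, h2]
  have hadj : ∀ v v' : Fin m, H.Adj v v' → C.Adj (Sum.elim a (fun z => y z.1 z.2) (f v))
      (Sum.elim a (fun z => y z.1 z.2) (f v')) := by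
    intro v v' h
    have h1 := hfc v v' h
    rcases hv : f v with σ | ⟨r, u⟩ <;> rcases hv' : f v' with σ' | ⟨r', u'⟩ <;>
      rw [hv, hv'] at h1 <;> simp only [Sum.elim_inl, Sum.elim_inr, CovOK] at h1 ⊢
    · exact hyZ _ (heZ σ) r' u'
    · exact (hyZ _ (heZ σ') r u).symm
    · obtain ⟨h2, h3⟩ := h1
      subst h2
      rcases h3 with h3 | h3
      · exact hy3 r u u' h3
      · exact (hy3 r u' u h3).symm
  refine realize (apexJoin H M) C (p + 2) n g c hsz hcr (by omega) (lm i j ι f)
    (Finset.univ.filter (fun x => fac x < 2)) (psi x₀ a y f) ?_ ?_ ?_ ?_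
  · rintro (_ | v | z) hx (_ | v' | z') hx' h
    · rfl
    · exfalso
      have h1 := hhub v'
      simp only [psi] at h
      rw [← h] at h1
      exact C.loopless.irrefl _ h1
    · exfalso
      have h1 := (Finset.mem_filter.1 (Finset.mem_coe.1 hx')).2
      simp [fac] at h1
    · exfalso
      have h1 := hhub v
      simp only [psi] at h
      rw [h] at h1
      exact C.loopless.irrefl _ h1
    · simp only [psi] at h
      rw [hinn v v' h]
    · exfalso
      have h1 := (Finset.mem_filter.1 (Finset.mem_coe.1 hx')).2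
      simp [fac] at h1
    all_goals
      exfalso
      have h1 := (Finset.mem_filter.1 (Finset.mem_coe.1 hx)).2
      simp [fac] at h1
  · rintro (_ | v | z) hx
    · exact hx₀
    · exact hval v
    · exfalso
      have h1 := (Finset.mem_filter.1 hx).2
      simp [fac] at h1
  · rintro (_ | v | z) hx (_ | v' | z') hx' h
    · exact absurd h ((apexJoin H M).loopless.irrefl _)
    · exact hhub v'
    · exfalso
      have h1 := (Finset.mem_filter.1 hx').2
      simp [fac] at h1
    · exact (hhub v).symm
    · exact hadj v v' (adj_inner.1 h)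
    · exfalso
      have h1 := (Finset.mem_filter.1 hx').2
      simp [fac] at h1
    all_goals
      exfalso
      have h1 := (Finset.mem_filter.1 hx).2
      simp [fac] at h1
  · rintro (_ | v | z) hz u hu
    · exfalso
      exact hz (Finset.mem_filter.2 ⟨Finset.mem_univ _, by simp [fac]⟩)
    · exfalso
      exact hz (Finset.mem_filter.2 ⟨Finset.mem_univ _, by simp [fac]⟩)
    · rcases u with _ | v | w
      · exact (hιn z.1).1
      · simp only [lm]
        rcases f v with σ | ⟨r, u⟩
        · exact (hιn z.1).1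
        · exact (hιn z.1).2
      · simp only [lm]
        intro h
        exact adj_sigma.1 hu (hιi h)

end H67.SW
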