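import Pool.Agent.H67.SW.Def

/-! # SW.Part : every G[s] with (p+1)-colourable rest contains a star with a leaves or H (about 150 lines)

`G = apexJoin H M`, `s` with `G - s` `(p+1)`-colourable and `G[s]` contained in `F` by an injective `φ`. Suppose `deg F x < a` for all `x` and `H ⋢ F`. Then
(1) not all vertices of `H` are in `s` (otherwise `H ⊑ G[s] ⊑ F`). (2) No vertex of `G[s]` has `a` neighbours in `G[s]` (its image would have `a` neighbours, `φ` injective). Call `Φ_0 = {hub}`,
`Φ_j` = the `j`-th independent set (`|Φ_j| = M j ≥ a`). If two different `Φ_i`, `Φ_j` are contained in `s` then one of them is an independent set with at least `a` vertices, all adjacent to a vertex of the other one (nonempty: `a ≥ 1`): contradiction to (2). So at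
most one of the `p + 1` sets `Φ` is contained in `s`. Case 1: exactly one, `Φ_l ⊆ s`, let `y ∈ Φ_l`. The set `Y` of vertices of `H` in `s` are neighbours of `y` in `G[s]`, so `|Y| < a`, so `Y` is not a vertex cover (`hB.cov`): there is an edge `u v` of `H` outside `s`. Together with one
vertex outside `s` of each of the other `p` sets `Φ` this is a clique with `p + 2` vertices in `G - s`, which is `(p+1)`-colourable: contradiction. Case 2: none: one vertex of `H` outside `s` and one vertex outside `s` of each of the `p + 1` sets `Φ` form a clique with `p + 2` vertices.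
Contradiction. (Clique against colouring: an injective map into `Fin (p+1)` from a type with `p + 2` elements; in case 1 for instance the index type `Fin (p + 1)` minus `l` plus `Bool`, or: the colours of the vertices `y_i ∈ Φ_i \ s` (`i ≠ l`) and of `u` give an injective map `Fin (p+1) → Fin (p+1)` (use `u` for the index `l`), so
it is surjective, and the colour of `v` is different from all its values.) In case 2 similarly: the `y_i` give an injective, hence surjective map and the vertex of `H` has a different colour. -/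

namespace H67.SW

open SimpleGraph Pool.Agent.H62.Decomp H67.SG

private theorem few {V : Type} {G : SimpleGraph V} {s : Set V} {W : Type} [Fintype W] {F : SimpleGraph W} {a : ℕ}
    (φ : Copy (G.induce s) F) (hdeg : ∀ x, deg F x < a) (y : V) (hy : y ∈ s) (J : Finset V)
    (hJ : ∀ z ∈ J, z ∈ s ∧ G.Adj y z) : J.card < a := by
  classical
  refine lt_of_le_of_lt ?_ (hdeg (φ ⟨y, hy⟩))
  have h1 : (J.attach.image (fun z => φ ⟨z.1, (hJ z.1 z.2).1⟩)).card = J.card := by
    rw [Finset.card_image_of_injective, Finset.card_attach]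
    intro z w hzw
    have h2 := φ.injective hzw
    apply Subtype.ext
    have h3 := congrArg Subtype.val h2
    exact h3
  rw [← h1]
  unfold deg dg
  apply Finset.card_le_card
  intro w hw
  obtain ⟨z, _, rfl⟩ := Finset.mem_image.1 hw
  rw [Finset.mem_filter]
  refine ⟨Finset.mem_univ _, ?_⟩
  apply φ.toHom.map_adj
  exact (hJ z.1 z.2).2

private def idx (p : ℕ) (i : Fin (p + 1)) : ℕ := if i.val = 0 then 0 else i.val + 1

private theorem idx_ne {p : ℕ} {i j : Fin (p + 1)} (h : i ≠ j) : idx p i ≠ idx p j := by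
  have h1 : i.val ≠ j.val := fun h2 => h (Fin.ext h2)
  unfold idx
  split_ifs <;> omega

private theorem idx_ne_one {p : ℕ} (i : Fin (p + 1)) : idx p i ≠ 1 := by
  unfold idx
  split_ifs <;> omega

private theorem idx_succ {p : ℕ} (j : Fin p) : idx p j.succ = j.val + 2 := by
  unfold idx
  simp

private theorem exists_fac {m p a : ℕ} {M : Fin p → ℕ} (ha : 1 ≤ a) (hM : ∀ j, a ≤ M j) (i : Fin (p + 1)) :
    ∃ x : Vx m p M, fac x = idx p i := by
  refine Fin.cases ?_ (fun j => ?_) i
  · exact ⟨Sum.inl (), by simp [fac, idx]⟩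
  · refine ⟨Sum.inr (Sum.inr ⟨j, ⟨0, lt_of_lt_of_le ha (hM j)⟩⟩), ?_⟩
    rw [idx_succ]
    rfl

private theorem clash {V : Type} {G : SimpleGraph V} {s : Set V} {p : ℕ} (c : (G.induce sᶜ).Coloring (Fin (p + 1)))
    (f : Fin (p + 1) → V) (hf : ∀ i, f i ∉ s) (hff : ∀ i j, i ≠ j → G.Adj (f i) (f j)) (v : V) (hv : v ∉ s)
    (hvf : ∀ i, G.Adj v (f i)) : False := by
  have hinj : Function.Injective (fun i => c ⟨f i, hf i⟩) := by
    intro i j hij
    by_contra hne
    have h1 : (G.induce sᶜ).Adj ⟨f i, hf i⟩ ⟨f j, hf j⟩ := hff i j hne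
    exact c.valid h1 hij
  obtain ⟨i, hi⟩ := (Finite.injective_iff_surjective.1 hinj) (c ⟨v, hv⟩)
  have h1 : (G.induce sᶜ).Adj ⟨v, hv⟩ ⟨f i, hf i⟩ := hvf i
  exact c.valid h1 hi.symm

theorem aj_part {m p a : ℕ} (H : SimpleGraph (Fin m)) (hB : Base H a) (M : Fin p → ℕ) (hM : ∀ j, a ≤ M j)
    {W : Type} [Fintype W] (F : SimpleGraph W) (h : ContainsPart (apexJoin H M) (p + 1) F) :
    (∃ x, a ≤ deg F x) ∨ H ⊑ F := by
  classical
  by_contra hcon
  rw [not_or] at hcon
  obtain ⟨hd, hH⟩ := hcon
  have hdeg : ∀ x, deg F x < a := by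
    intro x
    by_contra hx
    exact hd ⟨x, not_lt.1 hx⟩
  obtain ⟨s, ⟨c⟩, hsub⟩ := h
  obtain ⟨φ⟩ := id hsub
  -- (1) not all vertices of `H` in `s`
  have hv : ∃ v : Fin m, (Sum.inr (Sum.inl v) : Vx m p M) ∉ s := by
    by_contra hall
    have hall' : ∀ v : Fin m, (Sum.inr (Sum.inl v) : Vx m p M) ∈ s := by
      intro v
      by_contra hv
      exact hall ⟨v, hv⟩
    apply hH
    refine IsContained.trans ?_ hsub
    refine ⟨⟨⟨fun v => ⟨Sum.inr (Sum.inl v), hall' v⟩, ?_⟩, ?_⟩⟩
    · intro x y hxy
      exact adj_inner.2 hxy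
    · intro x y hxy
      have h2 : (Sum.inr (Sum.inl x) : Vx m p M) = Sum.inr (Sum.inl y) := congrArg Subtype.val hxy
      simpa using h2
  -- at most one of the sets is contained in `s`
  have hone' : ∀ (i : Fin (p + 1)) (j : Fin p), i ≠ j.succ →
      (∀ x : Vx m p M, fac x = idx p i → x ∈ s) → (∀ x : Vx m p M, fac x = idx p j.succ → x ∈ s) → False := by
    intro i j hij hi hj
    obtain ⟨y, hy⟩ := exists_fac (m := m) (M := M) hB.one hM i
    let e : Fin (M j) ↪ Vx m p M := ⟨fun x => Sum.inr (Sum.inr ⟨j, x⟩), fun x x' h => by simpa using h⟩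
    have h1 : (Finset.univ.map e).card < a := by
      apply few φ hdeg y (hi y hy)
      intro z hz
      obtain ⟨x, _, rfl⟩ := Finset.mem_map.1 hz
      have h2 : fac (e x) = idx p j.succ := by
        rw [idx_succ]
        rfl
      refine ⟨hj _ h2, ?_⟩
      apply adj_of_fac
      rw [h2, hy]
      exact idx_ne hij
    rw [Finset.card_map, Finset.card_univ, Fintype.card_fin] at h1
    exact absurd (hM j) (not_le.2 h1)
  have hone : ∀ (i j : Fin (p + 1)), i ≠ j →
      (∀ x : Vx m p M, fac x = idx p i → x ∈ s) → (∀ x : Vx m p M, fac x = idx p j → x ∈ s) → False := by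
    intro i j
    refine Fin.cases ?_ (fun j' => ?_) j
    · refine Fin.cases ?_ (fun i' => ?_) i
      · intro h
        exact absurd rfl h
      · intro hij hi hj
        exact hone' 0 i' hij.symm hj hi
    · exact hone' i j'
  have hout : ∀ i : Fin (p + 1), ¬ (∀ x : Vx m p M, fac x = idx p i → x ∈ s) →
      ∃ x : Vx m p M, fac x = idx p i ∧ x ∉ s := by
    intro i hi
    by_contra hno
    apply hi
    intro x hx
    by_contra hxs
    exact hno ⟨x, hx, hxs⟩
  by_cases hex : ∃ l : Fin (p + 1), ∀ x : Vx m p M, fac x = idx p l → x ∈ s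
  · obtain ⟨l, hl⟩ := hex
    obtain ⟨y, hy⟩ := exists_fac (m := m) (M := M) hB.one hM l
    let e : Fin m ↪ Vx m p M := ⟨fun x => Sum.inr (Sum.inl x), fun x x' h => by simpa using h⟩
    let Y : Finset (Fin m) := Finset.univ.filter (fun v => (Sum.inr (Sum.inl v) : Vx m p M) ∈ s)
    have hY : Y.card < a := by
      have h1 : (Y.map e).card < a := by
        apply few φ hdeg y (hl y hy)
        intro z hz
        obtain ⟨x, hx, rfl⟩ := Finset.mem_map.1 hz
        refine ⟨(Finset.mem_filter.1 hx).2, ?_⟩
        apply adj_of_fac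
        rw [hy]
        exact idx_ne_one l
      rwa [Finset.card_map] at h1
    have huv : ∃ u v, H.Adj u v ∧ u ∉ Y ∧ v ∉ Y := by
      by_contra hno
      apply absurd (hB.cov Y ?_) (not_le.2 hY)
      intro x y hxy
      by_contra hxy'
      rw [not_or] at hxy'
      exact hno ⟨x, y, hxy, hxy'⟩
    obtain ⟨u, v, huv, hu, hv⟩ := huv
    have hus : (Sum.inr (Sum.inl u) : Vx m p M) ∉ s := fun h => hu (Finset.mem_filter.2 ⟨Finset.mem_univ _, h⟩)
    have hvs : (Sum.inr (Sum.inl v) : Vx m p M) ∉ s := fun h => hv (Finset.mem_filter.2 ⟨Finset.mem_univ _, h⟩)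
    have hf : ∀ i : Fin (p + 1), ∃ x : Vx m p M, x ∉ s ∧ (i ≠ l → fac x = idx p i) ∧
        (i = l → x = Sum.inr (Sum.inl u)) := by
      intro i
      by_cases hil : i = l
      · exact ⟨Sum.inr (Sum.inl u), hus, fun h => absurd hil h, fun _ => rfl⟩
      · obtain ⟨x, hx, hxs⟩ := hout i (fun h => hone i l hil h hl)
        exact ⟨x, hxs, fun _ => hx, fun h => absurd h hil⟩
    choose f hfs hf1 hf2 using hf
    apply clash c f hfs ?_ (Sum.inr (Sum.inl v)) hvs ?_
    · intro i j hij
      apply adj_of_fac
      by_cases hil : i = l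
      · have hjl : j ≠ l := fun h => hij (hil.trans h.symm)
        rw [hf2 i hil, hf1 j hjl]
        exact (idx_ne_one j).symm
      · by_cases hjl : j = l
        · rw [hf2 j hjl, hf1 i hil]
          exact idx_ne_one i
        · rw [hf1 i hil, hf1 j hjl]
          exact idx_ne hij
    · intro i
      by_cases hil : i = l
      · rw [hf2 i hil]
        exact adj_inner.2 huv.symm
      · apply adj_of_fac
        rw [hf1 i hil]
        exact (idx_ne_one i).symm
  · have hf : ∀ i : Fin (p + 1), ∃ x : Vx m p M, fac x = idx p i ∧ x ∉ s := by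
      intro i
      exact hout i (fun h => hex ⟨i, h⟩)
    choose f hf1 hfs using hf
    obtain ⟨v, hv⟩ := hv
    apply clash c f hfs ?_ (Sum.inr (Sum.inl v)) hv ?_
    · intro i j hij
      apply adj_of_fac
      rw [hf1 i, hf1 j]
      exact idx_ne hij
    · intro i
      apply adj_of_fac
      rw [hf1 i]
      exact (idx_ne_one i).symm

end H67.SW
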