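import Pool.Agent.H67.SW.InnerS
import Pool.Agent.H67.SW.EmbAl
import Pool.Agent.H67.SW.PairEmb
import Pool.Agent.H67.SW.Low
import Pool.Agent.H67.SG.PartA

/-! # SW.Up : the formula holds under a numerical condition (about 300 lines)

`G = apexJoin H M`, `q = p + 2`, `k = p + 3`, `D = a - 1`, `V = Vx m p M`, `R = partRamsey G (p+1) T`. For large `n`: `classRamsey G T = R` (`aj_eq`), and the lower bound `(p+1)(n-1) + R ≤ ramsey G T` is `part_lower` (`G` is not `(p+1)`-colourable, from `aj_not_col` and `Colorable.mono`). Upper bound.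
`partA` (`k = p + 3`, `v = hub`) gives `K`, `n₁`: for trees with `deg x + K ≤ n` for all `x` the formula holds (`ramsey = (k-1)(n-1) + 1`, `classRamsey = n`, `(k-2)(n-1) + n = (k-1)(n-1) + 1` for `n ≥ 1`). Let now `T` have a vertex `c` with `n < deg T c + K`. Let `J` be a set with `Far T c J` of maximal cardinality `α`. Suppose `ramsey G T > (p+1)(n-1) + R`:
by `ramsey_le` (contraposition) there is `C` on `Fin ((p+1)(n-1) + R)` without `G` and without blue `T`; `R ≥ n` (`aj_ge`), so the number of vertices is `≥ q (n-1) + 1`: `core` with `q`, `v = hub` and a large constant `K'` (depending on `m`, `p`, `M`, `a`): parts `c₀`, `g`, `K' g ≤ n`, `Str`.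
(1) all inner degrees are `< a` (`inner_lt_star`, `aj_col`). (2) `|part i| < R` for all `i`: otherwise `part_spec_finset` for `S = part c₀ i`: `s`, `ψ`, a colouring of `G - s` with `Fin (p+1)`; labels: `i` on `s`, the others by a bijection `Fin (p+1) ≃ {j ≠ i}`; `realize` gives `G ⊑ C` (as in `SG/PartB.lean`).
(3) Put `d i = |part i| + 1 - n` (truncated: `0` if `|part i| < n`), `I = {i | 1 ≤ d i}`; `Σ_I d i ≥ R + 1 - n` (the sizes add up to `(p+1)(n-1) + R` and the others are `≤ n - 1`). By (2) `d i ≤ R - n` for all `i`, so `I` has at least two elements. (4) for `i ∈ I` all inner degrees of the part `i` are `≥ d i + α`: `emb_far` with `ρ = a`.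
Put `d' i = d i + α` for `i ∈ I`, `0` otherwise. By (1) `d' i ≤ D`. For `i ≠ j` in `I`: `¬ Cover H (d' i) (d' j)`: otherwise `aj_embed` with any `x₀` in the part `i`. So by `hnum`: `Σ d' ≤ D`, i.e. `Σ_I d i + |I| α ≤ D`, and with `|I| ≥ 2`: `R + 1 - n + 2 α ≤ D`.
(5) `low_clique`: `R + α + 2 ≥ n + a`, i.e. `R + 1 - n ≥ D - α`. If `α ≥ 1` this is a contradiction. If `α = 0` then `deg T c = n - 1` (a vertex `z ≠ c` not adjacent to `c` would give `J = {z}`). If `(n - 1 + D) D` is even then `low_star`: `R + 1 ≥ n + a`, i.e. `R + 1 - n ≥ D + 1`: contradiction. Otherwise `D` is odd and `n` is odd, and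
`D ≤ R + 1 - n ≤ Σ_I d i = Σ d' ≤ D`: equality; `hnum` gives `i ≠ j`, `d' i` odd, `1 ≤ d' j`, `Cover H (d' i + 1) (d' j)`. The part `i` has `n - 1 + d i` elements, an odd number, so (`parity_vertex`) some `x₀` in it has inner degree `≥ d' i + 1`: `aj_embed`: contradiction.
Constants: `K'` such that `K' g ≤ n` and `n` large imply the two conditions `hn` (of `aj_embed` for all `s, t ≤ a`, `ρ = a`, and of `realize`). -/

namespace H67.SW

open SimpleGraph Pool.Agent.H62.Decomp H67.SG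

private theorem up_num {a m v g n s t : ℕ} (hs : s ≤ a) (ht : t ≤ a)
    (hK : 2 * ((a + 1) * (a + 1) ^ a + v + 2) * g ≤ n)
    (hn : 2 * (m * (a + 1) * (a + 1) ^ a + v + 1) ≤ n) :
    ((s + 1) * g + m * (t + 1)) * (a + 1) ^ t + g + (v + 1) * g + v + 1 ≤ n := by
  have h1 : (a + 1) ^ t ≤ (a + 1) ^ a := Nat.pow_le_pow_right (Nat.succ_pos a) ht
  have h2 : (s + 1) * g + m * (t + 1) ≤ (a + 1) * g + m * (a + 1) :=
    Nat.add_le_add (Nat.mul_le_mul_right g (by omega)) (Nat.mul_le_mul_left m (by omega))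
  have h3 := Nat.mul_le_mul h2 h1
  generalize (a + 1) ^ a = E at *
  generalize ((s + 1) * g + m * (t + 1)) * (a + 1) ^ t = X at *
  nlinarith [h3, hK, hn]

private theorem up_far {n : ℕ} (T : SimpleGraph (Fin n)) (c : Fin n) :
    ∃ J : Finset (Fin n), Far T c J ∧ ∀ J' : Finset (Fin n), Far T c J' → J'.card ≤ J.card := by
  classical
  have hne : (Finset.univ.filter (fun J : Finset (Fin n) => Far T c J)).Nonempty :=
    ⟨∅, Finset.mem_filter.2 ⟨Finset.mem_univ _, fun z hz => absurd hz (Finset.notMem_empty z),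
      fun y hy => absurd hy (Finset.notMem_empty y)⟩⟩
  obtain ⟨J, hJ, hmax⟩ := Finset.exists_max_image _ (fun J => J.card) hne
  exact ⟨J, (Finset.mem_filter.1 hJ).2, fun J' hJ' => hmax J' (Finset.mem_filter.2 ⟨Finset.mem_univ _, hJ'⟩)⟩

private theorem up_star {n : ℕ} (T : SimpleGraph (Fin n)) (c : Fin n)
    (h : ∀ J : Finset (Fin n), Far T c J → J.card ≤ 0) : deg T c = n - 1 := by
  classical
  have hadj : ∀ z, z ≠ c → T.Adj c z := by
    intro z hz
    by_contra hcon
    have h1 := h {z} ⟨fun y hy => by rw [Finset.mem_singleton.1 hy]; exact ⟨hz, hcon⟩, fun y hy w hw => by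
      rw [Finset.mem_singleton.1 hy, Finset.mem_singleton.1 hw]; exact T.irrefl⟩
    rw [Finset.card_singleton] at h1
    omega
  unfold deg dg
  trans (Finset.univ.erase c).card
  · refine congrArg Finset.card ?_
    ext y
    constructor
    · intro h1
      exact Finset.mem_erase.2 ⟨((Finset.mem_filter.1 h1).2).ne', Finset.mem_univ _⟩
    · intro h1
      exact Finset.mem_filter.2 ⟨Finset.mem_univ _, hadj y (Finset.mem_erase.1 h1).1⟩
  · rw [Finset.card_erase_of_mem (Finset.mem_univ _), Finset.card_univ, Fintype.card_fin]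

private theorem up_sum {N q : ℕ} (c₀ : Fin N → Fin q) : ∑ j, (part c₀ j).card = N := by
  classical
  have h2 := Finset.card_eq_sum_card_fiberwise (f := c₀) (s := (Finset.univ : Finset (Fin N)))
    (t := (Finset.univ : Finset (Fin q))) (fun x _ => Finset.mem_coe.2 (Finset.mem_univ _))
  rw [Finset.card_univ, Fintype.card_fin] at h2
  refine Eq.trans (Finset.sum_congr rfl (fun j _ => ?_)) h2.symm
  unfold part
  congr 1

private theorem up_count {q n R : ℕ} (s : Fin (q + 1) → ℕ) (hsum : ∑ j, s j = q * (n - 1) + R)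
    (hn : 1 ≤ n) (hR : n ≤ R) (hlt : ∀ j, s j < R) :
    R + 1 ≤ n + ∑ j, (s j + 1 - n) ∧ ∃ i j, i ≠ j ∧ n ≤ s i ∧ n ≤ s j := by
  have h2 : ∑ j, s j ≤ ∑ j : Fin (q + 1), ((n - 1) + (s j + 1 - n)) := Finset.sum_le_sum fun j _ => by omega
  rw [Finset.sum_add_distrib, Finset.sum_const, Finset.card_univ, Fintype.card_fin, smul_eq_mul, hsum,
    Nat.add_mul, Nat.one_mul] at h2
  have h3 : R + 1 ≤ n + ∑ j, (s j + 1 - n) := by
    generalize ∑ j, (s j + 1 - n) = X at *
    generalize q * (n - 1) = Q at *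
    omega
  refine ⟨h3, ?_⟩
  have h4 : ∃ i, n ≤ s i := by
    by_contra hcon
    push Not at hcon
    have h5 : ∑ j, (s j + 1 - n) = 0 := Finset.sum_eq_zero fun j _ => by
      have := hcon j
      omega
    omega
  obtain ⟨i, hi⟩ := h4
  by_contra hcon
  push Not at hcon
  have h6 : ∑ j, (s j + 1 - n) = s i + 1 - n := by
    refine Finset.sum_eq_single i (fun j _ hj => ?_) (fun h => absurd (Finset.mem_univ i) h)
    have := hcon i j hj.symm hi
    omega
  have h7 := hlt i
  omega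

private theorem up_part_lt {V : Type} [Fintype V] (G : SimpleGraph V) {p n N : ℕ} (T : SimpleGraph (Fin n))
    (C : SimpleGraph (Fin N)) (hG : ¬ G ⊑ C) (hT : ¬ T ⊑ Cᶜ) (g : ℕ) (c₀ : Fin N → Fin (p + 2))
    (hsz : ∀ j, n ≤ (part c₀ j).card + g) (hcr : ∀ x j, j ≠ c₀ x → nd C x (part c₀ j) ≤ g)
    (hn : (Fintype.card V + 1) * g + Fintype.card V + 1 ≤ n) (hN : 0 < N) (i : Fin (p + 2)) :
    (part c₀ i).card < partRamsey G (p + 1) T := by
  classical
  by_contra hcon
  rw [not_lt] at hcon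
  have hne : Nonempty (Fin N) := ⟨⟨0, hN⟩⟩
  rcases part_spec_finset G (p + 1) T C (part c₀ i) hcon with ⟨s, ψ, ⟨col⟩, hinj, hψ, hadj⟩ | h
  · apply hG
    let lam : V → Fin (p + 2) := fun x => if h : x ∈ s then i else i.succAbove (col ⟨x, h⟩)
    have hlam1 : ∀ x, x ∈ s → lam x = i := fun x hx => dif_pos hx
    have hlam2 : ∀ x (hx : x ∉ s), lam x = i.succAbove (col ⟨x, hx⟩) := fun x hx => dif_neg hx
    refine realize G C (p + 2) n g c₀ hsz hcr hn lam (Finset.univ.filter (fun x => x ∈ s)) ψ ?_ ?_ ?_ ?_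
    · intro x hx y hy hxy
      simp only [Finset.coe_filter, Finset.mem_univ, true_and, Set.mem_ofPred_eq] at hx hy
      exact hinj hx hy hxy
    · intro x hx
      have hx' := (Finset.mem_filter.1 hx).2
      rw [hlam1 x hx']
      have h1 := hψ x hx'
      unfold part at h1
      exact (Finset.mem_filter.1 h1).2
    · intro x hx y hy hxy
      exact hadj x (Finset.mem_filter.1 hx).2 y (Finset.mem_filter.1 hy).2 hxy
    · intro z hz u hzu
      have hz' : z ∉ s := fun h => hz (Finset.mem_filter.2 ⟨Finset.mem_univ z, h⟩)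
      rw [hlam2 z hz']
      by_cases hu : u ∈ s
      · rw [hlam1 u hu]
        exact Fin.succAbove_ne i _
      · rw [hlam2 u hu]
        intro heq
        have h1 := Fin.succAbove_right_injective heq
        have h2 : (G.induce sᶜ).Adj ⟨z, hz'⟩ ⟨u, hu⟩ := hzu
        exact col.valid h2 h1
  · exact hT h

theorem holds {m p a : ℕ} (H : SimpleGraph (Fin m)) (hB : Base H a) (M : Fin p → ℕ) (hM : ∀ j, a ≤ M j)
    (hnum : ∀ d : Fin (p + 2) → ℕ, (∀ i, d i + 1 ≤ a) → (∃ i j, i ≠ j ∧ 1 ≤ d i ∧ 1 ≤ d j) →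
      (∀ i j, i ≠ j → 1 ≤ d i → 1 ≤ d j → ¬ Cover H (d i) (d j)) →
      ∑ i, d i + 1 ≤ a ∧ (Odd (a - 1) → ∑ i, d i + 1 = a →
        ∃ i j, i ≠ j ∧ Odd (d i) ∧ 1 ≤ d j ∧ Cover H (d i + 1) (d j))) :
    SatisfiesFormula (apexJoin H M) := by
  classical
  have ha := hB.one
  have hM1 : ∀ j, 1 ≤ M j := fun j => ha.trans (hM j)
  have hchrom := aj_chrom H hB M hM1
  have hkn : (apexJoin H M).chromaticNumber.toNat = p + 3 := by rw [hchrom]; rfl
  have hnc : ¬ (apexJoin H M).Colorable (p + 1) := fun h =>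
    aj_not_col H hB M hM1 (h.mono (Nat.le_succ (p + 1)))
  obtain ⟨K, n₁, hA⟩ := partA (apexJoin H M) (p + 3) (by omega) hchrom (hub m p M) (aj_sing H hB M)
  obtain ⟨n₂, hcore⟩ := core (apexJoin H M) (p + 2) (by omega) (hub m p M) (aj_sing H hB M)
    (2 * ((a + 1) * (a + 1) ^ a + Fintype.card (Vx m p M) + 2))
  obtain ⟨n₃, hfar⟩ := emb_far a K
  obtain ⟨n₄, hlc⟩ := low_clique H hB M hM
  obtain ⟨n₅, hls⟩ := low_star H hB M hM
  refine ⟨n₁ + n₂ + n₃ + n₄ + n₅ + Fintype.card (Vx m p M) +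
    2 * (m * (a + 1) * (a + 1) ^ a + Fintype.card (Vx m p M) + 1), ?_⟩
  intro n hn T hT
  have hnum2 : 2 * (m * (a + 1) * (a + 1) ^ a + Fintype.card (Vx m p M) + 1) ≤ n := by omega
  have hn1 : 1 ≤ n := by omega
  rw [hkn]
  by_cases hdeg : ∀ x, deg T x + K ≤ n
  · obtain ⟨h1, h2⟩ := hA n (by omega) T hT hdeg
    rw [h1, h2]
    have h3 : p + 3 - 1 = (p + 1) + 1 := by omega
    have h4 : p + 3 - 2 = p + 1 := by omega
    rw [h3, h4, Nat.add_mul (p + 1) 1, Nat.one_mul]
    generalize (p + 1) * (n - 1) = Q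
    omega
  push Not at hdeg
  obtain ⟨c, hc⟩ := hdeg
  rw [show p + 3 - 2 = p + 1 by omega, aj_eq H hB M hM T hT (by omega)]
  refine le_antisymm ?_ (part_lower (apexJoin H M) (p + 1) hnc T hT)
  apply ramsey_le
  intro C
  by_contra hcon
  rw [not_or] at hcon
  obtain ⟨hG, hTC⟩ := hcon
  have hR : n ≤ partRamsey (apexJoin H M) (p + 1) T := aj_ge H hB M hM T hT
  have hlow : ∀ α : ℕ, (∀ J : Finset (Fin n), Far T c J → J.card ≤ α) →
      n + a ≤ partRamsey (apexJoin H M) (p + 1) T + α + 2 := hlc n (by omega) T hT c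
  have hlst : Even ((n - 1 + (a - 1)) * (a - 1)) → deg T c = n - 1 →
      n + a ≤ partRamsey (apexJoin H M) (p + 1) T + 1 := fun he hd => hls n (by omega) he T hT c hd
  have hpl := fun (g : ℕ) (c₀ : Fin ((p + 1) * (n - 1) + partRamsey (apexJoin H M) (p + 1) T) → Fin (p + 2))
      h1 h2 h3 (i : Fin (p + 2)) => up_part_lt (apexJoin H M) T C hG hTC g c₀ h1 h2 h3 (by omega) i
  generalize partRamsey (apexJoin H M) (p + 1) T = R at *
  obtain ⟨c₀, g, hKg, hs, -⟩ := hcore n (by omega) T hT (Fin ((p + 1) * (n - 1) + R)) C hG hTC (by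
    rw [Fintype.card_fin, show p + 2 = (p + 1) + 1 from rfl, Nat.add_mul (p + 1) 1, Nat.one_mul]
    generalize (p + 1) * (n - 1) = Q
    omega)
  have hnum3 : (Fintype.card (Vx m p M) + 1) * g + Fintype.card (Vx m p M) + 1 ≤ n := by
    have h1 := up_num (s := 0) (t := 0) (Nat.zero_le a) (Nat.zero_le a) hKg hnum2
    generalize (Fintype.card (Vx m p M) + 1) * g = Y at *
    generalize ((0 + 1) * g + m * (0 + 1)) * (a + 1) ^ 0 = X at *
    omega
  -- (1) inner degrees
  have hin : ∀ x, dg C x (part c₀ (c₀ x)) < a := by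
    obtain ⟨f, hf, i, hi, h2⟩ := aj_col H hB M
    exact fun x => inner_lt_star (apexJoin H M) (p + 2) (hub m p M) f hf i hi a h2 C n g c₀ hs.size hs.cross
      hnum3 hG x
  have hin' : ∀ i, ∀ x ∈ part c₀ i, dg C x (part c₀ i) < a := by
    intro i x hx
    have h1 : c₀ x = i := by
      unfold part at hx
      exact (Finset.mem_filter.1 hx).2
    have h2 := hin x
    rw [h1] at h2
    exact h2
  -- (2) the parts are small
  have hlt : ∀ i, (part c₀ i).card < R := hpl g c₀ hs.size hs.cross hnum3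
  -- (3) two parts with at least n elements
  obtain ⟨hSg, i₁, j₁, hij₁, hi₁, hj₁⟩ := up_count (fun i => (part c₀ i).card) (up_sum c₀) hn1 hR hlt
  -- (4) degrees inside the large parts
  obtain ⟨J, hJ, hJmax⟩ := up_far T c
  have hbig : ∀ i, n ≤ (part c₀ i).card → ∀ x ∈ part c₀ i,
      (part c₀ i).card + 1 - n + J.card ≤ dg C x (part c₀ i) := by
    intro i hi x hx
    by_contra hlt2
    rw [not_le] at hlt2
    refine hTC (hfar n (by omega) T hT c hc J hJ _ C (part c₀ i) ((part c₀ i).card + 1 - n) (by omega) (by omega)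
      (fun y hy => (hin' i y hy).le) ⟨x, hx, hlt2⟩)
  obtain ⟨d, hd⟩ : ∃ d : Fin (p + 2) → ℕ, ∀ i, d i =
      if n ≤ (part c₀ i).card then (part c₀ i).card + 1 - n + J.card else 0 := ⟨_, fun _ => rfl⟩
  have hd1 : ∀ i, n ≤ (part c₀ i).card → d i = (part c₀ i).card + 1 - n + J.card := fun i hi => by
    rw [hd i, if_pos hi]
  have hd0 : ∀ i, 1 ≤ d i → n ≤ (part c₀ i).card := by
    intro i hi
    by_contra h1
    rw [hd i, if_neg h1] at hi
    omega
  have hdge : ∀ i, 1 ≤ d i → ∀ x ∈ part c₀ i, d i ≤ dg C x (part c₀ i) := by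
    intro i hi x hx
    rw [hd1 i (hd0 i hi)]
    exact hbig i (hd0 i hi) x hx
  have hne : ∀ i, 1 ≤ d i → ∃ x, x ∈ part c₀ i := by
    intro i hi
    have h1 := hd0 i hi
    have h2 : 0 < (part c₀ i).card := by omega
    exact Finset.card_pos.1 h2
  have hda : ∀ i, d i + 1 ≤ a := by
    intro i
    rcases Nat.eq_zero_or_pos (d i) with h0 | h0
    · omega
    · obtain ⟨x, hx⟩ := hne i h0
      have h1 := hdge i h0 x hx
      have h2 := hin' i x hx
      omega
  have hcol : ∀ i x, x ∈ part c₀ i ↔ c₀ x = i := by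
    intro i x
    unfold part
    rw [Finset.mem_filter]
    exact ⟨fun h => h.2, fun h => ⟨Finset.mem_univ x, h⟩⟩
  have hemb : ∀ i j, i ≠ j → ∀ s, s ≤ a → 1 ≤ d j → (∃ x ∈ part c₀ i, s ≤ dg C x (part c₀ i)) →
      ¬ Cover H s (d j) := by
    rintro i j hij s hsa hj ⟨x, hx, hsx⟩ hcov
    refine hG (aj_embed H M s (d j) hcov C n g a c₀ hs.size hs.cross (fun y => (hin y).le) i j hij x
      ((hcol i x).1 hx) hsx (fun y hy => hdge j hj y ((hcol j y).2 hy)) ?_)
    have hja : d j ≤ a := by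
      have := hda j
      omega
    exact up_num hsa hja hKg hnum2
  obtain ⟨hsum, hodd⟩ := hnum d hda ⟨i₁, j₁, hij₁, by rw [hd1 i₁ hi₁]; omega, by rw [hd1 j₁ hj₁]; omega⟩ (by
    intro i j hij hi hj
    obtain ⟨x, hx⟩ := hne i hi
    refine hemb i j hij (d i) ?_ hj ⟨x, hx, hdge i hi x hx⟩
    have := hda i
    omega)
  -- (5) the sums
  have hsum2 : ∑ i, ((part c₀ i).card + 1 - n) + 2 * J.card ≤ ∑ i, d i := by
    have h1 : ∑ i, d i = ∑ i, ((part c₀ i).card + 1 - n) +
        ∑ i, (if n ≤ (part c₀ i).card then J.card else 0) := by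
      rw [← Finset.sum_add_distrib]
      refine Finset.sum_congr rfl fun i _ => ?_
      rw [hd i]
      by_cases h : n ≤ (part c₀ i).card
      · rw [if_pos h, if_pos h]
      · rw [if_neg h, if_neg h]
        omega
    have h2 : ∑ i ∈ ({i₁, j₁} : Finset (Fin (p + 2))), (if n ≤ (part c₀ i).card then J.card else 0) ≤
        ∑ i, (if n ≤ (part c₀ i).card then J.card else 0) :=
      Finset.sum_le_sum_of_subset (Finset.subset_univ _)
    rw [Finset.sum_pair hij₁, if_pos hi₁, if_pos hj₁] at h2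
    omega
  have hlowJ := hlow J.card hJmax
  generalize hS1 : ∑ i, ((part c₀ i).card + 1 - n) = S₁ at *
  generalize hS2 : ∑ i, d i = S₂ at *
  have hJ0 : J.card = 0 := by omega
  have hst : deg T c = n - 1 := up_star T c (fun J' hJ' => by
    have := hJmax J' hJ'
    omega)
  rcases Nat.even_or_odd ((n - 1 + (a - 1)) * (a - 1)) with he | ho
  · have h1 := hlst he hst
    omega
  · rw [Nat.odd_mul] at ho
    obtain ⟨ho1, ho2⟩ := ho
    obtain ⟨i, j, hij, hio, hj, hcov⟩ := hodd ho2 (by omega)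
    have hi : 1 ≤ d i := hio.pos
    have hcard : Odd (part c₀ i).card := by
      have h1 := hd1 i (hd0 i hi)
      have h2 := hd0 i hi
      rcases ho1 with ⟨u, hu⟩
      rcases ho2 with ⟨w, hw⟩
      rcases hio with ⟨z, hz⟩
      refine ⟨(u - w) + z, ?_⟩
      omega
    obtain ⟨x, hx, hdx⟩ := parity_vertex C (part c₀ i) (d i) hcard hio (hdge i hi)
    refine hemb i j hij (d i + 1) (hda i) hj ⟨x, hx, hdx⟩ hcov

end H67.SW
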